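import Pool.Agent.H56.PG.Ry

/-!
# Module Cl (about 170 lines): averaging over segments

PROOF. Let `R = b - a - κ > 0`, `A = {zc τ a ≤ v}`, `e = exc τ N ρ m v ≥ 0`: bounded, measurable, zero outside the compact set
`{zc τ b ≤ v}` (`hpos`), so integrable. For `z ∈ A` let `Bad z = {x ∈ ball z R | v x ≤ zc τ b}`. For `x ∈ Bad z` `ray` gives
`κ ≤ (b - a) - ‖x - z‖ ≤ ∫_0^1 e (z + s (x - z)) ‖x - z‖ ds ≤ (b - a) ∫_0^1 e (z + s (x - z)) ds`. Integrate over `Bad z` and
substitute `x = z + y`: `κ |Bad z| ≤ (b - a) Ψ z`, `Ψ z = ∫_{‖y‖ < R} ∫_0^1 e (z + s y) ds dy`. By Tonelli and translation invariance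
`∫ Ψ z dz = ∫_{‖y‖ < R} ∫_0^1 ∫ e (z + s y) dz ds dy = |ball 0 R| ∫ e ≤ 4π/3 (b - a)³ ∫ e` (`EuclideanSpace.volume_ball_fin_three`).
(It is convenient to do this with `lintegral` of `ENNReal.ofReal (e …)`.) So there is `z ∈ A` with `|A| Ψ z ≤ ∫_A Ψ ≤ ∫ Ψ`
(`|A|` finite and positive; otherwise the integral over `A` would be larger; e.g. `MeasureTheory.exists_le_lintegral` /
`exists_le_average`-type lemmas).
-/

set_option autoImplicit false

namespace Pool.H56.PO

open MeasureTheory Filter Topology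

theorem exc_nonneg {τ a b : ℝ} {N : ℕ} {ρ m : ℕ → ℝ} (hP : Part τ a b N ρ m) (v : E3 → ℝ)
    (x : E3) : 0 ≤ exc τ N ρ m v x := by
  unfold exc
  refine Finset.sum_nonneg fun i hi => Set.indicator_nonneg (fun y _ => ?_) x
  exact mul_nonneg (inv_nonneg.2 (hP.mpos i (Finset.mem_range.1 hi)).le) (le_max_right _ _)

theorem exc_measurable {τ : ℝ} {N : ℕ} {ρ m : ℕ → ℝ} {v : E3 → ℝ}
    (hv : ContDiff ℝ 1 v) : Measurable (exc τ N ρ m v) := by
  have hc : Continuous v := hv.continuous
  have hd : Continuous (fderiv ℝ v) := hv.continuous_fderiv (by simp)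
  unfold exc
  refine Finset.measurable_sum _ fun i _ => Measurable.indicator ?_ ?_
  · exact (continuous_const.mul ((hd.norm.sub continuous_const).max continuous_const)).measurable
  · exact ((isClosed_le continuous_const hc).inter (isClosed_le hc continuous_const)).measurableSet

theorem exc_integrable {τ a b : ℝ} {N : ℕ} {ρ m : ℕ → ℝ} (hP : Part τ a b N ρ m) {v : E3 → ℝ}
    (hv : ContDiff ℝ 1 v) (hcs : HasCompactSupport v) : Integrable (exc τ N ρ m v) := by
  have hc : Continuous v := hv.continuous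
  have hd : Continuous (fderiv ℝ v) := hv.continuous_fderiv (by simp)
  unfold exc
  refine integrable_finsetSum _ fun i hi => Integrable.indicator ?_ ?_
  · refine (continuous_const.mul ((hd.norm.sub continuous_const).max
      continuous_const)).integrable_of_hasCompactSupport ?_
    refine (hcs.fderiv ℝ).mono' ?_
    intro y hy
    refine subset_tsupport _ ?_
    rw [Function.mem_support] at hy ⊢
    intro h
    apply hy
    change (m i)⁻¹ * max (‖fderiv ℝ v y‖ - m i) 0 = 0
    rw [h, norm_zero, zero_sub, max_eq_right, mul_zero]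
    linarith [hP.mpos i (Finset.mem_range.1 hi)]
  · exact ((isClosed_le continuous_const hc).inter (isClosed_le hc continuous_const)).measurableSet

/-- average over the segments of directions `y` in the ball of radius `R` -/
noncomputable def seg (E : E3 → ENNReal) (R : ℝ) (z : E3) : ENNReal :=
  ∫⁻ y in Metric.ball (0 : E3) R, ∫⁻ s in Set.Ioc (0 : ℝ) 1, E (z + s • y)

theorem seg_meas3 {E : E3 → ENNReal} (hE : Measurable E) :
    Measurable (fun q : (E3 × E3) × ℝ => E (q.1.1 + q.2 • q.1.2)) := by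
  have : Continuous (fun q : (E3 × E3) × ℝ => q.1.1 + q.2 • q.1.2) := by fun_prop
  exact hE.comp this.measurable

theorem seg_meas2 {E : E3 → ENNReal} (hE : Measurable E) :
    Measurable (fun q : E3 × E3 => ∫⁻ s in Set.Ioc (0 : ℝ) 1, E (q.1 + s • q.2)) :=
  (seg_meas3 hE).lintegral_prod_right'

theorem seg_meas {E : E3 → ENNReal} (hE : Measurable E) (R : ℝ) : Measurable (seg E R) :=
  (seg_meas2 hE).lintegral_prod_right'

theorem seg_integral {E : E3 → ENNReal} (hE : Measurable E) (R : ℝ) :
    ∫⁻ z, seg E R z = volume (Metric.ball (0 : E3) R) * ∫⁻ z, E z := by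
  unfold seg
  rw [lintegral_lintegral_swap (seg_meas2 hE).aemeasurable]
  have h : ∀ y : E3, ∫⁻ z : E3, ∫⁻ s in Set.Ioc (0 : ℝ) 1, E (z + s • y) = ∫⁻ z, E z := by
    intro y
    rw [lintegral_lintegral_swap]
    · have h1 : ∀ s : ℝ, ∫⁻ z : E3, E (z + s • y) = ∫⁻ z, E z := fun s =>
        lintegral_add_right_eq_self E (s • y)
      simp only [h1]
      rw [setLIntegral_const, Real.volume_Ioc]
      simp
    · have : Continuous (fun q : E3 × ℝ => q.1 + q.2 • y) := by fun_prop
      exact (hE.comp this.measurable).aemeasurable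
  simp only [h]
  rw [setLIntegral_const, mul_comm]

theorem seg_shift (E : E3 → ENNReal) (R : ℝ) (z : E3) :
    ∫⁻ x in Metric.ball z R, ∫⁻ s in Set.Ioc (0 : ℝ) 1, E (z + s • (x - z)) = seg E R z := by
  unfold seg
  rw [← lintegral_indicator Metric.isOpen_ball.measurableSet,
    ← lintegral_indicator Metric.isOpen_ball.measurableSet,
    ← lintegral_sub_right_eq_self ((Metric.ball (0 : E3) R).indicator _) z]
  refine lintegral_congr fun x => ?_
  by_cases hx : x ∈ Metric.ball z R
  · have hx' : x - z ∈ Metric.ball (0 : E3) R := by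
      rwa [mem_ball_zero_iff, ← mem_ball_iff_norm]
    rw [Set.indicator_of_mem hx, Set.indicator_of_mem hx']
  · have hx' : x - z ∉ Metric.ball (0 : E3) R := by
      rwa [mem_ball_zero_iff, ← mem_ball_iff_norm]
    rw [Set.indicator_of_notMem hx, Set.indicator_of_notMem hx']

theorem close {τ a b : ℝ} {N : ℕ} {ρ m : ℕ → ℝ} (hP : Part τ a b N ρ m) {v : E3 → ℝ}
    (hv : ContDiff ℝ 1 v) (hc : HasCompactSupport v) (hpos : 0 < zc τ b) {κ : ℝ} (hκ : 0 < κ)
    (hκ' : κ < b - a) (hA : 0 < volume.real {x | zc τ a ≤ v x}) :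
    ∃ z : E3, volume.real {x | x ∈ Metric.ball z (b - a - κ) ∧ v x ≤ zc τ b} * κ *
        volume.real {x | zc τ a ≤ v x} ≤
      (b - a) * (4 * Real.pi / 3 * (b - a) ^ 3) * ∫ x, exc τ N ρ m v x := by
  set R : ℝ := b - a - κ with hR
  have hR0 : 0 < R := by linarith
  have hba : 0 < b - a := by linarith
  set e := exc τ N ρ m v with he
  have he0 : ∀ x, 0 ≤ e x := exc_nonneg hP v
  have hem : Measurable e := exc_measurable hv
  have hei : Integrable e := exc_integrable hP hv hc
  set E : E3 → ENNReal := fun x => ENNReal.ofReal (e x) with hEdef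
  have hE : Measurable E := hem.ennreal_ofReal
  have hvc : Continuous v := hv.continuous
  set A : Set E3 := {x | zc τ a ≤ v x} with hAdef
  have hA1 : volume A ≠ 0 := fun h => by
    rw [Measure.real, h] at hA
    simp at hA
  have hA2 : volume A ≠ ⊤ := fun h => by
    rw [Measure.real, h] at hA
    simp at hA
  -- the bound for the bad set
  have hbad : ∀ z ∈ A, ENNReal.ofReal κ * volume {x | x ∈ Metric.ball z R ∧ v x ≤ zc τ b} ≤
      ENNReal.ofReal (b - a) * seg E R z := by
    intro z hz
    have hmeas : MeasurableSet {x | x ∈ Metric.ball z R ∧ v x ≤ zc τ b} :=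
      Metric.isOpen_ball.measurableSet.inter (isClosed_le hvc continuous_const).measurableSet
    have hpt : ∀ x ∈ {x | x ∈ Metric.ball z R ∧ v x ≤ zc τ b}, ENNReal.ofReal κ ≤
        ENNReal.ofReal (b - a) * ∫⁻ s in Set.Ioc (0 : ℝ) 1, E (z + s • (x - z)) := by
      rintro x ⟨hx, hxv⟩
      rw [mem_ball_iff_norm] at hx
      have h1 := ray hP hv hz hxv
      rw [intervalIntegral.integral_of_le zero_le_one] at h1
      have hcont : Continuous (fun s : ℝ => z + s • (x - z)) := by fun_prop
      have hms : Measurable (fun s : ℝ => e (z + s • (x - z)) * ‖x - z‖) :=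
        (hem.comp hcont.measurable).mul_const _
      rw [integral_eq_lintegral_of_nonneg_ae
        (Eventually.of_forall fun s => mul_nonneg (he0 _) (norm_nonneg _))
        hms.aestronglyMeasurable] at h1
      calc ENNReal.ofReal κ ≤ ENNReal.ofReal ((b - a) - ‖x - z‖) :=
            ENNReal.ofReal_le_ofReal (by linarith)
        _ ≤ _ := ENNReal.ofReal_le_ofReal h1
        _ ≤ _ := ENNReal.ofReal_toReal_le
        _ ≤ ∫⁻ s in Set.Ioc (0 : ℝ) 1, ENNReal.ofReal (b - a) * E (z + s • (x - z)) := by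
            refine lintegral_mono fun s => ?_
            simp only [hEdef]
            rw [← ENNReal.ofReal_mul hba.le, mul_comm]
            exact ENNReal.ofReal_le_ofReal (mul_le_mul_of_nonneg_right (by linarith) (he0 _))
        _ = _ := by
            rw [lintegral_const_mul]
            exact hE.comp hcont.measurable
    calc ENNReal.ofReal κ * volume {x | x ∈ Metric.ball z R ∧ v x ≤ zc τ b}
        = ∫⁻ _ in {x | x ∈ Metric.ball z R ∧ v x ≤ zc τ b}, ENNReal.ofReal κ := by
          rw [setLIntegral_const]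
      _ ≤ ∫⁻ x in {x | x ∈ Metric.ball z R ∧ v x ≤ zc τ b}, ENNReal.ofReal (b - a) *
          ∫⁻ s in Set.Ioc (0 : ℝ) 1, E (z + s • (x - z)) := setLIntegral_mono' hmeas hpt
      _ ≤ ∫⁻ x in Metric.ball z R, ENNReal.ofReal (b - a) *
          ∫⁻ s in Set.Ioc (0 : ℝ) 1, E (z + s • (x - z)) :=
          lintegral_mono_set fun x hx => hx.1
      _ = ENNReal.ofReal (b - a) * seg E R z := by
          rw [lintegral_const_mul, seg_shift]
          have h1 := (seg_meas2 hE).comp (g := fun q : E3 × E3 =>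
            ∫⁻ s in Set.Ioc (0 : ℝ) 1, E (q.1 + s • q.2)) (f := fun x : E3 => (z, x - z))
            (measurable_const.prodMk (measurable_id.sub_const z))
          exact h1
  obtain ⟨z, hz, hzle⟩ := exists_le_setLAverage (f := seg E R) hA1 hA2 (seg_meas hE R).aemeasurable
  rw [setLAverage_eq, ENNReal.le_div_iff_mul_le (Or.inl hA1) (Or.inl hA2)] at hzle
  refine ⟨z, ?_⟩
  have h1 : seg E R z * volume A ≤ volume (Metric.ball (0 : E3) R) * ∫⁻ z, E z := by
    rw [← seg_integral hE R]
    exact hzle.trans (setLIntegral_le_lintegral _ _)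
  have h2 : ∫⁻ z, E z = ENNReal.ofReal (∫ x, e x) :=
    (ofReal_integral_eq_lintegral_ofReal hei (Eventually.of_forall he0)).symm
  have h3 : volume (Metric.ball (0 : E3) R) ≤ ENNReal.ofReal (4 * Real.pi / 3 * (b - a) ^ 3) := by
    rw [EuclideanSpace.volume_ball_fin_three, ← ENNReal.ofReal_pow hR0.le,
      ← ENNReal.ofReal_mul (by positivity)]
    refine ENNReal.ofReal_le_ofReal ?_
    have : R ^ 3 ≤ (b - a) ^ 3 := pow_le_pow_left₀ hR0.le (by linarith) 3
    have hpi := Real.pi_pos
    nlinarith [mul_le_mul_of_nonneg_right this (by positivity : 0 ≤ Real.pi * 4 / 3)]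
  have hint : 0 ≤ ∫ x, e x := integral_nonneg he0
  have h4 : volume {x | x ∈ Metric.ball z R ∧ v x ≤ zc τ b} * ENNReal.ofReal κ * volume A ≤
      ENNReal.ofReal ((b - a) * (4 * Real.pi / 3 * (b - a) ^ 3) * ∫ x, e x) := by
    calc volume {x | x ∈ Metric.ball z R ∧ v x ≤ zc τ b} * ENNReal.ofReal κ * volume A
        = ENNReal.ofReal κ * volume {x | x ∈ Metric.ball z R ∧ v x ≤ zc τ b} * volume A := by
          rw [mul_comm (volume _) (ENNReal.ofReal κ)]
      _ ≤ ENNReal.ofReal (b - a) * seg E R z * volume A := mul_le_mul_left (hbad z hz) _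
      _ = ENNReal.ofReal (b - a) * (seg E R z * volume A) := mul_assoc _ _ _
      _ ≤ ENNReal.ofReal (b - a) * (volume (Metric.ball (0 : E3) R) * ∫⁻ z, E z) :=
          mul_le_mul_right h1 _
      _ ≤ ENNReal.ofReal (b - a) * (ENNReal.ofReal (4 * Real.pi / 3 * (b - a) ^ 3) *
          ENNReal.ofReal (∫ x, e x)) := by
          rw [h2]
          gcongr
      _ = _ := by
          have hpi := Real.pi_pos
          rw [← ENNReal.ofReal_mul (by positivity), ← ENNReal.ofReal_mul hba.le, ← mul_assoc]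
  have h5 := ENNReal.toReal_mono ENNReal.ofReal_ne_top h4
  rw [ENNReal.toReal_ofReal (by
    have hpi := Real.pi_pos
    positivity), ENNReal.toReal_mul, ENNReal.toReal_mul, ENNReal.toReal_ofReal hκ.le] at h5
  exact h5

end Pool.H56.PO
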