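import Pool.Agent.H56.PG.Sob
import Pool.Agent.H68.SC.Basic

/-!
# Module Cnt (about 180 lines): counting eigenvalues of sets close to a ball

PROOF. Let `ε` be the number of `hR`: subspaces `F'` of `C1c (ball 0 R)` with `∫ ‖∇ g‖² ≤ (1 + ε) ∫ g²` have dimension `≤ M`.
Let `χ` be a `C¹` function, `0 ≤ χ ≤ 1`, `χ = 1` on `ball 0 τ`, `tsupport χ ⊆ ball 0 R`, `gg χ χ ≤ C₀` (a `ContDiffBump`; the gradient is
continuous with compact support, so bounded). Choose `η ∈ (0, 1]` and `β ∈ (0, 1/2)` small with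
`((1 + η) (1 + η) + (1 + 1/η) C₀ β) / (1 - β) ≤ 1 + ε`, and `δ > 0` with `C δ^(2/3) 2 ≤ β`, `C` the constant of `sob`.
Let `|D \ ball z τ| ≤ δ`. Claim: `AtMost (Sy 1) D 1 M` with the number `η`. Let `F ≤ C1c D ⊓ Sy 1` be finite-dimensional with
`∫ ‖∇ f‖² ≤ (1 + η) ∫ f²` on `F`. For `f ∈ F` let `g x = χ x * f (x + z)`: a linear map `T : F → C1c (ball 0 R) ⊓ Sy 1`
(`Sy 1` is everything). Put `f̃ x = f (x + z)`; `∫ f̃² = ∫ f²`, `∫ ‖∇ f̃‖² = ∫ ‖∇ f‖²` (translation), `f̃ = 0` outside `D - z`. Let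
`S = {x | x + z ∈ D \ ball z τ}`, `|S| ≤ δ`. `sob`: `∫_S f̃² ≤ C δ^(2/3) (1 + η) ∫ f² ≤ β ∫ f²`. As `1 - χ = 0` and `∇ χ = 0` on the
open ball `ball 0 τ` and `f̃ = 0` outside `D - z`: `∫ g² ≥ ∫ f̃² - ∫_S f̃² ≥ (1 - β) ∫ f²`, and (pointwise
`‖χ ∇ f̃ + f̃ ∇ χ‖² ≤ (1 + η) ‖∇ f̃‖² + (1 + 1/η) f̃² ‖∇ χ‖²`)
`∫ ‖∇ g‖² ≤ (1 + η) (1 + η) ∫ f² + (1 + 1/η) C₀ β ∫ f² ≤ (1 + ε) ∫ g²`. `T` is injective because `∫ g² ≥ (1 - β) ∫ f² > 0` for
`f ≠ 0` (`int_sq_pos`). So `finrank F = finrank (range T) ≤ M`.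
-/

set_option autoImplicit false

namespace Pool.H56.PO

open MeasureTheory Filter Topology
open Pool.Agent.H68.SC

private theorem Cnt_param {ε C0 : ℝ} (hε : 0 < ε) (hC0 : 0 ≤ C0) :
    ∃ η β : ℝ, 0 < η ∧ η ≤ 1 ∧ 0 < β ∧ β < 1 ∧
      (1 + η) * (1 + η) + (1 + 1 / η) * C0 * β ≤ (1 + ε) * (1 - β) := by
  have hη : 0 < min 1 (ε / 8) := lt_min one_pos (by positivity)
  have hη1 : min 1 (ε / 8) ≤ 1 := min_le_left _ _
  have hη2 : min 1 (ε / 8) ≤ ε / 8 := min_le_right _ _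
  generalize min 1 (ε / 8) = η at hη hη1 hη2
  set A : ℝ := (1 + 1 / η) * C0 + (1 + ε) with hA
  have hA1 : 1 ≤ A := by
    have : 0 ≤ (1 + 1 / η) * C0 := by positivity
    linarith
  refine ⟨η, min (1 / 4) (ε / 2 / A), hη, hη1, lt_min (by norm_num) (by positivity),
    lt_of_le_of_lt (min_le_left _ _) (by norm_num), ?_⟩
  have hb2 : min (1 / 4) (ε / 2 / A) ≤ ε / 2 / A := min_le_right _ _
  generalize min (1 / 4) (ε / 2 / A) = β at hb2
  have h1 : A * β ≤ ε / 2 := by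
    rw [le_div_iff₀ (by positivity)] at hb2
    linarith
  have h2 : A * β = (1 + 1 / η) * C0 * β + (1 + ε) * β := by rw [hA]; ring
  have h3 : (1 + η) * (1 + η) ≤ 1 + 3 * η := by nlinarith
  rw [h2] at h1
  linarith

private theorem Cnt_young {F : Type*} [NormedAddCommGroup F] (a b : F) {η : ℝ} (hη : 0 < η) :
    ‖a + b‖ ^ 2 ≤ (1 + η) * ‖a‖ ^ 2 + (1 + 1 / η) * ‖b‖ ^ 2 := by
  have h1 : ‖a + b‖ ≤ ‖a‖ + ‖b‖ := norm_add_le a b
  have h2 : ‖a + b‖ ^ 2 ≤ (‖a‖ + ‖b‖) ^ 2 := pow_le_pow_left₀ (norm_nonneg _) h1 2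
  have h3 : 0 ≤ (η * ‖a‖ - ‖b‖) ^ 2 / η := by positivity
  have h4 : (η * ‖a‖ - ‖b‖) ^ 2 / η = η * ‖a‖ ^ 2 - 2 * ‖a‖ * ‖b‖ + 1 / η * ‖b‖ ^ 2 := by
    field_simp
    ring
  rw [h4] at h3
  nlinarith

/-- the cut off translate -/
private def CntT (χ : E → ℝ) (z : E) : (E → ℝ) →ₗ[ℝ] (E → ℝ) where
  toFun f := fun x => χ x * f (x + z)
  map_add' f g := by funext x; simp only [Pi.add_apply]; ring
  map_smul' a f := by funext x; simp only [Pi.smul_apply, smul_eq_mul, RingHom.id_apply]; ring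

private theorem Cnt_main {χ : E → ℝ} (hχ : ContDiff ℝ 1 χ) (hχc : HasCompactSupport χ)
    (hχ0 : ∀ x, 0 ≤ χ x) (hχ1 : ∀ x, χ x ≤ 1) {τ : ℝ} (hχτ : ∀ x ∈ Metric.ball (0 : E) τ, χ x = 1)
    {C0 : ℝ} (hC0 : ∀ x, ‖fderiv ℝ χ x‖ ^ 2 ≤ C0) {C : ℝ} (hC : 0 < C)
    (hsob : ∀ (f : E → ℝ) (S : Set E), ContDiff ℝ 1 f → HasCompactSupport f → MeasurableSet S →
      volume S ≠ ⊤ → ∫ x in S, f x ^ 2 ≤ C * volume.real S ^ (2 / 3 : ℝ) * ∫ x, ‖fderiv ℝ f x‖ ^ 2)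
    {η β δ : ℝ} (hη : 0 < η) (hη1 : η ≤ 1) (hδ0 : 0 < δ) (hδ : C * δ ^ (2 / 3 : ℝ) * 2 ≤ β)
    {D : Set E} {z : E} (hD : IsOpen D) (hDb : Bornology.IsBounded D)
    (hv : volume.real (D \ Metric.ball z τ) ≤ δ) {f : E → ℝ} (hf : f ∈ C1c D)
    (hE : ∫ x, ‖fderiv ℝ f x‖ ^ 2 ≤ (1 + η) * ∫ x, f x ^ 2) :
    (1 - β) * (∫ x, f x ^ 2) ≤ ∫ x, (CntT χ z f x) ^ 2 ∧
    ∫ x, ‖fderiv ℝ (CntT χ z f) x‖ ^ 2 ≤
      ((1 + η) * (1 + η) + (1 + 1 / η) * C0 * β) * ∫ x, f x ^ 2 := by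
  have hC00 : 0 ≤ C0 := (by positivity : (0 : ℝ) ≤ ‖fderiv ℝ χ 0‖ ^ 2).trans (hC0 0)
  set g : E → ℝ := fun x => f (x + z) with hg
  have hgC : ContDiff ℝ 1 g := hf.1.comp (contDiff_id.add contDiff_const)
  have hgc : HasCompactSupport g := hf.2.1.comp_homeomorph (Homeomorph.addRight z)
  have hgd : ∀ x, fderiv ℝ g x = fderiv ℝ f (x + z) := fun x => fderiv_comp_add_right z
  have hI0 : ∫ x, g x ^ 2 = ∫ x, f x ^ 2 := integral_add_right_eq_self (fun x => f x ^ 2) z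
  have hI1 : ∫ x, ‖fderiv ℝ g x‖ ^ 2 = ∫ x, ‖fderiv ℝ f x‖ ^ 2 := by
    simp only [hgd]
    exact integral_add_right_eq_self (fun x => ‖fderiv ℝ f x‖ ^ 2) z
  set S : Set E := (fun x => x + z) ⁻¹' (D \ Metric.ball z τ) with hS
  have hSm : MeasurableSet S :=
    (measurable_add_const z) (hD.measurableSet.diff Metric.isOpen_ball.measurableSet)
  have hSv : volume S = volume (D \ Metric.ball z τ) := measure_preimage_add_right _ _ _
  have hSfin : volume S ≠ ⊤ := by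
    rw [hSv]
    exact (hDb.subset Set.sdiff_subset).measure_lt_top.ne
  have hSr : volume.real S ≤ δ := by
    unfold Measure.real at hv ⊢
    rwa [hSv]
  have hJ0 : 0 ≤ ∫ x, f x ^ 2 := integral_nonneg fun x => by positivity
  have hJ1 : 0 ≤ ∫ x, ‖fderiv ℝ f x‖ ^ 2 := integral_nonneg fun x => by positivity
  have hSS : ∫ x in S, g x ^ 2 ≤ β * ∫ x, f x ^ 2 := by
    have h1 := hsob g S hgC hgc hSm hSfin
    rw [hI1] at h1
    have h2 : volume.real S ^ (2 / 3 : ℝ) ≤ δ ^ (2 / 3 : ℝ) :=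
      Real.rpow_le_rpow measureReal_nonneg hSr (by norm_num)
    calc ∫ x in S, g x ^ 2 ≤ C * volume.real S ^ (2 / 3 : ℝ) * ∫ x, ‖fderiv ℝ f x‖ ^ 2 := h1
      _ ≤ C * δ ^ (2 / 3 : ℝ) * (2 * ∫ x, f x ^ 2) := by
          refine mul_le_mul (mul_le_mul_of_nonneg_left h2 hC.le) ?_ hJ1 (by positivity)
          refine hE.trans (mul_le_mul_of_nonneg_right (by linarith) hJ0)
      _ = C * δ ^ (2 / 3 : ℝ) * 2 * ∫ x, f x ^ 2 := by ring
      _ ≤ β * ∫ x, f x ^ 2 := mul_le_mul_of_nonneg_right hδ hJ0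
  -- outside `S`
  have hout : ∀ x, x ∉ S → g x = 0 ∨ x ∈ Metric.ball (0 : E) τ := by
    intro x hx
    by_cases hxD : x + z ∈ D
    · right
      by_contra hb
      apply hx
      refine ⟨hxD, fun hb' => hb ?_⟩
      rw [Metric.mem_ball, dist_eq_norm] at hb' ⊢
      rwa [add_sub_cancel_right, ← sub_zero x] at hb'
    · left
      by_contra hne
      exact hxD (hf.2.2 (subset_tsupport f hne))
  have hi1 : Integrable (fun x => g x ^ 2) := by
    refine integrable_cc (by have := hgC.continuous; fun_prop) ?_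
    have : (fun x => g x ^ 2) = fun x => g x * g x := by funext x; ring
    rw [this]; exact hgc.mul_right
  have hi2 : Integrable (S.indicator fun x => g x ^ 2) := hi1.indicator hSm
  have hTC : ContDiff ℝ 1 (CntT χ z f) := hχ.mul hgC
  have hTc : HasCompactSupport (CntT χ z f) := hχc.mul_right (f' := g)
  have hi3 : Integrable (fun x => CntT χ z f x ^ 2) := by
    refine integrable_cc (by have := hTC.continuous; fun_prop) ?_
    have : (fun x => CntT χ z f x ^ 2) = fun x => CntT χ z f x * CntT χ z f x := by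
      funext x; ring
    rw [this]; exact hTc.mul_right
  have hi4 : ∀ h : E → ℝ, ContDiff ℝ 1 h → HasCompactSupport h →
      Integrable (fun x => ‖fderiv ℝ h x‖ ^ 2) := by
    intro h h1 h2
    refine integrable_cc (by have := h1.continuous_fderiv one_ne_zero; fun_prop) ?_
    have h3 : HasCompactSupport (fun x => ‖fderiv ℝ h x‖) := (h2.fderiv ℝ).norm
    have : (fun x => ‖fderiv ℝ h x‖ ^ 2) = fun x => ‖fderiv ℝ h x‖ * ‖fderiv ℝ h x‖ := by
      funext x; ring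
    rw [this]; exact h3.mul_right
  constructor
  · have h1 : ∫ x, (g x ^ 2 - S.indicator (fun x => g x ^ 2) x) ≤ ∫ x, (CntT χ z f x) ^ 2 := by
      refine integral_mono (hi1.sub hi2) hi3 fun x => ?_
      by_cases hx : x ∈ S
      · simp only [Set.indicator_of_mem hx, sub_self]; positivity
      · simp only [Set.indicator_of_notMem hx, sub_zero]
        change g x ^ 2 ≤ (χ x * g x) ^ 2
        rcases hout x hx with h | h
        · rw [h]; simp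
        · rw [hχτ x h, one_mul]
    rw [integral_sub hi1 hi2, integral_indicator hSm, hI0] at h1
    linarith
  · have hpt : ∀ x, ‖fderiv ℝ (CntT χ z f) x‖ ^ 2 ≤
        (1 + η) * ‖fderiv ℝ g x‖ ^ 2 + (1 + 1 / η) * C0 * S.indicator (fun x => g x ^ 2) x := by
      intro x
      have e : fderiv ℝ (CntT χ z f) x = χ x • fderiv ℝ g x + g x • fderiv ℝ χ x :=
        fderiv_fun_mul ((hχ.differentiable one_ne_zero) x) ((hgC.differentiable one_ne_zero) x)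
      rw [e]
      refine (Cnt_young _ _ hη).trans ?_
      rw [norm_smul, norm_smul, mul_pow, mul_pow, Real.norm_eq_abs, Real.norm_eq_abs, sq_abs,
        sq_abs]
      have h1 : χ x ^ 2 ≤ 1 := pow_le_one₀ (hχ0 x) (hχ1 x)
      have h2 : (1 + η) * (χ x ^ 2 * ‖fderiv ℝ g x‖ ^ 2) ≤ (1 + η) * ‖fderiv ℝ g x‖ ^ 2 := by
        refine mul_le_mul_of_nonneg_left ?_ (by positivity)
        have : 0 ≤ ‖fderiv ℝ g x‖ ^ 2 := by positivity
        nlinarith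
      have h3 : g x ^ 2 * ‖fderiv ℝ χ x‖ ^ 2 ≤ C0 * S.indicator (fun x => g x ^ 2) x := by
        by_cases hx : x ∈ S
        · rw [Set.indicator_of_mem hx]
          have := mul_le_mul_of_nonneg_left (hC0 x) (sq_nonneg (g x))
          linarith
        · rw [Set.indicator_of_notMem hx, mul_zero]
          rcases hout x hx with h | h
          · rw [h]; simp
          · have h5 : χ =ᶠ[𝓝 x] fun _ => 1 := by
              filter_upwards [Metric.isOpen_ball.mem_nhds h] with y hy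
              exact hχτ y hy
            rw [h5.fderiv_eq]
            simp
      have h4 : (1 + 1 / η) * (g x ^ 2 * ‖fderiv ℝ χ x‖ ^ 2) ≤
          (1 + 1 / η) * C0 * S.indicator (fun x => g x ^ 2) x := by
        rw [mul_assoc]
        exact mul_le_mul_of_nonneg_left h3 (by positivity)
      linarith
    have h1 : ∫ x, ‖fderiv ℝ (CntT χ z f) x‖ ^ 2 ≤
        ∫ x, ((1 + η) * ‖fderiv ℝ g x‖ ^ 2 + (1 + 1 / η) * C0 * S.indicator (fun x => g x ^ 2) x) :=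
      integral_mono (hi4 _ hTC hTc) (((hi4 g hgC hgc).const_mul _).add (hi2.const_mul _)) hpt
    rw [integral_add ((hi4 g hgC hgc).const_mul _) (hi2.const_mul _), integral_const_mul,
      integral_const_mul, integral_indicator hSm, hI1] at h1
    have h2 : (1 + η) * ∫ x, ‖fderiv ℝ f x‖ ^ 2 ≤ (1 + η) * ((1 + η) * ∫ x, f x ^ 2) :=
      mul_le_mul_of_nonneg_left hE (by positivity)
    have h3 : (1 + 1 / η) * C0 * ∫ x in S, g x ^ 2 ≤ (1 + 1 / η) * C0 * (β * ∫ x, f x ^ 2) :=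
      mul_le_mul_of_nonneg_left hSS (by positivity)
    calc ∫ x, ‖fderiv ℝ (CntT χ z f) x‖ ^ 2 ≤
        (1 + η) * ((1 + η) * ∫ x, f x ^ 2) + (1 + 1 / η) * C0 * (β * ∫ x, f x ^ 2) := by
          linarith
      _ = _ := by ring

theorem cnt {τ R : ℝ} (h0 : 0 < τ) (h : τ < R) {M : ℕ}
    (hR : AtMost (Sy 1) (Metric.ball (0 : E) R) 1 M) :
    ∃ δ : ℝ, 0 < δ ∧ ∀ (D : Set E) (z : E), IsOpen D → Bornology.IsBounded D →
      volume.real (D \ Metric.ball z τ) ≤ δ → AtMost (Sy 1) D 1 M := by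
  obtain ⟨ε, hε, hcount⟩ := hR
  let χb : ContDiffBump (0 : E) := ⟨τ, (τ + R) / 2, h0, by linarith⟩
  set χ : E → ℝ := fun x => χb x with hχdef
  have hχ : ContDiff ℝ 1 χ := χb.contDiff
  have hχc : HasCompactSupport χ := χb.hasCompactSupport
  have hχ0 : ∀ x, 0 ≤ χ x := fun x => χb.nonneg
  have hχ1 : ∀ x, χ x ≤ 1 := fun x => χb.le_one
  have hχτ : ∀ x ∈ Metric.ball (0 : E) τ, χ x = 1 := fun x hx =>
    χb.one_of_mem_closedBall (Metric.ball_subset_closedBall hx)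
  have hχs : tsupport χ ⊆ Metric.ball (0 : E) R := by
    have : tsupport χ = Metric.closedBall 0 ((τ + R) / 2) := χb.tsupport_eq
    rw [this]
    exact Metric.closedBall_subset_ball (by linarith)
  obtain ⟨B0, hB0⟩ := (hχc.fderiv ℝ).exists_bound_of_continuous (hχ.continuous_fderiv one_ne_zero)
  have hC0 : ∀ x, ‖fderiv ℝ χ x‖ ^ 2 ≤ B0 ^ 2 := fun x =>
    pow_le_pow_left₀ (norm_nonneg _) (hB0 x) 2
  obtain ⟨η, β, hη, hη1, hβ, hβ1, hpar⟩ := Cnt_param hε (sq_nonneg B0)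
  obtain ⟨C, hC, hsob⟩ := sob
  have hδ0 : 0 < (β / (2 * C)) ^ (3 / 2 : ℝ) := by positivity
  have hδ : C * ((β / (2 * C)) ^ (3 / 2 : ℝ)) ^ (2 / 3 : ℝ) * 2 ≤ β := by
    rw [← Real.rpow_mul (by positivity)]
    norm_num
    apply le_of_eq
    field_simp
  refine ⟨(β / (2 * C)) ^ (3 / 2 : ℝ), hδ0, fun D z hD hDb hv => ?_⟩
  refine ⟨η, hη, fun F hF hFfin hFE => ?_⟩
  have key : ∀ f ∈ F, (1 - β) * (∫ x, f x ^ 2) ≤ ∫ x, (CntT χ z f x) ^ 2 ∧
    ∫ x, ‖fderiv ℝ (CntT χ z f) x‖ ^ 2 ≤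
      ((1 + η) * (1 + η) + (1 + 1 / η) * B0 ^ 2 * β) * ∫ x, f x ^ 2 := fun f hf =>
    Cnt_main hχ hχc hχ0 hχ1 hχτ hC0 hC hsob hη hη1 hδ0 hδ hD hDb hv (hF hf).1 (hFE f hf)
  let T : F →ₗ[ℝ] (E → ℝ) := (CntT χ z).comp F.subtype
  have hTinj : Function.Injective T := by
    rw [← LinearMap.ker_eq_bot, LinearMap.ker_eq_bot']
    intro f hf
    by_contra hne
    have h1 := (key f.1 f.2).1
    have h2 : CntT χ z f.1 = 0 := hf
    have hfne : (f.1 : E → ℝ) ≠ 0 := fun e => hne (Subtype.ext e)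
    have h3 := int_sq_pos (C1c.cont (hF f.2).1) (C1c.compact (hF f.2).1) hfne
    rw [h2] at h1
    simp only [Pi.zero_apply, ne_eq, OfNat.ofNat_ne_zero, not_false_eq_true, zero_pow,
      integral_zero] at h1
    have : 0 < (1 - β) * ∫ x, f.1 x ^ 2 := mul_pos (by linarith) h3
    linarith
  have hfr := hcount (LinearMap.range T) ?_ inferInstance ?_
  · rwa [LinearMap.finrank_range_of_inj hTinj] at hfr
  · rintro g ⟨f, rfl⟩
    have hfD := (hF f.2).1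
    refine ⟨⟨?_, ?_, ?_⟩, fun x => by rw [one_smul]⟩
    · exact hχ.mul (hfD.1.comp (contDiff_id.add contDiff_const))
    · exact hχc.mul_right (f' := fun x => f.1 (x + z))
    · exact (closure_mono (Function.support_mul_subset_left χ fun x => f.1 (x + z))).trans hχs
  · rintro g ⟨f, rfl⟩
    obtain ⟨h1, h2⟩ := key f.1 f.2
    have hJ0 : 0 ≤ ∫ x, f.1 x ^ 2 := integral_nonneg fun x => by positivity
    calc ∫ x, ‖fderiv ℝ (T f) x‖ ^ 2
        ≤ ((1 + η) * (1 + η) + (1 + 1 / η) * B0 ^ 2 * β) * ∫ x, f.1 x ^ 2 := h2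
      _ ≤ (1 + ε) * (1 - β) * ∫ x, f.1 x ^ 2 := mul_le_mul_of_nonneg_right hpar hJ0
      _ = (1 + ε) * ((1 - β) * ∫ x, f.1 x ^ 2) := by ring
      _ ≤ (1 + ε) * ∫ x, (T f x) ^ 2 := mul_le_mul_of_nonneg_left h1 (by positivity)

end Pool.H56.PO
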