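import Pool.Agent.H56.PO.Zf

/-!
# The excess of the gradient (definitions)
-/

set_option autoImplicit false

namespace Pool.H56.PO

open MeasureTheory Filter Topology

/-- the excess of the gradient of `v` over the radial gradient, slab by slab -/
noncomputable def exc (τ : ℝ) (N : ℕ) (ρ m : ℕ → ℝ) (v : E3 → ℝ) (x : E3) : ℝ :=
  ∑ i ∈ Finset.range N, Set.indicator {y : E3 | zc τ (ρ (i + 1)) ≤ v y ∧ v y ≤ zc τ (ρ i)}
    (fun y => (m i)⁻¹ * max (‖fderiv ℝ v y‖ - m i) 0) x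

/-- a partition of `[a, b]` with lower bounds `m i` for the slope of `-zc τ` on its parts -/
structure Part (τ a b : ℝ) (N : ℕ) (ρ m : ℕ → ℝ) : Prop where
  zero : ρ 0 = a
  last : ρ N = b
  lt : ∀ i < N, ρ i < ρ (i + 1)
  mpos : ∀ i < N, 0 < m i
  slope : ∀ i < N, m i * (ρ (i + 1) - ρ i) ≤ zc τ (ρ i) - zc τ (ρ (i + 1))

end Pool.H56.PO
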