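import Pool.Agent.H56.PO.Scale

/-!
# Module Sc2 (about 150 lines): reduction to `k = 1` with the topological data

PROOF. As the proved theorem `scale` in `PO/Scale.lean` (same `D' = {x | φ (k⁻¹ • x) < 0}`, `φ' x = φ (k⁻¹ • x)`,
`u' x = u (k⁻¹ • x)`; take its proof as the model, its private lemmas can be copied). New: `IsConnected D'` (image of `D` under
the homeomorphism `x ↦ k • x`), `ContDiff ℝ 2 φ'`, and the homeomorphism `x ↦ k⁻¹ • x` of the space maps `frontier D'` onto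
`frontier D`, so the two frontiers are homeomorphic (`Homeomorph.image`, `Homeomorph.image_frontier`).
-/

set_option autoImplicit false

namespace Pool.H56.PO

open MeasureTheory Filter Topology

/-- first derivative of a dilated function -/
private theorem Sc2_fderiv (f : E3 → ℝ) (a : ℝ) (x : E3) :
    fderiv ℝ (fun y => f (a • y)) x = a • fderiv ℝ f (a • x) :=
  fderiv_comp_smul a

/-- the Laplacian of a dilated function -/
private theorem Sc2_lap (f : E3 → ℝ) {a : ℝ} (x : E3)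
    (hd : DifferentiableAt ℝ (fderiv ℝ f) (a • x)) :
    lap (fun y => f (a • y)) x = a ^ 2 * lap f (a • x) := by
  have h1 : fderiv ℝ (fun y => f (a • y)) = fun y => a • fderiv ℝ f (a • y) := by
    funext y
    exact Sc2_fderiv f a y
  have h3 : DifferentiableAt ℝ (fun y : E3 => fderiv ℝ f (a • y)) x := by
    have h4 : DifferentiableAt ℝ (fun y : E3 => a • y) x := differentiableAt_id.const_smul a
    exact DifferentiableAt.comp x hd h4
  have h2 : fderiv ℝ (fderiv ℝ (fun y => f (a • y))) x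
      = a • (a • fderiv ℝ (fderiv ℝ f) (a • x)) := by
    rw [h1, fderiv_fun_const_smul h3 a]
    congr 1
    exact fderiv_comp_smul a
  unfold lap
  rw [h2, Finset.mul_sum]
  refine Finset.sum_congr rfl fun i _ => ?_
  simp only [ContinuousLinearMap.smul_apply, smul_eq_mul]
  ring

theorem scale2 {D : Set E3} {φ : E3 → ℝ} (hb : Bornology.IsBounded D) (hn : IsConnected D)
    (hφ : ContDiff ℝ 2 φ) (hD : D = {x | φ x < 0}) (hr : ∀ x, φ x = 0 → fderiv ℝ φ x ≠ 0)
    (hs : Nonempty (frontier D ≃ₜ Metric.sphere (0 : E3) 1))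
    {k c : ℝ} {u : E3 → ℝ} (hk : 0 < k) (hu : ContDiffOn ℝ 2 u D)
    (he : ∀ x ∈ D, lap u x + k ^ 2 * u x = 0)
    (hf : ∀ x ∈ frontier D, Tendsto u (𝓝[D] x) (𝓝 c) ∧ Tendsto (fderiv ℝ u) (𝓝[D] x) (𝓝 0)) :
    ∃ (D' : Set E3) (φ' u' : E3 → ℝ), Bornology.IsBounded D' ∧ IsConnected D' ∧
      ContDiff ℝ 2 φ' ∧ D' = {x | φ' x < 0} ∧ (∀ x, φ' x = 0 → fderiv ℝ φ' x ≠ 0) ∧
      Nonempty (frontier D' ≃ₜ Metric.sphere (0 : E3) 1) ∧ ContDiffOn ℝ 2 u' D' ∧
      (∀ x ∈ D', lap u' x + u' x = 0) ∧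
      (∀ x ∈ frontier D', Tendsto u' (𝓝[D'] x) (𝓝 c) ∧ Tendsto (fderiv ℝ u') (𝓝[D'] x) (𝓝 0)) ∧
      volume.real D' = k ^ 3 * volume.real D ∧
      (∀ (z : E3) (r : ℝ), D' = Metric.ball z r → ∃ (z' : E3) (r' : ℝ), D = Metric.ball z' r') := by
  have hk0 : k⁻¹ ≠ 0 := inv_ne_zero hk.ne'
  have hop : IsOpen D := by
    rw [hD]
    exact isOpen_lt hφ.continuous continuous_const
  set A : E3 ≃ₜ E3 := Homeomorph.smulOfNeZero k⁻¹ hk0 with hA
  have hAx : ∀ x : E3, A x = k⁻¹ • x := fun x => rfl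
  have hcs : ContDiff ℝ 2 (fun x : E3 => k⁻¹ • x) := contDiff_id.const_smul k⁻¹
  have hDA : {x : E3 | φ (k⁻¹ • x) < 0} = A ⁻¹' D := by
    rw [hD]
    rfl
  have hkx : ∀ x : E3, k⁻¹ • (k • x) = x := fun x => by
    rw [smul_smul, inv_mul_cancel₀ hk.ne', one_smul]
  have hkx' : ∀ x : E3, k • (k⁻¹ • x) = x := fun x => by
    rw [smul_smul, mul_inv_cancel₀ hk.ne', one_smul]
  have hin : ∀ x ∈ D, k • x ∈ A ⁻¹' D := fun x hx => by
    show k⁻¹ • (k • x) ∈ D
    rw [hkx]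
    exact hx
  have hcd : ∀ x ∈ D, ContDiffAt ℝ 2 u x := fun x hx => hu.contDiffAt (hop.mem_nhds hx)
  have htd : ∀ x : E3, Tendsto A (𝓝[A ⁻¹' D] x) (𝓝[D] (A x)) := fun x =>
    A.continuous.continuousWithinAt.tendsto_nhdsWithin (Set.mapsTo_preimage A D)
  refine ⟨A ⁻¹' D, fun x => φ (k⁻¹ • x), fun x => u (k⁻¹ • x), ?_, ?_, ?_, ?_, ?_, ?_, ?_, ?_, ?_,
    ?_, ?_⟩
  · -- bounded
    have h1 : A ⁻¹' D ⊆ (fun x : E3 => k • x) '' D := by
      intro x hx
      exact ⟨k⁻¹ • x, hx, hkx' x⟩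
    have h2 : IsCompact ((fun x : E3 => k • x) '' closure D) :=
      hb.isCompact_closure.image (continuous_const_smul k)
    exact h2.isBounded.subset (h1.trans (Set.image_mono subset_closure))
  · exact A.isConnected_preimage.2 hn
  · exact hφ.comp hcs
  · exact hDA.symm
  · intro x hx h0
    rw [Sc2_fderiv] at h0
    rcases smul_eq_zero.mp h0 with h | h
    · exact hk0 h
    · exact hr _ hx h
  · obtain ⟨g⟩ := hs
    rw [← A.preimage_frontier]
    exact ⟨(A.subtype (fun x => Iff.rfl)).trans g⟩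
  · exact hu.comp hcs.contDiffOn (fun x hx => hx)
  · intro x hx
    have hx' : k⁻¹ • x ∈ D := hx
    have hd : DifferentiableAt ℝ (fderiv ℝ u) (k⁻¹ • x) := by
      have h1 : ContDiffAt ℝ 1 (fderiv ℝ u) (k⁻¹ • x) :=
        (hcd _ hx').fderiv_right (by norm_num)
      exact h1.differentiableAt (by norm_num)
    rw [Sc2_lap u x hd]
    have h1 := he _ hx'
    have h2 : lap u (k⁻¹ • x) = -(k ^ 2 * u (k⁻¹ • x)) := by linarith
    have h3 : k⁻¹ ^ 2 * k ^ 2 = 1 := by
      rw [← mul_pow, inv_mul_cancel₀ hk.ne', one_pow]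
    rw [h2]
    linear_combination (-u (k⁻¹ • x)) * h3
  · intro x hx
    have hx' : A x ∈ frontier D := by
      rw [← A.preimage_frontier] at hx
      exact hx
    obtain ⟨h1, h2⟩ := hf _ hx'
    constructor
    · exact h1.comp (htd x)
    · have h3 : fderiv ℝ (fun x => u (k⁻¹ • x)) = fun x => k⁻¹ • fderiv ℝ u (A x) := by
        funext y
        exact Sc2_fderiv u k⁻¹ y
      rw [h3]
      have h4 := (h2.comp (htd x)).const_smul k⁻¹
      rw [smul_zero] at h4
      exact h4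
  · have h1 : (volume : Measure E3) (A ⁻¹' D)
        = ENNReal.ofReal |((k⁻¹) ^ Module.finrank ℝ E3)⁻¹| * volume D :=
      Measure.addHaar_preimage_smul volume hk0 D
    have h2 : Module.finrank ℝ E3 = 3 := by simp [E3]
    rw [measureReal_def, h1, h2, ENNReal.toReal_mul, measureReal_def,
      ENNReal.toReal_ofReal (abs_nonneg _), inv_pow, inv_inv, abs_of_pos (pow_pos hk 3)]
  · intro z τ hz
    refine ⟨k⁻¹ • z, τ / k, ?_⟩
    ext x
    have h1 : x ∈ D ↔ k • x ∈ A ⁻¹' D := by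
      show x ∈ D ↔ k⁻¹ • (k • x) ∈ D
      rw [hkx]
    rw [h1, hz, Metric.mem_ball, Metric.mem_ball, lt_div_iff₀ hk]
    have h2 : dist (k • x) z = dist x (k⁻¹ • z) * k := by
      conv_lhs => rw [← hkx' z]
      rw [dist_smul₀, Real.norm_of_nonneg hk.le, mul_comm]
    rw [h2]

end Pool.H56.PO
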