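import Pool.Agent.H56.PG.Se
import Pool.Agent.H56.PG.Cl
import Pool.Agent.H56.PG.Cnt
import Pool.Agent.H56.PG.Sc2
import Pool.Agent.H68.SC.Fin

/-!
# The volume gap: assembly
-/

set_option autoImplicit false

namespace Pool.H56.PO

open MeasureTheory Filter Topology

theorem vol_ball {z : E3} {r : ℝ} (hr : 0 ≤ r) :
    volume.real (Metric.ball z r) = 4 * Real.pi / 3 * r ^ 3 := by
  rw [measureReal_def, EuclideanSpace.volume_ball_fin_three, ENNReal.toReal_mul,
    ENNReal.toReal_pow, ENNReal.toReal_ofReal hr, ENNReal.toReal_ofReal (by positivity)]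
  ring

theorem close_seq {τ : ℝ} {D : ℕ → Set E3} {v : ℕ → E3 → ℝ} (h : Seq τ D v) {δ : ℝ}
    (hδ : 0 < δ) : ∀ᶠ n in atTop, ∃ z : E3, volume.real (D n \ Metric.ball z τ) ≤ δ := by
  have hpi := Real.pi_pos
  have hτ0 : 0 < τ := hpi.trans h.tau.1
  -- the choice of the small radius
  obtain ⟨e, he0, he1, he2⟩ : ∃ e : ℝ, 0 < e ∧ 4 * e < τ ∧
      4 * Real.pi / 3 * τ ^ 3 - 4 * Real.pi / 3 * (τ - 3 * e) ^ 3 < δ / 3 := by
    have hc : Continuous fun e : ℝ =>
        4 * Real.pi / 3 * τ ^ 3 - 4 * Real.pi / 3 * (τ - 3 * e) ^ 3 := by fun_prop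
    have h0 : Tendsto (fun e : ℝ =>
        4 * Real.pi / 3 * τ ^ 3 - 4 * Real.pi / 3 * (τ - 3 * e) ^ 3) (𝓝[>] 0) (𝓝 0) := by
      have := hc.tendsto 0
      simp only [mul_zero, sub_zero, sub_self] at this
      exact this.mono_left nhdsWithin_le_nhds
    have h1 := h0.eventually (gt_mem_nhds (show (0 : ℝ) < δ / 3 by linarith))
    have h2 : ∀ᶠ e : ℝ in 𝓝[>] 0, 4 * e < τ := by
      have : Tendsto (fun e : ℝ => 4 * e) (𝓝[>] 0) (𝓝 (4 * 0)) :=
        ((continuous_const.mul continuous_id).tendsto 0).mono_left nhdsWithin_le_nhds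
      exact this.eventually (gt_mem_nhds (by linarith))
    obtain ⟨e, h3, h4, h5⟩ := (h1.and (h2.and self_mem_nhdsWithin)).exists
    exact ⟨e, h5, h4, h3⟩
  set b : ℝ := τ - e with hb
  have hab : e < b := by linarith
  have hbτ : b < τ := by linarith
  have hR : b - e - e = τ - 3 * e := by rw [hb]; ring
  have hzb : 0 < zc τ b := by
    rw [← zc_tau h.tau]
    exact zc_anti h.tau ⟨by linarith, hbτ.le⟩ ⟨hτ0.le, le_rfl⟩ hbτ
  set A0 : ℝ := 2 * Real.pi / 3 * e ^ 3 with hA0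
  have hA0p : 0 < A0 := by positivity
  set K : ℝ := (b - e) * (4 * Real.pi / 3 * (b - e) ^ 3) with hK
  have hKp : 0 < K := by
    have : 0 < b - e := by linarith
    positivity
  have hη : 0 < δ / 3 * e * A0 / K := by positivity
  obtain ⟨N, ρ, m, hP, hex⟩ := seq_exc h he0 hab hbτ hη
  have hge := seq_ge h he0 (by linarith : e < τ)
  have h1 : ∀ᶠ n in atTop, A0 < volume.real {x | zc τ e ≤ v n x} := by
    refine hge.eventually (lt_mem_nhds ?_)
    rw [hA0]
    have : 0 < Real.pi * e ^ 3 := by positivity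
    nlinarith
  have h2 : ∀ᶠ n in atTop, volume.real (D n) < 4 * Real.pi / 3 * τ ^ 3 + δ / 3 :=
    h.lim.eventually (gt_mem_nhds (by linarith))
  filter_upwards [hex, h1, h2] with n hn1 hn2 hn3
  obtain ⟨z, hz⟩ := close hP (h.sol n).c1 (h.sol n).hcs hzb he0 (by linarith : e < b - e)
    (hA0p.trans hn2)
  refine ⟨z, ?_⟩
  set Bad : Set E3 := {x | x ∈ Metric.ball z (b - e - e) ∧ v n x ≤ zc τ b} with hBad
  have hBle : volume.real Bad ≤ δ / 3 := by
    have h3 : volume.real Bad * e * volume.real {x | zc τ e ≤ v n x} ≤ δ / 3 * e * A0 := by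
      refine hz.trans ?_
      calc K * ∫ x, exc τ N ρ m (v n) x ≤ K * (δ / 3 * e * A0 / K) :=
            mul_le_mul_of_nonneg_left hn1 hKp.le
        _ = δ / 3 * e * A0 := by field_simp
    by_contra hcon
    push Not at hcon
    have h4 : δ / 3 * e * A0 < volume.real Bad * e * volume.real {x | zc τ e ≤ v n x} := by
      have h5 : δ / 3 * e < volume.real Bad * e := mul_lt_mul_of_pos_right hcon he0
      have h6 : 0 < δ / 3 * e := by positivity
      calc δ / 3 * e * A0 < δ / 3 * e * volume.real {x | zc τ e ≤ v n x} :=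
            mul_lt_mul_of_pos_left hn2 h6
        _ ≤ volume.real Bad * e * volume.real {x | zc τ e ≤ v n x} :=
            mul_le_mul_of_nonneg_right h5.le measureReal_nonneg
    linarith
  -- the volume count
  have hDfin : volume (D n) ≠ ⊤ := (h.sol n).bd.measure_lt_top.ne
  have hbfin : volume (Metric.ball z τ) ≠ ⊤ := measure_ball_lt_top.ne
  have hRfin : volume (Metric.ball z (b - e - e)) ≠ ⊤ := measure_ball_lt_top.ne
  have hsub1 : Metric.ball z (b - e - e) \ Bad ⊆ D n ∩ Metric.ball z τ := by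
    rintro x ⟨hx1, hx2⟩
    have hx3 : zc τ b < v n x := by
      by_contra hcon
      exact hx2 ⟨hx1, not_lt.1 hcon⟩
    refine ⟨?_, Metric.ball_subset_ball (by rw [hR]; linarith) hx1⟩
    by_contra hxD
    rw [(h.sol n).zero x hxD] at hx3
    linarith
  have hBadm : MeasurableSet Bad := by
    refine (Metric.isOpen_ball.measurableSet).inter ?_
    exact (isClosed_le (h.sol n).cont continuous_const).measurableSet
  have e1 : volume.real (Metric.ball z (b - e - e)) ≤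
      volume.real (Metric.ball z (b - e - e) \ Bad) + volume.real Bad := by
    have hsubB : Bad ⊆ Metric.ball z (b - e - e) := fun x hx => hx.1
    rw [← measureReal_diff_add_inter (μ := volume) (s := Metric.ball z (b - e - e)) hBadm hRfin]
    have : Metric.ball z (b - e - e) ∩ Bad = Bad := Set.inter_eq_right.2 hsubB
    rw [this]
  have e2 : volume.real (Metric.ball z (b - e - e) \ Bad) ≤
      volume.real (D n ∩ Metric.ball z τ) :=
    measureReal_mono hsub1 (ne_top_of_le_ne_top hDfin (measure_mono Set.inter_subset_left))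
  have e3 : volume.real (D n \ Metric.ball z τ) + volume.real (D n ∩ Metric.ball z τ) =
      volume.real (D n) :=
    measureReal_diff_add_inter Metric.isOpen_ball.measurableSet hDfin
  have e4 : volume.real (Metric.ball z (b - e - e)) =
      4 * Real.pi / 3 * (τ - 3 * e) ^ 3 := by
    rw [hR]
    exact vol_ball (by linarith)
  linarith

/-- the data of the problem for `k = 1` -/
structure Dat (D : Set E3) (φ u : E3 → ℝ) (c : ℝ) : Prop where
  bdd : Bornology.IsBounded D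
  conn : IsConnected D
  smooth : ContDiff ℝ 2 φ
  eqD : D = {x | φ x < 0}
  reg : ∀ x, φ x = 0 → fderiv ℝ φ x ≠ 0
  sph : Nonempty (frontier D ≃ₜ Metric.sphere (0 : E3) 1)
  cne : c ≠ 0
  u2 : ContDiffOn ℝ 2 u D
  helm : ∀ x ∈ D, lap u x + u x = 0
  bd : ∀ x ∈ frontier D, Tendsto u (𝓝[D] x) (𝓝 c) ∧ Tendsto (fderiv ℝ u) (𝓝[D] x) (𝓝 0)

theorem Dat.sol68 {D : Set E3} {φ u : E3 → ℝ} {c : ℝ} (h : Dat D φ u c) :
    Pool.Agent.H68.SC.Sol D φ 1 c u where
  bdd := h.bdd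
  conn := h.conn
  smooth := h.smooth
  eqD := h.eqD
  reg := h.reg
  sph := h.sph
  kpos := one_pos
  cne := h.cne
  u2 := h.u2
  helm := by
    intro x hx
    have := h.helm x hx
    rw [one_pow, one_mul]
    exact this
  bd := h.bd

theorem Dat.seq {D : Set E3} {φ u : E3 → ℝ} {c : ℝ} (h : Dat D φ u c) {τ : ℝ} (hτ : IsTau τ) :
    ∃ v : E3 → ℝ, Sol D v ∧ 0 < ds v 0 ∧ ∫ x, v x ^ 2 = 5 / 2 * volume.real D ∧
      4 * Real.pi / 3 * τ ^ 3 ≤ volume.real D := by
  have hop : IsOpen D := by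
    rw [h.eqD]; exact isOpen_lt h.smooth.continuous continuous_const
  have hs := exists_sol hop h.bdd h.cne h.u2 h.helm h.bd
  obtain ⟨χ, C, hχ⟩ := exists_cut h.bdd (h.smooth.of_le one_le_two) h.eqD h.reg
  have hm := mass hs hχ
  have hp := poh hs hχ
  have hD0 : 0 < volume.real D := by
    rw [measureReal_def]
    exact ENNReal.toReal_pos (hop.measure_pos volume h.conn.nonempty).ne' h.bdd.measure_lt_top.ne
  refine ⟨_, hs, pos_of_int (by rw [hm]; exact hD0) hs.hcs, by rw [hp, hm], ?_⟩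
  exact (main_one hs h.conn.nonempty hχ hτ).1

theorem atmost_ball : Pool.Agent.H68.SC.AtMost (Pool.Agent.H68.SC.Sy 1)
    (Metric.ball (0 : E3) 5.76) 1 4 := by
  classical
  obtain ⟨H⟩ := Pool.Agent.H68.SC.exists_harm
  obtain ⟨L, hL2, hL⟩ := Pool.Agent.H68.SC.exists_L ((1 * 5.76 : ℝ) ^ 2)
  have hu := Pool.Agent.H68.SC.upper H (s := 1) (Or.inl rfl) (k := 1) (R := 5.76) one_pos
    (by norm_num) hL
  rw [one_pow] at hu
  refine hu.le ?_
  have h3 := Pool.Agent.H68.SC.count_le H.d (fun l => (1 : ℝ) ^ l = 1) (k := 1) (r := 0)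
    (R := 5.76) L (fun l => if l < 2 then 1 else 0) (fun l _ => ?_)
  · refine h3.trans ?_
    have h4 : (∑ l ∈ Finset.range L, if (1 : ℝ) ^ l = 1 then H.d l * (if l < 2 then 1 else 0)
        else 0) ≤ 4 := by
      obtain ⟨n, rfl⟩ : ∃ n, L = n + 2 := ⟨L - 2, by omega⟩
      rw [Finset.sum_range_succ', Finset.sum_range_succ']
      simp [H.d0, H.d1]
    have h5 : (∑ l ∈ Finset.range L, if (1 : ℝ) ^ l = 1 then
        H.d l * (Pool.Agent.H68.SC.Zo l ((1 : ℝ) * 0)).ncard else 0) = 0 := by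
      refine Finset.sum_eq_zero fun l _ => ?_
      have h6 : Pool.Agent.H68.SC.Zo l ((1 : ℝ) * 0) = ∅ := by
        ext t
        simp only [Pool.Agent.H68.SC.Zo, Set.mem_setOf_eq, Set.mem_empty_iff_false, iff_false]
        rintro ⟨h7, h8, -⟩
        linarith
      rw [h6, Set.ncard_empty, mul_zero, ite_self]
    rw [h5, zero_add]
    exact h4
  · by_cases hl : l < 2
    · simp only [if_pos hl]
      refine Pool.Agent.H68.SC.ncard_one ?_
      intro t t' h0 _ h1 h0' _ h1' h4 h5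
      rw [one_mul] at h1 h1'
      interval_cases l
      · exact Pool.Agent.H68.SC.j0_one h0 h1 h0' h1' h4 h5
      · exact Pool.Agent.H68.SC.j1_one h0 h1 h0' h1' h4 h5
    · simp only [if_neg hl]
      refine Pool.Agent.H68.SC.ncard_no ?_
      intro t h0 _ h1
      rw [one_mul] at h1
      exact (Pool.Agent.H68.SC.jl_pos_576 (by omega) h0 h1).ne'

theorem ball_of_atmost {D : Set E3} {φ u : E3 → ℝ} {c : ℝ} (h : Dat D φ u c)
    (hA : Pool.Agent.H68.SC.AtMost (Pool.Agent.H68.SC.Sy 1) D 1 4) :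
    ∃ (z : E3) (r : ℝ), D = Metric.ball z r := by
  refine Pool.Agent.H68.SC.mainA h.sol68 (Ω₁ := D) (Ω₂ := D) subset_rfl subset_rfl (m := 0) ?_ ?_
  · refine ⟨⊥, bot_le, inferInstance, Nat.zero_le _, ?_⟩
    intro f hf h0
    exact absurd ((Submodule.mem_bot ℝ).1 hf) h0
  · rw [one_pow]
    exact hA.le (by norm_num)

/-- **The volume gap** for `k = 1`. -/
theorem gap_one {τ : ℝ} (hτ : IsTau τ) : ∃ ε : ℝ, 0 < ε ∧ ∀ (D : Set E3) (φ u : E3 → ℝ) (c : ℝ),
    Dat D φ u c → volume.real D ≤ (1 + ε) * (4 * Real.pi / 3 * τ ^ 3) →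
    ∃ (z : E3) (r : ℝ), D = Metric.ball z r := by
  by_contra hcon
  push Not at hcon
  have hpi := Real.pi_pos
  have hτ0 : 0 < τ := hpi.trans hτ.1
  have hτ576 : τ < 5.76 := by
    have := hτ.2.1
    have := Real.pi_lt_d2
    linarith
  have h1 : ∀ n : ℕ, ∃ (D : Set E3) (φ u : E3 → ℝ) (c : ℝ), Dat D φ u c ∧
      volume.real D ≤ (1 + 1 / ((n : ℝ) + 1)) * (4 * Real.pi / 3 * τ ^ 3) ∧
      ∀ (z : E3) (r : ℝ), D ≠ Metric.ball z r := by
    intro n
    exact hcon (1 / ((n : ℝ) + 1)) (by positivity)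
  choose D φ u c hDat hvol hne using h1
  choose v hv1 hv2 hv3 hv4 using fun n => (hDat n).seq hτ
  have hS : Seq τ D v := by
    refine ⟨hτ, hv1, hv2, hv3, ?_⟩
    have h2 : Tendsto (fun n : ℕ => (1 + 1 / ((n : ℝ) + 1)) * (4 * Real.pi / 3 * τ ^ 3)) atTop
        (𝓝 ((1 + 0) * (4 * Real.pi / 3 * τ ^ 3))) :=
      (tendsto_const_nhds.add tendsto_one_div_add_atTop_nhds_zero_nat).mul_const _
    rw [add_zero, one_mul] at h2
    exact tendsto_of_tendsto_of_tendsto_of_le_of_le tendsto_const_nhds h2 hv4 hvol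
  obtain ⟨δ, hδ, hc⟩ := cnt hτ0 hτ576 atmost_ball
  obtain ⟨n, z, hz⟩ := (close_seq hS hδ).exists
  obtain ⟨z', r', hD⟩ := ball_of_atmost (hDat n) (hc (D n) z (hv1 n).op (hv1 n).bd hz)
  exact hne n z' r' hD

/-- **The volume gap.** -/
theorem gap {τ : ℝ} (hτ : IsTau τ) : ∃ ε : ℝ, 0 < ε ∧ ∀ (D : Set E3) (φ : E3 → ℝ),
    Bornology.IsBounded D → IsConnected D → ContDiff ℝ 2 φ → D = {x | φ x < 0} →
    (∀ x, φ x = 0 → fderiv ℝ φ x ≠ 0) →
    Nonempty (frontier D ≃ₜ Metric.sphere (0 : E3) 1) → ∀ (k c : ℝ) (u : E3 → ℝ),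
    0 < k → c ≠ 0 → ContDiffOn ℝ 2 u D → (∀ x ∈ D, lap u x + k ^ 2 * u x = 0) →
    (∀ x ∈ frontier D, Tendsto u (𝓝[D] x) (𝓝 c) ∧ Tendsto (fderiv ℝ u) (𝓝[D] x) (𝓝 0)) →
    volume.real D ≤ (1 + ε) * (4 * Real.pi / 3 * (τ / k) ^ 3) →
    ∃ (z : E3) (r : ℝ), D = Metric.ball z r := by
  obtain ⟨ε, hε, hg⟩ := gap_one hτ
  refine ⟨ε, hε, ?_⟩
  intro D φ hb hn hφ hD hr hs k c u hk hc hu he hf hvol
  obtain ⟨D', φ', u', a1, a2, a3, a4, a5, a6, a7, a8, a9, a10, a11⟩ :=
    scale2 hb hn hφ hD hr hs hk hu he hf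
  have hk3 : 0 < k ^ 3 := by positivity
  obtain ⟨z, r, h1⟩ := hg D' φ' u' c ⟨a1, a2, a3, a4, a5, a6, hc, a7, a8, a9⟩ (by
    rw [a10]
    calc k ^ 3 * volume.real D ≤ k ^ 3 * ((1 + ε) * (4 * Real.pi / 3 * (τ / k) ^ 3)) :=
          mul_le_mul_of_nonneg_left hvol hk3.le
      _ = (1 + ε) * (4 * Real.pi / 3 * τ ^ 3) := by
          rw [div_pow]; field_simp)
  exact a11 z r h1

end Pool.H56.PO
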