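import Pool.Agent.H56.PO.Core

/-!
# Module Pa (about 150 lines): bounds for profiles

`Prof g w` is defined in `PO/Defs.lean`. On `(0, g)` the function `w` is antitone, so it is interval integrable
(see the proved lemma `Prof.int` in `PO/Core.lean` and the private lemmas of `PO/Wt.lean`).
PROOFS. `prof_fl`: `-1 ≤ w - 1 ≤ B - 1`, so `|w - 1| ≤ B` and `|fl w x| ≤ ∫_0^x B y² dy`.
`prof_le`: let `M` be the supremum of `w` on `(0, 1)` (finite). `fl w x ≤ (M - 1) x³ / 3` for `0 ≤ x ≤ 1`, so `key` with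
`r' = r`, `r = 1` gives `w r - w 1 ≤ ∫_r^1 (M - 1) x / 3 dx ≤ M / 6` for `r ∈ (0, 1)`; take the supremum:
`M ≤ w 1 + M / 6`. For `r ≥ 1`: `w r ≤ w 1 ≤ 6/5 w 1`.
`prof_one`: `w ≥ w 1 ≥ 0` on `(0, 1)`, so `w 1 ^ 2 / 3 ≤ ∫_0^1 w² r² ≤ ∫_0^g w² r² ≤ c`.
`prof_end`: `key` from `r` to `r''`, `|fl w x / x²| ≤ B x / 3 ≤ B g / 3`, and `r'' → g` with `lim`.
-/

set_option autoImplicit false

namespace Pool.H56.PO

open MeasureTheory Filter Topology

private lemma pa_int {g : ℝ} {w : ℝ → ℝ} (h : Prof g w) :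
    IntervalIntegrable (fun r => (w r - 1) * r ^ 2) volume 0 g :=
  h.int (F := fun a r => (a - 1) * r ^ 2) (by fun_prop)

private lemma pa_cont {g : ℝ} {w : ℝ → ℝ} (h : Prof g w) : ContinuousOn (fl w) (Set.Icc 0 g) := by
  have h1 := intervalIntegral.continuousOn_primitive_interval' (pa_int h)
    (a := 0) Set.left_mem_uIcc
  rw [Set.uIcc_of_le h.pos.le] at h1
  exact h1

private lemma pa_div {g : ℝ} {w : ℝ → ℝ} (h : Prof g w) {a b : ℝ} (ha : 0 < a) (hab : a ≤ b)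
    (hb : b ≤ g) : IntervalIntegrable (fun x => fl w x / x ^ 2) volume a b := by
  refine ContinuousOn.intervalIntegrable ?_
  rw [Set.uIcc_of_le hab]
  refine ContinuousOn.div ((pa_cont h).mono fun x hx => ⟨ha.le.trans hx.1, hx.2.trans hb⟩)
    (by fun_prop) fun x hx => ?_
  have : 0 < x := ha.trans_le hx.1
  positivity

private lemma pa_ae {g : ℝ} {x : ℝ} (hx : x ≤ g) {P : ℝ → Prop} (hP : ∀ y ∈ Set.Ioo 0 g, P y) :
    ∀ᵐ y ∂volume, y ∈ Set.Ioc 0 x → P y := by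
  have h1 : ∀ᵐ y ∂(volume : Measure ℝ), y ≠ g := compl_mem_ae_iff.2 (measure_singleton g)
  filter_upwards [h1] with y hy hyx
  exact hP y ⟨hyx.1, lt_of_le_of_ne (hyx.2.trans hx) hy⟩

private lemma pa_cube (B x : ℝ) : ∫ y in (0 : ℝ)..x, B * y ^ 2 = B * x ^ 3 / 3 := by
  rw [intervalIntegral.integral_const_mul, integral_pow]
  norm_num; ring

theorem prof_fl {g : ℝ} {w : ℝ → ℝ} (h : Prof g w) {B : ℝ} (hB : ∀ r ∈ Set.Ioo 0 g, w r ≤ B)
    (hB1 : 1 ≤ B) {x : ℝ} (h0 : 0 ≤ x) (hx : x ≤ g) : |fl w x| ≤ B * x ^ 3 / 3 := by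
  rw [← pa_cube, ← Real.norm_eq_abs]
  unfold fl
  refine intervalIntegral.norm_integral_le_of_norm_le h0 ?_
    ((by fun_prop : Continuous fun y : ℝ => B * y ^ 2).intervalIntegrable _ _)
  refine pa_ae hx fun y hy => ?_
  rw [Real.norm_eq_abs, abs_mul, abs_of_nonneg (sq_nonneg y)]
  refine mul_le_mul_of_nonneg_right ?_ (sq_nonneg y)
  have h1 := h.nonneg y hy
  have h2 := hB y hy
  rw [abs_le]
  constructor <;> linarith

theorem prof_le {g : ℝ} {w : ℝ → ℝ} (h : Prof g w) (hg : 1 < g) :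
    ∀ r ∈ Set.Ioo 0 g, w r ≤ 6 / 5 * w 1 := by
  have hw1 : 0 ≤ w 1 := h.nonneg 1 ⟨one_pos, hg⟩
  have hbd : BddAbove (w '' Set.Ioo 0 1) := by
    obtain ⟨B, hB⟩ := h.bdd
    refine ⟨B, ?_⟩
    rintro _ ⟨r, hr, rfl⟩
    exact hB r ⟨hr.1, hr.2.trans hg⟩
  set M := sSup (w '' Set.Ioo 0 1) with hM
  have hne : (w '' Set.Ioo (0 : ℝ) 1).Nonempty := ⟨w (1 / 2), 1 / 2, by norm_num, rfl⟩
  have hMr : ∀ r ∈ Set.Ioo (0 : ℝ) 1, w r ≤ M := fun r hr => le_csSup hbd ⟨r, hr, rfl⟩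
  have hM0 : 0 ≤ M := (h.nonneg (1 / 2) ⟨by norm_num, by linarith⟩).trans
    (hMr (1 / 2) (by norm_num))
  have hfl : ∀ x, 0 ≤ x → x ≤ 1 → fl w x ≤ (M - 1) * x ^ 3 / 3 := by
    intro x h0 hx
    rw [← pa_cube]
    unfold fl
    refine intervalIntegral.integral_mono_ae_restrict h0
      ((pa_int h).mono_set ?_)
      ((by fun_prop : Continuous fun y : ℝ => (M - 1) * y ^ 2).intervalIntegrable _ _) ?_
    · rw [Set.uIcc_of_le h0, Set.uIcc_of_le h.pos.le]
      exact Set.Icc_subset_Icc_right (hx.trans hg.le)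
    · rw [Filter.EventuallyLE, ae_restrict_iff' measurableSet_Icc]
      have h1 : ∀ᵐ y ∂(volume : Measure ℝ), y ≠ 1 := compl_mem_ae_iff.2 (measure_singleton 1)
      filter_upwards [h1] with y hy hyx
      rcases eq_or_lt_of_le hyx.1 with h2 | h2
      · rw [← h2]; simp
      · refine mul_le_mul_of_nonneg_right ?_ (sq_nonneg y)
        have := hMr y ⟨h2, lt_of_le_of_ne (hyx.2.trans hx) hy⟩
        linarith
  have hstep : ∀ r ∈ Set.Ioo (0 : ℝ) 1, w r ≤ w 1 + M / 6 := by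
    intro r hr
    have hk := h.key r 1 hr.1 hr.2.le hg
    have hle : ∫ x in r..1, fl w x / x ^ 2 ≤ ∫ x in r..1, (M - 1) / 3 * x := by
      refine intervalIntegral.integral_mono_on hr.2.le (pa_div h hr.1 hr.2.le hg.le)
        ((by fun_prop : Continuous fun x : ℝ => (M - 1) / 3 * x).intervalIntegrable _ _) ?_
      intro x hx
      have hx0 : 0 < x := hr.1.trans_le hx.1
      rw [div_le_iff₀ (by positivity)]
      refine (hfl x hx0.le hx.2).trans (le_of_eq ?_)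
      ring
    have hval : ∫ x in r..1, (M - 1) / 3 * x = (M - 1) / 3 * ((1 - r ^ 2) / 2) := by
      rw [intervalIntegral.integral_const_mul, integral_id]; norm_num
    rw [hval] at hle
    have h3 : (M - 1) / 3 * ((1 - r ^ 2) / 2) ≤ M / 6 := by
      have hr2 : 0 ≤ r ^ 2 := sq_nonneg r
      have hr3 : r ^ 2 ≤ 1 := by nlinarith [hr.1, hr.2]
      nlinarith [mul_nonneg hM0 hr2]
    linarith
  have hM1 : M ≤ w 1 + M / 6 := by
    refine csSup_le hne ?_
    rintro _ ⟨r, hr, rfl⟩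
    exact hstep r hr
  intro r hr
  rcases lt_or_ge r 1 with h1 | h1
  · have := hMr r ⟨hr.1, h1⟩
    linarith
  · have := h.anti ⟨one_pos, hg⟩ hr h1
    linarith

theorem prof_one {g : ℝ} {w : ℝ → ℝ} (h : Prof g w) (hg : 1 < g) {c : ℝ}
    (hc : ∫ r in (0 : ℝ)..g, w r ^ 2 * r ^ 2 ≤ c) : w 1 ^ 2 ≤ 3 * c := by
  have hw1 : 0 ≤ w 1 := h.nonneg 1 ⟨one_pos, hg⟩
  have i1 : IntervalIntegrable (fun r => w r ^ 2 * r ^ 2) volume 0 g :=
    h.int (F := fun a r => a ^ 2 * r ^ 2) (by fun_prop)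
  have i2 : IntervalIntegrable (fun r => w r ^ 2 * r ^ 2) volume 0 1 := by
    refine i1.mono_set ?_
    rw [Set.uIcc_of_le zero_le_one, Set.uIcc_of_le h.pos.le]
    exact Set.Icc_subset_Icc_right hg.le
  have i3 : IntervalIntegrable (fun r => w r ^ 2 * r ^ 2) volume 1 g := by
    refine i1.mono_set ?_
    rw [Set.uIcc_of_le hg.le, Set.uIcc_of_le h.pos.le]
    exact Set.Icc_subset_Icc_left zero_le_one
  have h1 : ∫ r in (0 : ℝ)..1, w 1 ^ 2 * r ^ 2 ≤ ∫ r in (0 : ℝ)..1, w r ^ 2 * r ^ 2 := by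
    refine intervalIntegral.integral_mono_on zero_le_one
      ((by fun_prop : Continuous fun r : ℝ => w 1 ^ 2 * r ^ 2).intervalIntegrable _ _) i2 ?_
    intro r hr
    rcases eq_or_lt_of_le hr.1 with h2 | h2
    · rw [← h2]; simp
    · refine mul_le_mul_of_nonneg_right ?_ (sq_nonneg r)
      exact pow_le_pow_left₀ hw1 (h.anti ⟨h2, hr.2.trans_lt hg⟩ ⟨one_pos, hg⟩ hr.2) 2
  have h2 : 0 ≤ ∫ r in (1 : ℝ)..g, w r ^ 2 * r ^ 2 :=
    intervalIntegral.integral_nonneg hg.le fun r _ => by positivity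
  have h3 := intervalIntegral.integral_add_adjacent_intervals i2 i3
  rw [pa_cube] at h1
  linarith

theorem prof_end {g : ℝ} {w : ℝ → ℝ} (h : Prof g w) {B : ℝ} (hB : ∀ r ∈ Set.Ioo 0 g, w r ≤ B)
    (hB1 : 1 ≤ B) : ∀ r ∈ Set.Ioo 0 g, w r ≤ B * g * (g - r) := by
  intro r hr
  have hg := h.pos
  have hev : ∀ᶠ s in 𝓝[<] g, w r ≤ w s + B * g / 3 * (s - r) := by
    have h1 : Set.Ioo r g ∈ 𝓝[<] g := Ioo_mem_nhdsLT hr.2
    filter_upwards [h1] with s hs
    have hk := h.key r s hr.1 hs.1.le hs.2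
    have hle : ∫ x in r..s, fl w x / x ^ 2 ≤ ∫ x in r..s, B * g / 3 := by
      refine intervalIntegral.integral_mono_on hs.1.le (pa_div h hr.1 hs.1.le hs.2.le)
        (continuous_const.intervalIntegrable _ _) ?_
      intro x hx
      have hx0 : 0 < x := hr.1.trans_le hx.1
      have hxg : x ≤ g := hx.2.trans hs.2.le
      have h2 := (le_abs_self _).trans (prof_fl h hB hB1 hx0.le hxg)
      rw [div_le_iff₀ (by positivity)]
      refine h2.trans ?_
      have : B * g / 3 * x ^ 2 - B * x ^ 3 / 3 = B * x ^ 2 / 3 * (g - x) := by ring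
      have h3 : 0 ≤ B * x ^ 2 / 3 * (g - x) :=
        mul_nonneg (by positivity) (by linarith)
      linarith
    rw [intervalIntegral.integral_const, smul_eq_mul] at hle
    linarith
  have hlim : Tendsto (fun s => w s + B * g / 3 * (s - r)) (𝓝[<] g)
      (𝓝 (0 + B * g / 3 * (g - r))) := by
    refine h.lim.add (Tendsto.const_mul _ ?_)
    exact (tendsto_id.mono_left nhdsWithin_le_nhds).sub_const r
  have h4 := ge_of_tendsto hlim hev
  have h5 : 0 ≤ B * g * (g - r) :=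
    mul_nonneg (mul_nonneg (by linarith) hg.le) (by linarith [hr.2])
  have h6 : B * g / 3 * (g - r) = B * g * (g - r) / 3 := by ring
  linarith

end Pool.H56.PO
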