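import Pool.Agent.H56.PG.Pa

/-!
# Module Pb (about 100 lines): a profile on a shorter interval

PROOF. `s = sInf (w '' (0, t))` (bounded below by `0`, nonempty). `s ≤ w r ≤ B g (g - r)` for `r < t` (`prof_end`); `r → t`
gives the bound for `s`; so `s < 1`. `W r = (w r - s) / (1 - s)` is antitone, nonnegative and bounded on `(0, t)`; it
tends to `0` at `t` from the left because `w` is antitone and `s` is the infimum. `fl W x = fl w x / (1 - s)` for
`0 ≤ x ≤ t` (`(W y - 1) y² = (w y - 1) y² / (1 - s)`), so `key` for `w`, divided by `1 - s`, is `key` for `W`.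
-/

set_option autoImplicit false

namespace Pool.H56.PO

open MeasureTheory Filter Topology

private theorem fl_cut (w : ℝ → ℝ) {s : ℝ} (hs : s < 1) (x : ℝ) :
    fl (fun r => (w r - s) / (1 - s)) x = fl w x / (1 - s) := by
  unfold fl
  rw [← intervalIntegral.integral_div]
  refine intervalIntegral.integral_congr fun y _ => ?_
  have h1 : (1 : ℝ) - s ≠ 0 := by linarith
  show ((w y - s) / (1 - s) - 1) * y ^ 2 = (w y - 1) * y ^ 2 / (1 - s)
  field_simp
  ring

theorem prof_cut {g : ℝ} {w : ℝ → ℝ} (h : Prof g w) {B : ℝ} (hB : ∀ r ∈ Set.Ioo 0 g, w r ≤ B)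
    (hB1 : 1 ≤ B) {t : ℝ} (h0 : 0 < t) (ht : t < g) (hs : B * g * (g - t) < 1) :
    ∃ s : ℝ, 0 ≤ s ∧ s ≤ B * g * (g - t) ∧ (∀ r ∈ Set.Ioo 0 t, s ≤ w r) ∧
      Prof t (fun r => (w r - s) / (1 - s)) := by
  have hsub : ∀ r ∈ Set.Ioo 0 t, r ∈ Set.Ioo 0 g := fun r hr => ⟨hr.1, hr.2.trans ht⟩
  have hne : (w '' Set.Ioo 0 t).Nonempty := (Set.nonempty_Ioo.2 h0).image w
  have hbdd : BddBelow (w '' Set.Ioo 0 t) := by
    refine ⟨0, ?_⟩
    rintro _ ⟨r, hr, rfl⟩
    exact h.nonneg r (hsub r hr)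
  set s := sInf (w '' Set.Ioo 0 t) with hsdef
  have hs0 : 0 ≤ s := by
    apply le_csInf hne
    rintro _ ⟨r, hr, rfl⟩
    exact h.nonneg r (hsub r hr)
  have hsle : ∀ r ∈ Set.Ioo 0 t, s ≤ w r := fun r hr => csInf_le hbdd ⟨r, hr, rfl⟩
  have hsB : s ≤ B * g * (g - t) := by
    have hlim : Tendsto (fun r => B * g * (g - r)) (𝓝[<] t) (𝓝 (B * g * (g - t))) := by
      have : Continuous fun r : ℝ => B * g * (g - r) := by fun_prop
      exact (this.tendsto t).mono_left nhdsWithin_le_nhds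
    refine ge_of_tendsto hlim ?_
    filter_upwards [Ioo_mem_nhdsLT h0] with r hr
    exact (hsle r hr).trans (prof_end h hB hB1 r (hsub r hr))
  have hs1 : s < 1 := hsB.trans_lt hs
  have hs1' : 0 < 1 - s := by linarith
  refine ⟨s, hs0, hsB, hsle, ?_⟩
  refine ⟨h0, ?_, ?_, ?_, ?_, ?_⟩
  · intro x hx y hy hxy
    have := h.anti (hsub x hx) (hsub y hy) hxy
    show (w y - s) / (1 - s) ≤ (w x - s) / (1 - s)
    exact div_le_div_of_nonneg_right (by linarith) hs1'.le
  · intro r hr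
    exact div_nonneg (by linarith [hsle r hr]) hs1'.le
  · refine ⟨(B - s) / (1 - s), fun r hr => ?_⟩
    exact div_le_div_of_nonneg_right (by linarith [hB r (hsub r hr)]) hs1'.le
  · rw [Metric.tendsto_nhds]
    intro ε hε
    obtain ⟨_, ⟨r0, hr0, rfl⟩, hlt⟩ := exists_lt_of_csInf_lt hne
      (show sInf (w '' Set.Ioo 0 t) < s + ε * (1 - s) by
        rw [← hsdef]; linarith [mul_pos hε hs1'])
    filter_upwards [Ioo_mem_nhdsLT hr0.2] with r hr
    have hr' : r ∈ Set.Ioo 0 t := ⟨hr0.1.trans hr.1, hr.2⟩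
    have h1 := hsle r hr'
    have h2 := h.anti (hsub r0 hr0) (hsub r hr') hr.1.le
    rw [Real.dist_eq, sub_zero, abs_of_nonneg (div_nonneg (by linarith) hs1'.le),
      div_lt_iff₀ hs1']
    linarith
  · intro r' r hr' hrr hr
    have h1 := h.key r' r hr' hrr (hr.trans ht)
    have h2 : ∫ x in r'..r, fl (fun r => (w r - s) / (1 - s)) x / x ^ 2 =
        (∫ x in r'..r, fl w x / x ^ 2) / (1 - s) := by
      rw [← intervalIntegral.integral_div]
      refine intervalIntegral.integral_congr fun x _ => ?_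
      show fl (fun r => (w r - s) / (1 - s)) x / x ^ 2 = fl w x / x ^ 2 / (1 - s)
      rw [fl_cut w hs1 x, div_right_comm]
    rw [h2, le_div_iff₀ hs1']
    have h3 : ((w r' - s) / (1 - s) - (w r - s) / (1 - s)) * (1 - s) = w r' - w r := by
      have : (1 : ℝ) - s ≠ 0 := hs1'.ne'
      field_simp
      ring
    show ((w r' - s) / (1 - s) - (w r - s) / (1 - s)) * (1 - s) ≤ _
    rw [h3]
    exact h1

end Pool.H56.PO
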