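import Pool.Agent.H56.PO.Core
import Pool.Agent.H56.PO.Zf

/-!
# Module Pc (about 120 lines): the radii converge

PROOF of `int_zz_unif`. Let `x = g cos g / sin g ≥ 1` (`cot_ge`) and `G g = g³ + 3 g (x - 1)`. By `int_zz`
`∫_0^g z² r² = 5/6 g³ + g (x - 1) (2 + x / 2) ≥ 5/6 G g`. On `(π, τ]` the function `G` has the derivative `-3 (x - 1)² ≤ 0`
(`1 / sin² = 1 + cot²`), and `G τ = τ³` (`x = 1` at `τ`). `G` is strictly antitone (`x > 1` for `g < τ`: `sin g > g cos g` there,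
because `sin r - r cos r` decreases strictly on `[π, τ]`), so `G g ≥ G (τ - δ) > G τ = τ³` for `π < g ≤ τ - δ`.
PROOF of `lim_g`. Upper bound: `g n ^ 3 ≤ 6/5 c n → τ³`. Lower bound: let `δ > 0` be small with `π < τ - δ`; if `g n ≤ τ - δ` for
infinitely many `n`, then with `pi_lt` and `second` (from `PO/Core.lean`) `5/6 τ³ + η ≤ ∫ z² r² ≤ ∫ w² r² ≤ c n`,
a contradiction to `c n → 5/6 τ³`.
-/

set_option autoImplicit false

namespace Pool.H56.PO

open MeasureTheory Filter Topology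

private theorem pc_s_deriv (r : ℝ) :
    HasDerivAt (fun r : ℝ => Real.sin r - r * Real.cos r) (r * Real.sin r) r := by
  have h := (Real.hasDerivAt_sin r).sub ((hasDerivAt_id r).mul (Real.hasDerivAt_cos r))
  refine h.congr_deriv ?_
  simp only [id]
  ring

private theorem pc_s_anti {τ : ℝ} (hτ : IsTau τ) :
    StrictAntiOn (fun r : ℝ => Real.sin r - r * Real.cos r) (Set.Icc Real.pi τ) := by
  refine strictAntiOn_of_deriv_neg (convex_Icc _ _)
    (fun r _ => (pc_s_deriv r).continuousAt.continuousWithinAt) fun r hr => ?_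
  rw [interior_Icc] at hr
  rw [(pc_s_deriv r).deriv]
  exact mul_neg_of_pos_of_neg (by linarith [hr.1, Real.pi_pos]) (sin_neg' hτ hr.1 hr.2.le)

private theorem pc_strict {τ : ℝ} (hτ : IsTau τ) {g : ℝ} (h0 : Real.pi < g) (h1 : g < τ) :
    1 < g * Real.cos g / Real.sin g := by
  have hs := sin_neg' hτ h0 h1.le
  have h := pc_s_anti hτ (a := g) (b := τ) ⟨h0.le, h1.le⟩ ⟨hτ.1.le, le_rfl⟩ h1
  simp only at h
  have h2 := hτ.2.2
  rw [lt_div_iff_of_neg hs]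
  linarith

private theorem pc_G_deriv {g : ℝ} (hs : Real.sin g ≠ 0) :
    HasDerivAt (fun g : ℝ => g ^ 3 + 3 * (g ^ 2 * (Real.cos g / Real.sin g) - g))
      (-3 * (g * Real.cos g / Real.sin g - 1) ^ 2) g := by
  have h := (hasDerivAt_pow 3 g).add ((((hasDerivAt_pow 2 g).mul
    ((Real.hasDerivAt_cos g).div (Real.hasDerivAt_sin g) hs)).sub (hasDerivAt_id g)).const_mul 3)
  refine h.congr_deriv ?_
  simp only [Nat.cast_ofNat, Nat.add_one_sub_one, pow_one, Pi.div_apply]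
  field_simp
  ring_nf

private theorem pc_G_anti {τ : ℝ} (hτ : IsTau τ) :
    StrictAntiOn (fun g : ℝ => g ^ 3 + 3 * (g ^ 2 * (Real.cos g / Real.sin g) - g))
      (Set.Ioc Real.pi τ) := by
  have hs : ∀ r ∈ Set.Ioc Real.pi τ, Real.sin r ≠ 0 := fun r hr => (sin_neg' hτ hr.1 hr.2).ne
  refine strictAntiOn_of_deriv_neg (convex_Ioc _ _)
    (fun r hr => (pc_G_deriv (hs r hr)).continuousAt.continuousWithinAt) fun r hr => ?_
  rw [interior_Ioc] at hr
  rw [(pc_G_deriv (hs r ⟨hr.1, hr.2.le⟩)).deriv]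
  have h1 := pc_strict hτ hr.1 hr.2
  have h2 : 0 < (r * Real.cos r / Real.sin r - 1) ^ 2 := by
    have : 0 < r * Real.cos r / Real.sin r - 1 := by linarith
    positivity
  linarith

theorem int_zz_unif {τ : ℝ} (hτ : IsTau τ) {δ : ℝ} (hδ : 0 < δ) (hδ' : Real.pi < τ - δ) :
    ∃ η : ℝ, 0 < η ∧ ∀ g : ℝ, Real.pi < g → g ≤ τ - δ →
      5 / 6 * τ ^ 3 + η ≤ ∫ r in (0 : ℝ)..g, zz g r ^ 2 * r ^ 2 := by
  set G : ℝ → ℝ := fun g => g ^ 3 + 3 * (g ^ 2 * (Real.cos g / Real.sin g) - g) with hG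
  have hsτ : Real.sin τ ≠ 0 := (sin_neg' hτ hτ.1 le_rfl).ne
  have hGτ : G τ = τ ^ 3 := by
    have hc : τ ^ 2 * (Real.cos τ / Real.sin τ) = τ := by
      rw [mul_div_assoc', div_eq_iff hsτ, hτ.2.2]
      ring
    rw [hG]
    simp only
    rw [hc]
    ring
  have h1 : G τ < G (τ - δ) :=
    pc_G_anti hτ (a := τ - δ) (b := τ) ⟨hδ', by linarith⟩ ⟨hτ.1, le_rfl⟩ (by linarith)
  refine ⟨5 / 6 * (G (τ - δ) - τ ^ 3), by linarith, fun g h0 hg => ?_⟩
  have hgτ : g ≤ τ := by linarith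
  have h2 : G (τ - δ) ≤ G g :=
    (pc_G_anti hτ).antitoneOn (a := g) (b := τ - δ) ⟨h0, hgτ⟩ ⟨hδ', by linarith⟩ hg
  rw [int_zz hτ h0 hgτ]
  have hg0 : 0 < g := lt_trans Real.pi_pos h0
  have h3 : G g = g ^ 3 + 3 * g * (g * Real.cos g / Real.sin g - 1) := by
    rw [hG]
    simp only
    ring
  set x : ℝ := g * Real.cos g / Real.sin g with hx
  have h4 : g * (x - 1) * (2 + x / 2) = 5 / 2 * g * (x - 1) + g * (x - 1) ^ 2 / 2 := by ring
  have h5 : 0 ≤ g * (x - 1) ^ 2 / 2 := by positivity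
  rw [h4]
  linarith

theorem lim_g {τ : ℝ} (hτ : IsTau τ) {g : ℕ → ℝ} {w : ℕ → ℝ → ℝ} (h : ∀ n, Prof (g n) (w n))
    {c : ℕ → ℝ} (hc : Tendsto c atTop (𝓝 (5 / 6 * τ ^ 3)))
    (h2 : ∀ n, ∫ r in (0 : ℝ)..g n, w n r ^ 2 * r ^ 2 ≤ c n) (h3 : ∀ n, 5 / 6 * g n ^ 3 ≤ c n) :
    Tendsto g atTop (𝓝 τ) := by
  have hτ0 : 0 < τ := lt_trans Real.pi_pos hτ.1
  refine tendsto_order.2 ⟨fun a ha => ?_, fun b hb => ?_⟩
  · set δ : ℝ := min (τ - a) ((τ - Real.pi) / 2) with hδ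
    have hπ := hτ.1
    have hδ0 : 0 < δ := lt_min (by linarith) (by linarith)
    have hδ1 : δ ≤ τ - a := min_le_left _ _
    have hδ2 : δ ≤ (τ - Real.pi) / 2 := min_le_right _ _
    obtain ⟨η, hη, hu⟩ := int_zz_unif hτ hδ0 (by linarith)
    filter_upwards [hc.eventually (gt_mem_nhds (show 5 / 6 * τ ^ 3 < 5 / 6 * τ ^ 3 + η by linarith))]
      with n hn
    by_contra hna
    push Not at hna
    have hle : g n ≤ τ - δ := by linarith
    have h5 := hu (g n) (pi_lt (h n)) hle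
    have h6 := second hτ (h n) (by linarith)
    have h7 := h2 n
    linarith
  · have hb0 : 0 < b := hτ0.trans hb
    have h4 : 5 / 6 * τ ^ 3 < 5 / 6 * b ^ 3 := by
      have := pow_lt_pow_left₀ hb hτ0.le (by norm_num : (3 : ℕ) ≠ 0)
      linarith
    filter_upwards [hc.eventually (gt_mem_nhds h4)] with n hn
    have h5 := h3 n
    have h6 : g n ^ 3 < b ^ 3 := by linarith
    exact lt_of_pow_lt_pow_left₀ 3 hb0.le h6

end Pool.H56.PO
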