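import Mathlib

/-!
# Module Pm (about 120 lines, Mathlib only): convergence of antitone functions

PROOF. Let `r ∈ (0, τ)`, `ε > 0`. Upper bound: suppose `f n r > Z r + 3 ε` for infinitely many `n`. Choose `0 < a < r` with
`|Z x - Z r| ≤ ε` on `[a, r]`. For large `n`: `r < t n` and `|z n x - Z x| ≤ ε / 2` on `[a, r]` (`hz`). For `x ∈ [a, r]`:
`f n x ≥ f n r > Z r + 3 ε ≥ Z x + 2 ε ≥ z n x + ε`, so `∫_0^(t n) (f n - z n)² x² ≥ ∫_a^r ε² x² ≥ ε² a² (r - a)`,
a contradiction to `hL`. Lower bound: in the same way with an interval `[r, b]`, `r < b < τ` (`b < t n` for large `n`).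
-/

set_option autoImplicit false

namespace Pool.H56.PO

open MeasureTheory Filter Topology

private lemma low {g : ℝ → ℝ} {T a b c : ℝ} (ha : 0 ≤ a) (hab : a ≤ b) (hb : b ≤ T)
    (hg0 : ∀ x, 0 ≤ g x) (hgi : IntervalIntegrable g volume 0 T)
    (h : ∀ x ∈ Set.Icc a b, c ≤ g x) : c * (b - a) ≤ ∫ x in (0 : ℝ)..T, g x := by
  have h1 : (∫ x in a..b, g x) ≤ ∫ x in (0 : ℝ)..T, g x :=
    intervalIntegral.integral_mono_interval ha hab hb (Eventually.of_forall hg0) hgi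
  have hgab : IntervalIntegrable g volume a b := by
    refine hgi.mono_set ?_
    rw [Set.uIcc_of_le hab, Set.uIcc_of_le (ha.trans (hab.trans hb))]
    exact Set.Icc_subset_Icc ha hb
  have h2 : (∫ _x in a..b, c) ≤ ∫ x in a..b, g x :=
    intervalIntegral.integral_mono_on hab intervalIntegrable_const hgab h
  rw [intervalIntegral.integral_const, smul_eq_mul] at h2
  linarith

theorem mono_lim {τ : ℝ} {t : ℕ → ℝ} (ht : Tendsto t atTop (𝓝 τ)) {f z : ℕ → ℝ → ℝ} {Z : ℝ → ℝ}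
    (hf : ∀ n, AntitoneOn (f n) (Set.Ioo 0 (t n))) (hZ : Continuous Z)
    (hz : ∀ a b : ℝ, 0 < a → a < b → b < τ → ∀ ε : ℝ, 0 < ε →
      ∀ᶠ n in atTop, ∀ r ∈ Set.Icc a b, |z n r - Z r| ≤ ε)
    (hI : ∀ n, IntervalIntegrable (fun r => (f n r - z n r) ^ 2 * r ^ 2) volume 0 (t n))
    (hL : Tendsto (fun n => ∫ r in (0 : ℝ)..t n, (f n r - z n r) ^ 2 * r ^ 2) atTop (𝓝 0)) :
    ∀ r ∈ Set.Ioo 0 τ, Tendsto (fun n => f n r) atTop (𝓝 (Z r)) := by
  rintro r ⟨hr0, hrτ⟩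
  rw [Metric.tendsto_atTop']
  intro η hη
  obtain ⟨ε, hε, h4⟩ : ∃ ε : ℝ, 0 < ε ∧ 4 * ε = η := ⟨η / 4, by positivity, by ring⟩
  obtain ⟨δ, hδ, hδZ⟩ := Metric.continuousAt_iff.1 (hZ.continuousAt (x := r)) ε hε
  obtain ⟨a, ha0, har, haδ⟩ : ∃ a : ℝ, 0 < a ∧ a < r ∧ r - δ < a :=
    ⟨max (r - δ / 2) (r / 2), lt_max_of_lt_right (by linarith), max_lt (by linarith) (by linarith),
      lt_max_of_lt_left (by linarith)⟩
  obtain ⟨b, hrb, hbτ, hbδ⟩ : ∃ b : ℝ, r < b ∧ b < τ ∧ b < r + δ :=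
    ⟨min (r + δ / 2) ((r + τ) / 2), lt_min (by linarith) (by linarith),
      min_lt_of_right_lt (by linarith), min_lt_of_left_lt (by linarith)⟩
  have hZab : ∀ x ∈ Set.Icc a b, |Z x - Z r| ≤ ε := by
    rintro x ⟨h1, h2⟩
    have h3 : dist x r < δ := by
      rw [Real.dist_eq, abs_lt]; constructor <;> linarith
    have h5 := hδZ h3
    rw [Real.dist_eq] at h5
    exact h5.le
  have e1 := hz a b ha0 (har.trans hrb) hbτ ε hε
  have e2 : ∀ᶠ n in atTop, b < t n := ht.eventually_const_lt hbτ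
  have e3 : ∀ᶠ n in atTop, (∫ x in (0 : ℝ)..t n, (f n x - z n x) ^ 2 * x ^ 2) <
      ε ^ 2 * a ^ 2 * (r - a) := hL.eventually_lt_const
        (mul_pos (by positivity) (by linarith))
  have e4 : ∀ᶠ n in atTop, (∫ x in (0 : ℝ)..t n, (f n x - z n x) ^ 2 * x ^ 2) <
      ε ^ 2 * a ^ 2 * (b - r) := hL.eventually_lt_const
        (mul_pos (by positivity) (by linarith))
  have key : ∀ᶠ n in atTop, dist (f n r) (Z r) < η := by
    filter_upwards [e1, e2, e3, e4] with n h1 h2 h3 h4'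
    rw [Real.dist_eq]
    have hrn : r ∈ Set.Ioo 0 (t n) := ⟨hr0, by linarith⟩
    have hup : f n r ≤ Z r + 3 * ε := by
      by_contra hc
      push Not at hc
      refine absurd h3 (not_lt.2 (low ha0.le har.le (by linarith) (fun x => by positivity) (hI n) ?_))
      rintro x ⟨hx1, hx2⟩
      have hxn : x ∈ Set.Ioo 0 (t n) := ⟨by linarith, by linarith⟩
      have g1 := hf n hxn hrn hx2
      have g2 := abs_le.1 (hZab x ⟨hx1, by linarith⟩)
      have g3 := abs_le.1 (h1 x ⟨hx1, by linarith⟩)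
      have g4 : ε ≤ f n x - z n x := by linarith [g2.1, g2.2, g3.1, g3.2]
      exact mul_le_mul (pow_le_pow_left₀ hε.le g4 2) (pow_le_pow_left₀ ha0.le hx1 2)
        (by positivity) (by positivity)
    have hlo : Z r - 3 * ε ≤ f n r := by
      by_contra hc
      push Not at hc
      refine absurd h4' (not_lt.2 (low hr0.le hrb.le h2.le (fun x => by positivity) (hI n) ?_))
      rintro x ⟨hx1, hx2⟩
      have hxn : x ∈ Set.Ioo 0 (t n) := ⟨by linarith, by linarith⟩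
      have g1 := hf n hrn hxn hx1
      have g2 := abs_le.1 (hZab x ⟨by linarith, hx2⟩)
      have g3 := abs_le.1 (h1 x ⟨by linarith, hx2⟩)
      have g4 : ε ≤ -(f n x - z n x) := by linarith [g2.1, g2.2, g3.1, g3.2]
      have g5 : ε ^ 2 ≤ (f n x - z n x) ^ 2 := by
        rw [← neg_sq (f n x - z n x)]
        exact pow_le_pow_left₀ hε.le g4 2
      exact mul_le_mul g5 (pow_le_pow_left₀ ha0.le (by linarith) 2)
        (by positivity) (by positivity)
    rw [abs_lt]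
    constructor <;> linarith
  obtain ⟨N, hN⟩ := eventually_atTop.1 key
  exact ⟨N, fun n hn => hN n hn.le⟩

end Pool.H56.PO
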