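import Pool.Agent.H56.PG.Pb
import Pool.Agent.H56.PG.Pc
import Pool.Agent.H56.PG.Pm

/-!
# Module Pl (about 200 lines): convergence of the profiles

PROOF. `g n → τ` (`lim_g`). `c n ≤ C` for all `n`, so with `prof_one`, `prof_le` there is `B ≥ 1` with `w n r ≤ B` for all `n`
with `g n > 1` (all `n`, by `pi_lt`). It is enough to treat the tail `n ≥ n₀` where `B g n |g n - τ| < 1/2`
(`Filter.tendsto_add_atTop_iff_nat`). Let `t n = min (g n) τ`. If `g n ≤ τ` put `s n = 0`, and if `τ < g n` let `s n` be the number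
from `prof_cut` with `t = τ`; so `0 ≤ s n ≤ B g n |g n - τ| → 0` and `W n r = (w n r - s n) / (1 - s n)` is a `Prof (t n)`.
`weak` (in `PO/Core.lean`): `∫ z² r² ≤ ∫ W z r²`, where `z = zz (t n)`, so (integrability from `Prof.int`)
`∫_0^(t n) (W n - z)² r² = ∫ W² r² - 2 ∫ W z r² + ∫ z² r² ≤ ∫ W² r² - ∫ z² r² ≤ (1 - s n)⁻² c n - 5/6 τ³ → 0`
(`0 ≤ w - s ≤ w`, `int_zz_lt`, `int_zz_tau`). `zz (t n) → zc τ` uniformly on `[a, b]`: for `r > 0`
`|zz t r - zz τ r| = |t / sin t - τ / sin τ| |sin r / r| ≤ |t / sin t - τ / sin τ|`, and `t / sin t` is continuous at `τ`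
(`sin τ ≠ 0`). `mono_lim` with `Z = zc τ` (`zc_eq`, `zc_cont`) gives `W n r → zc τ r`, and `w n = (1 - s n) W n + s n`.
-/

set_option autoImplicit false

namespace Pool.H56.PO

open MeasureTheory Filter Topology

private theorem pl_unif {g : ℕ → ℝ} {w : ℕ → ℝ → ℝ} (h : ∀ n, Prof (g n) (w n)) {c : ℕ → ℝ}
    {C : ℝ} (hc : ∀ n, c n ≤ C) (h2 : ∀ n, ∫ r in (0 : ℝ)..g n, w n r ^ 2 * r ^ 2 ≤ c n) :
    ∃ B : ℝ, 1 ≤ B ∧ ∀ n, ∀ r ∈ Set.Ioo 0 (g n), w n r ≤ B := by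
  have hg : ∀ n, 1 < g n := fun n => by
    have h1 := pi_lt (h n)
    have h3 := Real.pi_gt_three
    linarith
  have h1 : ∀ n, w n 1 ^ 2 ≤ 3 * C := fun n => by
    have h3 := prof_one (h n) (hg n) (h2 n)
    have h4 := hc n
    linarith
  have hC : 0 ≤ C := by
    have h3 := h1 0
    have h4 := sq_nonneg (w 0 1)
    linarith
  refine ⟨6 / 5 * (1 + 3 * C), by linarith, fun n r hr => ?_⟩
  have h3 := prof_le (h n) (hg n) r hr
  have h4 : w n 1 ≤ 1 + 3 * C := by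
    have h5 := h1 n
    nlinarith [sq_nonneg (w n 1 - 1)]
  linarith

private theorem pl_zz {τ : ℝ} (hs : Real.sin τ ≠ 0) {t : ℕ → ℝ} (ht : Tendsto t atTop (𝓝 τ))
    {ε : ℝ} (hε : 0 < ε) : ∀ᶠ n in atTop, ∀ r : ℝ, 0 < r → |zz (t n) r - zc τ r| ≤ ε := by
  have h1 : Tendsto (fun x : ℝ => x / Real.sin x) (𝓝 τ) (𝓝 (τ / Real.sin τ)) :=
    (continuousAt_id.div Real.continuous_sin.continuousAt hs)
  have h2 : Tendsto (fun n => τ / Real.sin τ - t n / Real.sin (t n)) atTop (𝓝 0) := by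
    have h3 := (h1.comp ht).const_sub (τ / Real.sin τ)
    rw [sub_self] at h3
    exact h3
  have h3 : ∀ᶠ n in atTop, |τ / Real.sin τ - t n / Real.sin (t n)| ≤ ε := by
    have h4 := (tendsto_zero_iff_abs_tendsto_zero _).1 h2
    exact (h4.eventually (gt_mem_nhds hε)).mono fun n hn => le_of_lt hn
  filter_upwards [h3] with n hn r hr
  rw [zc_eq τ hr.ne']
  have h5 : zz (t n) r - zz τ r
      = (τ / Real.sin τ - t n / Real.sin (t n)) * (Real.sin r / r) := by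
    unfold zz
    rw [mul_comm (Real.sin (t n)) r, mul_comm (Real.sin τ) r, ← div_div, ← div_div]
    rw [mul_div_assoc, mul_div_assoc, mul_div_assoc, mul_div_assoc]
    ring
  rw [h5, abs_mul]
  have h6 : |Real.sin r / r| ≤ 1 := by
    rw [abs_div, abs_of_pos hr, div_le_one hr]
    exact (Real.abs_sin_le_abs (x := r)).trans (abs_of_pos hr).le
  calc |τ / Real.sin τ - t n / Real.sin (t n)| * |Real.sin r / r|
      ≤ |τ / Real.sin τ - t n / Real.sin (t n)| * 1 :=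
        mul_le_mul_of_nonneg_left h6 (abs_nonneg _)
    _ ≤ ε := by rw [mul_one]; exact hn

/-- the second moment of the profile cut at the height `s` -/
private theorem pl_cut {τ : ℝ} (hτ : IsTau τ) {g t s c : ℝ} {w : ℝ → ℝ} (h : Prof g w)
    (ht : t ≤ g) (htτ : t ≤ τ) (hs0 : 0 ≤ s) (hs1 : s < 1) (hsw : ∀ r ∈ Set.Ioo 0 t, s ≤ w r)
    (hW : Prof t (fun r => (w r - s) / (1 - s)))
    (hc : ∫ r in (0 : ℝ)..g, w r ^ 2 * r ^ 2 ≤ c) :
    ∫ r in (0 : ℝ)..t, ((w r - s) / (1 - s) * r - (r - t / Real.sin t * Real.sin r)) ^ 2 ≤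
      (1 - s)⁻¹ ^ 2 * c - 5 / 6 * τ ^ 3 := by
  have h1 := sq_int hτ hW htτ
  have ht0 : 0 < t := hW.pos
  have h2 : 5 / 6 * τ ^ 3 ≤ ∫ r in (0 : ℝ)..t, zz t r ^ 2 * r ^ 2 := by
    rcases htτ.eq_or_lt with h3 | h3
    · rw [h3, int_zz_tau hτ]
    · exact (int_zz_lt hτ (pi_lt hW) h3).le
  have hp : 0 < 1 - s := by linarith
  have iw : IntervalIntegrable (fun r => w r ^ 2 * r ^ 2) volume 0 g :=
    h.int (F := fun a r => a ^ 2 * r ^ 2) (by fun_prop)
  have iw' : IntervalIntegrable (fun r => w r ^ 2 * r ^ 2) volume 0 t := by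
    refine iw.mono_set ?_
    rw [Set.uIcc_of_le ht0.le, Set.uIcc_of_le h.pos.le]
    exact Set.Icc_subset_Icc_right ht
  have iW : IntervalIntegrable (fun r => ((w r - s) / (1 - s)) ^ 2 * r ^ 2) volume 0 t :=
    hW.int (F := fun a r => a ^ 2 * r ^ 2) (by fun_prop)
  have h3 : ∫ r in (0 : ℝ)..t, ((w r - s) / (1 - s)) ^ 2 * r ^ 2
      ≤ ∫ r in (0 : ℝ)..t, (1 - s)⁻¹ ^ 2 * (w r ^ 2 * r ^ 2) := by
    refine intervalIntegral.integral_mono_on_of_le_Ioo ht0.le iW (iw'.const_mul _) fun r hr => ?_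
    have h4 := hsw r hr
    have h5 : ((w r - s) / (1 - s)) ^ 2 = (1 - s)⁻¹ ^ 2 * (w r - s) ^ 2 := by
      rw [div_eq_mul_inv]
      ring
    rw [h5, mul_assoc]
    refine mul_le_mul_of_nonneg_left ?_ (sq_nonneg _)
    refine mul_le_mul_of_nonneg_right ?_ (sq_nonneg _)
    exact pow_le_pow_left₀ (by linarith) (by linarith) 2
  rw [intervalIntegral.integral_const_mul] at h3
  have h4 : ∫ r in (0 : ℝ)..t, w r ^ 2 * r ^ 2 ≤ c := by
    refine le_trans ?_ hc
    refine intervalIntegral.integral_mono_interval le_rfl ht0.le ht ?_ iw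
    exact Filter.Eventually.of_forall fun r => mul_nonneg (sq_nonneg _) (sq_nonneg _)
  have h5 : (1 - s)⁻¹ ^ 2 * ∫ r in (0 : ℝ)..t, w r ^ 2 * r ^ 2 ≤ (1 - s)⁻¹ ^ 2 * c :=
    mul_le_mul_of_nonneg_left h4 (sq_nonneg _)
  linarith

theorem prof_lim {τ : ℝ} (hτ : IsTau τ) {g : ℕ → ℝ} {w : ℕ → ℝ → ℝ} (h : ∀ n, Prof (g n) (w n))
    {c : ℕ → ℝ} (hc : Tendsto c atTop (𝓝 (5 / 6 * τ ^ 3)))
    (h2 : ∀ n, ∫ r in (0 : ℝ)..g n, w n r ^ 2 * r ^ 2 ≤ c n) (h3 : ∀ n, 5 / 6 * g n ^ 3 ≤ c n) :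
    ∀ r ∈ Set.Ioo 0 τ, Tendsto (fun n => w n r) atTop (𝓝 (zc τ r)) := by
  have hg := lim_g hτ h hc h2 h3
  have hs : Real.sin τ ≠ 0 := by
    have h4 : Real.sin (τ - Real.pi) = -Real.sin τ := Real.sin_sub_pi τ
    have h5 : 0 < Real.sin (τ - Real.pi) := by
      refine Real.sin_pos_of_pos_of_lt_pi ?_ ?_
      · linarith [hτ.1]
      · linarith [hτ.2.1, Real.pi_pos]
    intro h6
    rw [h4, h6, neg_zero] at h5
    exact lt_irrefl _ h5
  obtain ⟨C, hC⟩ := hc.bddAbove_range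
  obtain ⟨B, hB1, hB⟩ := pl_unif h (fun n => hC (Set.mem_range_self n)) h2
  have hsm : Tendsto (fun n => B * g n * |g n - τ|) atTop (𝓝 0) := by
    have h4 : Tendsto (fun n => |g n - τ|) atTop (𝓝 0) := by
      have h5 := (hg.sub_const τ).abs
      rw [sub_self, abs_zero] at h5
      exact h5
    have h5 := (hg.const_mul B).mul h4
    rw [mul_zero] at h5
    exact h5
  obtain ⟨N, hN⟩ := eventually_atTop.1 (hsm.eventually (gt_mem_nhds (show (0 : ℝ) < 1 / 2 by norm_num)))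
  have key : ∀ n, ∃ s : ℝ, 0 ≤ s ∧ s ≤ B * g (n + N) * |g (n + N) - τ| ∧ s < 1 ∧
      (∀ r ∈ Set.Ioo 0 (min (g (n + N)) τ), s ≤ w (n + N) r) ∧
      Prof (min (g (n + N)) τ) (fun r => (w (n + N) r - s) / (1 - s)) := by
    intro n
    have hn := hN (n + N) (Nat.le_add_left N n)
    have hgp := (h (n + N)).pos
    rcases le_or_gt (g (n + N)) τ with h4 | h4
    · refine ⟨0, le_rfl, by positivity, zero_lt_one, ?_, ?_⟩
      · rw [min_eq_left h4]
        exact (h (n + N)).nonneg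
      · rw [min_eq_left h4]
        have h5 : (fun r => (w (n + N) r - 0) / (1 - 0)) = w (n + N) := by
          funext r
          simp
        rw [h5]
        exact h (n + N)
    · have h5 : |g (n + N) - τ| = g (n + N) - τ := abs_of_pos (by linarith)
      rw [h5] at hn ⊢
      have hτ0 : 0 < τ := Real.pi_pos.trans hτ.1
      obtain ⟨s, hs0, hs1, hs2, hs3⟩ := prof_cut (h (n + N)) (hB (n + N)) hB1 hτ0 h4 (by linarith)
      refine ⟨s, hs0, hs1, by linarith, ?_, ?_⟩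
      · rw [min_eq_right h4.le]
        exact hs2
      · rw [min_eq_right h4.le]
        exact hs3
  choose s hs0 hs1 hs2 hs3 hs4 using key
  have hgN : Tendsto (fun n => g (n + N)) atTop (𝓝 τ) := (tendsto_add_atTop_iff_nat N).2 hg
  have hcN : Tendsto (fun n => c (n + N)) atTop (𝓝 (5 / 6 * τ ^ 3)) :=
    (tendsto_add_atTop_iff_nat N).2 hc
  have hslim : Tendsto s atTop (𝓝 0) :=
    squeeze_zero hs0 hs1 ((tendsto_add_atTop_iff_nat (f := fun n => B * g n * |g n - τ|) N).2 hsm)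
  have ht : Tendsto (fun n => min (g (n + N)) τ) atTop (𝓝 τ) := by
    have h4 := hgN.min (tendsto_const_nhds (x := τ))
    rw [min_self] at h4
    exact h4
  have he : ∀ n, (fun r => ((w (n + N) r - s n) / (1 - s n) - zz (min (g (n + N)) τ) r) ^ 2 * r ^ 2)
      = fun r => ((w (n + N) r - s n) / (1 - s n) * r - (r - min (g (n + N)) τ /
        Real.sin (min (g (n + N)) τ) * Real.sin r)) ^ 2 := by
    intro n
    funext r
    rw [← r_zz]
    ring
  have hlim := mono_lim ht (f := fun n r => (w (n + N) r - s n) / (1 - s n))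
    (z := fun n r => zz (min (g (n + N)) τ) r) (Z := zc τ) (fun n => (hs4 n).anti) (zc_cont τ)
    (fun a b ha hab hb ε hε => by
      filter_upwards [pl_zz hs ht hε] with n hn r hr
      exact hn r (ha.trans_le hr.1))
    (fun n => by
      show IntervalIntegrable (fun r => ((w (n + N) r - s n) / (1 - s n)
        - zz (min (g (n + N)) τ) r) ^ 2 * r ^ 2) volume 0 (min (g (n + N)) τ)
      rw [he n]
      exact (hs4 n).int (F := fun a r => (a * r - (r - min (g (n + N)) τ /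
        Real.sin (min (g (n + N)) τ) * Real.sin r)) ^ 2) (by fun_prop))
    (by
      have h4 : Tendsto (fun n => (1 - s n)⁻¹ ^ 2 * c (n + N) - 5 / 6 * τ ^ 3) atTop (𝓝 0) := by
        have h5 : Tendsto (fun n => (1 - s n)⁻¹ ^ 2) atTop (𝓝 ((1 - 0)⁻¹ ^ 2)) :=
          ((hslim.const_sub 1).inv₀ (by norm_num)).pow 2
        have h6 := (h5.mul hcN).sub_const (5 / 6 * τ ^ 3)
        have h7 : ((1 : ℝ) - 0)⁻¹ ^ 2 * (5 / 6 * τ ^ 3) - 5 / 6 * τ ^ 3 = 0 := by
          norm_num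
        rw [h7] at h6
        exact h6
      refine squeeze_zero (fun n => ?_) (fun n => ?_) h4
      · exact intervalIntegral.integral_nonneg (hs4 n).pos.le fun r _ =>
          mul_nonneg (sq_nonneg _) (sq_nonneg _)
      · show ∫ r in (0 : ℝ)..min (g (n + N)) τ, ((w (n + N) r - s n) / (1 - s n)
          - zz (min (g (n + N)) τ) r) ^ 2 * r ^ 2 ≤ _
        rw [he n]
        exact pl_cut hτ (h (n + N)) (min_le_left _ _) (min_le_right _ _) (hs0 n) (hs2 n) (hs3 n)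
          (hs4 n) (h2 (n + N)))
  intro r hr
  rw [← tendsto_add_atTop_iff_nat N]
  have h4 := hlim r hr
  have h5 : Tendsto (fun n => (1 - s n) * ((w (n + N) r - s n) / (1 - s n)) + s n) atTop
      (𝓝 ((1 - 0) * zc τ r + 0)) := ((hslim.const_sub 1).mul h4).add hslim
  have h6 : (fun n => (1 - s n) * ((w (n + N) r - s n) / (1 - s n)) + s n)
      = fun n => w (n + N) r := by
    funext n
    have h7 : (1 - s n) ≠ 0 := by
      have := hs2 n
      linarith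
    rw [mul_div_cancel₀ _ h7]
    ring
  rw [h6, sub_zero, one_mul, add_zero] at h5
  exact h5

/-- a uniform bound for the profiles -/
theorem prof_unif {g : ℕ → ℝ} {w : ℕ → ℝ → ℝ} (h : ∀ n, Prof (g n) (w n)) {c : ℕ → ℝ} {C : ℝ}
    (hc : ∀ n, c n ≤ C) (h2 : ∀ n, ∫ r in (0 : ℝ)..g n, w n r ^ 2 * r ^ 2 ≤ c n) :
    ∃ B : ℝ, 1 ≤ B ∧ ∀ n, ∀ r ∈ Set.Ioo 0 (g n), w n r ≤ B := by
  exact pl_unif h hc h2

end Pool.H56.PO
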