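import Pool.Agent.H56.PG.Fin
import Pool.Agent.H56.PO.Pub

/-!
# The public form of the volume bound with its gap (MP_f4af34_an, helper56)
-/

set_option autoImplicit false

namespace Pool.H56.PO

open MeasureTheory Filter Topology

/-- `D = {φ < 0}` is bounded and connected, `φ` is of class `C²` with `∇ φ ≠ 0` on `{φ = 0}`, and the
boundary is homeomorphic to the sphere -/
def C2Domain (D : Set E3) : Prop :=
  Bornology.IsBounded D ∧ IsConnected D ∧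
    (∃ φ : E3 → ℝ, ContDiff ℝ 2 φ ∧ D = {x | φ x < 0} ∧ ∀ x, φ x = 0 → fderiv ℝ φ x ≠ 0) ∧
    Nonempty (frontier D ≃ₜ Metric.sphere (0 : E3) 1)

/-- the volume of a ball of radius `r` -/
noncomputable def vb (r : ℝ) : ℝ := 4 * Real.pi / 3 * r ^ 3

theorem pub_gap : ∃ τ ε : ℝ, FirstZero τ ∧ 0 < ε ∧
    (∀ (D : Set E3) (k : ℝ), C1Domain D → Schiffer D k → vb (τ / k) ≤ volume.real D ∧
      (volume.real D = vb (τ / k) → ∃ z : E3, D = Metric.ball z (τ / k))) ∧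
    ∀ (D : Set E3) (k : ℝ), C2Domain D → Schiffer D k →
      volume.real D ≤ (1 + ε) * vb (τ / k) → ∃ (z : E3) (r : ℝ), D = Metric.ball z r := by
  obtain ⟨τ, hτ⟩ := exists_tau
  obtain ⟨ε, hε, hg⟩ := gap hτ
  refine ⟨τ, ε, hτ, hε, ?_, ?_⟩
  · rintro D k ⟨hb, hn, φ, hφ, hD, hr⟩ ⟨hk, c, u, hc, ⟨hu, he⟩, hf⟩
    exact schiffer hτ hb hn hφ hD hr hk hc hu he hf
  · rintro D k ⟨hb, hn, ⟨φ, hφ, hD, hr⟩, hs⟩ ⟨hk, c, u, hc, ⟨hu, he⟩, hf⟩ hvol
    exact hg D φ hb hn hφ hD hr hs k c u hk hc hu he hf hvol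

end Pool.H56.PO
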