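import Pool.Agent.H56.PG.Ex

/-!
# Module Ry (about 150 lines): the excess along a segment

PROOF. Let `c s = v (z + s • (x - z))`, `C¹` on `[0, 1]`, `|c' s| ≤ ‖fderiv v (…)‖ ‖x - z‖`, `c 0 ≥ zc τ a = t 0`, `c 1 ≤ zc τ b = t N`,
where `t i = zc τ (ρ i)` is strictly decreasing for `i ≤ N` (`slope`, `mpos`, `lt`). Let `e s = exc … (z + s • (x - z)) ‖x - z‖ ≥ 0`
(bounded and measurable on `[0, 1]`, so interval integrable: sum of indicators of closed sets times continuous functions).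
Let `σ i = sInf {s ∈ [0, 1] | c s ≤ t i}` (nonempty: it contains `1`), so `c (σ i) ≤ t i` (closed set) and `σ i ≤ σ (i+1)`.
Claim (induction on `i ≤ N`): `ρ i - a ≤ ∫_0^(σ i) (e s + ‖x - z‖) ds`. Step: let
`s i = sSup {s ∈ [0, σ (i+1)] | t i ≤ c s}` (nonempty: it contains `0` if `i = 0`, and in general `c 0 ≥ t 0 ≥ t i`); then
`c (s i) = t i` or `≥`, `σ i ≤ s i` (before `σ i` all values are `> t i`), `c (σ (i+1)) ≤ t (i+1)` with equality by continuity,
and on `[s i, σ (i+1)]` `t (i+1) ≤ c ≤ t i`. So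
`m i (ρ (i+1) - ρ i) ≤ t i - t (i+1) ≤ ∫_{s i}^{σ (i+1)} ‖fderiv v‖ ‖x - z‖ ≤ ∫ (max (‖fderiv v‖ - m i) 0 + m i) ‖x - z‖`
`≤ m i ∫_{s i}^{σ (i+1)} (e s + ‖x - z‖) ds` (the other terms of `exc` are nonnegative). Divide by `m i` and add.
For `i = N`: `b - a ≤ ∫_0^(σ N) (e + ‖x - z‖) ≤ ∫_0^1 e + ‖x - z‖`.
-/

set_option autoImplicit false

namespace Pool.H56.PO

open MeasureTheory Filter Topology

private theorem Ry_level {c g : ℝ → ℝ} (hc : Continuous c) (hg : Continuous g)
    (hg0 : ∀ s, 0 ≤ g s)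
    (H : ∀ s₀ s₁ : ℝ, s₀ ≤ s₁ → c s₀ - c s₁ ≤ ∫ s in s₀..s₁, g s)
    {t' t : ℝ} (h0 : t ≤ c 0) (h1 : c 1 ≤ t') :
    t - t' ≤ ∫ s in Set.Ioc (0 : ℝ) 1, Set.indicator {s | t' < c s ∧ c s < t} g s := by
  have hA : MeasurableSet {s | t' < c s ∧ c s < t} :=
    ((isOpen_lt continuous_const hc).inter (isOpen_lt hc continuous_const)).measurableSet
  have hgi : ∀ p q : ℝ, IntegrableOn g (Set.Ioc p q) := fun p q =>
    (hg.integrableOn_Icc).mono_set Set.Ioc_subset_Icc_self
  -- the first time below `t'`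
  have hS : IsCompact (Set.Icc (0 : ℝ) 1 ∩ {s | c s ≤ t'}) :=
    isCompact_Icc.inter_right (isClosed_le hc continuous_const)
  have hSne : (Set.Icc (0 : ℝ) 1 ∩ {s | c s ≤ t'}).Nonempty := ⟨1, ⟨by norm_num, h1⟩⟩
  obtain ⟨s₁, hs₁, hmin⟩ := hS.exists_isLeast hSne
  have hS2 : IsCompact (Set.Icc (0 : ℝ) s₁ ∩ {s | t ≤ c s}) :=
    isCompact_Icc.inter_right (isClosed_le continuous_const hc)
  have hS2ne : (Set.Icc (0 : ℝ) s₁ ∩ {s | t ≤ c s}).Nonempty :=
    ⟨0, ⟨⟨le_refl _, hs₁.1.1⟩, h0⟩⟩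
  obtain ⟨s₀, hs₀, hmax⟩ := hS2.exists_isGreatest hS2ne
  have h01 : s₀ ≤ s₁ := hs₀.1.2
  have hin : ∀ s ∈ Set.Ioo s₀ s₁, s ∈ {s | t' < c s ∧ c s < t} := by
    intro s hs
    have hs0 : 0 ≤ s := hs₀.1.1.trans hs.1.le
    constructor
    · by_contra hcon
      have := hmin ⟨⟨hs0, hs.2.le.trans hs₁.1.2⟩, not_lt.1 hcon⟩
      linarith [hs.2]
    · by_contra hcon
      have := hmax ⟨⟨hs0, hs.2.le⟩, not_lt.1 hcon⟩
      linarith [hs.1]
  have e1 : t - t' ≤ ∫ s in s₀..s₁, g s := by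
    have := H s₀ s₁ h01
    have h2 : t ≤ c s₀ := hs₀.2
    have h3 : c s₁ ≤ t' := hs₁.2
    linarith
  refine e1.trans ?_
  rw [intervalIntegral.integral_of_le h01, integral_Ioc_eq_integral_Ioo]
  have e2 : ∫ s in Set.Ioo s₀ s₁, g s =
      ∫ s in Set.Ioo s₀ s₁, Set.indicator {s | t' < c s ∧ c s < t} g s := by
    refine setIntegral_congr_fun measurableSet_Ioo fun s hs => ?_
    exact (Set.indicator_of_mem (hin s hs) g).symm
  rw [e2]
  refine setIntegral_mono_set ((hgi 0 1).indicator hA) ?_ ?_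
  · exact ae_of_all _ fun s => Set.indicator_nonneg (fun s _ => hg0 s) s
  · refine HasSubset.Subset.eventuallyLE ?_
    intro s hs
    exact ⟨lt_of_le_of_lt hs₀.1.1 hs.1, hs.2.le.trans hs₁.1.2⟩

private theorem Ry_disj {N : ℕ} {t : ℕ → ℝ} (ht : ∀ i < N, t (i + 1) < t i) (u : ℝ) :
    ∑ i ∈ Finset.range N, (if t (i + 1) < u ∧ u < t i then (1 : ℝ) else 0) ≤ 1 := by
  have hanti : ∀ i j, i ≤ j → j ≤ N → t j ≤ t i := by
    intro i j hij
    induction j, hij using Nat.le_induction with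
    | base => intro _; exact le_refl _
    | succ j hij ih =>
      intro hj
      exact (ht j (by omega)).le.trans (ih (by omega))
  by_cases h : ∃ i ∈ Finset.range N, t (i + 1) < u ∧ u < t i
  · obtain ⟨i, hi, h1, h2⟩ := h
    rw [Finset.mem_range] at hi
    rw [Finset.sum_eq_single i]
    · rw [if_pos ⟨h1, h2⟩]
    · intro j hj hji
      rw [Finset.mem_range] at hj
      refine if_neg ?_
      rintro ⟨h3, h4⟩
      rcases lt_or_gt_of_ne hji with hlt | hgt
      · have := hanti (j + 1) i hlt hi.le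
        linarith
      · have := hanti (i + 1) j hgt hj.le
        linarith
    · intro hni
      exact absurd (Finset.mem_range.2 hi) hni
  · refine le_trans (le_of_eq (Finset.sum_eq_zero fun i hi => ?_)) zero_le_one
    exact if_neg fun h' => h ⟨i, hi, h'⟩

private theorem Ry_main {c G : ℝ → ℝ} {d : ℝ} (hd : 0 ≤ d) (hc : Continuous c)
    (hG : Continuous G) (hG0 : ∀ s, 0 ≤ G s)
    (H : ∀ s₀ s₁ : ℝ, s₀ ≤ s₁ → c s₀ - c s₁ ≤ ∫ s in s₀..s₁, G s * d)
    {N : ℕ} {ρ m t : ℕ → ℝ} (lt : ∀ i < N, ρ i < ρ (i + 1)) (mpos : ∀ i < N, 0 < m i)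
    (slope : ∀ i < N, m i * (ρ (i + 1) - ρ i) ≤ t i - t (i + 1))
    (h0 : t 0 ≤ c 0) (h1 : c 1 ≤ t N) :
    (ρ N - ρ 0) - d ≤ ∫ s in Set.Ioc (0 : ℝ) 1,
      (∑ i ∈ Finset.range N, Set.indicator {s | t (i + 1) ≤ c s ∧ c s ≤ t i}
        (fun s => (m i)⁻¹ * max (G s - m i) 0) s) * d := by
  have ht : ∀ i < N, t (i + 1) < t i := by
    intro i hi
    have h2 := slope i hi
    have h3 := mul_pos (mpos i hi) (sub_pos.2 (lt i hi))
    linarith
  have hanti : ∀ i j, i ≤ j → j ≤ N → t j ≤ t i := by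
    intro i j hij
    induction j, hij using Nat.le_induction with
    | base => intro _; exact le_refl _
    | succ j hij ih =>
      intro hj
      exact (ht j (by omega)).le.trans (ih (by omega))
  have hA : ∀ i, MeasurableSet {s | t (i + 1) < c s ∧ c s < t i} := fun i =>
    ((isOpen_lt continuous_const hc).inter (isOpen_lt hc continuous_const)).measurableSet
  have hB : ∀ i, MeasurableSet {s | t (i + 1) ≤ c s ∧ c s ≤ t i} := fun i =>
    ((isClosed_le continuous_const hc).inter (isClosed_le hc continuous_const)).measurableSet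
  have hint : ∀ f : ℝ → ℝ, Continuous f → IntegrableOn f (Set.Ioc 0 1) := fun f hf =>
    (hf.integrableOn_Icc).mono_set Set.Ioc_subset_Icc_self
  have hf1 : ∀ i, Continuous (fun s => (m i)⁻¹ * max (G s - m i) 0) := fun i =>
    continuous_const.mul ((hG.sub continuous_const).max continuous_const)
  -- the functions of one level
  have hI1 : ∀ i, IntegrableOn (fun s => Set.indicator {s | t (i + 1) ≤ c s ∧ c s ≤ t i}
      (fun s => (m i)⁻¹ * max (G s - m i) 0) s * d) (Set.Ioc 0 1) := fun i =>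
    ((hint _ (hf1 i)).indicator (hB i)).mul_const d
  have hI2 : ∀ i, IntegrableOn (fun s => (if t (i + 1) < c s ∧ c s < t i then (1 : ℝ) else 0) * d)
      (Set.Ioc 0 1) := fun i => by
    have h2 : IntegrableOn (fun s => Set.indicator {s | t (i + 1) < c s ∧ c s < t i}
        (fun _ => (1 : ℝ)) s * d) (Set.Ioc 0 1) :=
      ((hint (fun _ => (1 : ℝ)) continuous_const).indicator (hA i)).mul_const d
    refine h2.congr_fun (fun s _ => ?_) measurableSet_Ioc
    simp only [Set.indicator_apply, Set.mem_ofPred_eq]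
  have hlev : ∀ i ∈ Finset.range N, ρ (i + 1) - ρ i ≤
      (∫ s in Set.Ioc (0 : ℝ) 1, Set.indicator {s | t (i + 1) ≤ c s ∧ c s ≤ t i}
        (fun s => (m i)⁻¹ * max (G s - m i) 0) s * d) +
      ∫ s in Set.Ioc (0 : ℝ) 1, (if t (i + 1) < c s ∧ c s < t i then (1 : ℝ) else 0) * d := by
    intro i hi
    rw [Finset.mem_range] at hi
    have hm := mpos i hi
    have hL := Ry_level (t := t i) (t' := t (i + 1)) hc (hG.mul continuous_const)
      (fun s => mul_nonneg (hG0 s) hd) H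
      ((hanti 0 i (Nat.zero_le _) hi.le).trans h0) (h1.trans (hanti (i + 1) N hi le_rfl))
    rw [← integral_add (hI1 i) (hI2 i)]
    have h3 : ρ (i + 1) - ρ i ≤ (m i)⁻¹ * ∫ s in Set.Ioc (0 : ℝ) 1,
        Set.indicator {s | t (i + 1) < c s ∧ c s < t i} (fun s => G s * d) s := by
      rw [le_inv_mul_iff₀ hm]
      exact (slope i hi).trans hL
    refine h3.trans ?_
    rw [← integral_const_mul]
    refine setIntegral_mono_on ?_ ((hI1 i).add (hI2 i)) measurableSet_Ioc ?_
    · exact (((hint _ (hG.mul continuous_const)).indicator (hA i))).const_mul _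
    · intro s _
      by_cases hs : t (i + 1) < c s ∧ c s < t i
      · rw [Set.indicator_of_mem (show s ∈ {s | t (i + 1) < c s ∧ c s < t i} from hs),
          Set.indicator_of_mem (show s ∈ {s | t (i + 1) ≤ c s ∧ c s ≤ t i} from
            ⟨hs.1.le, hs.2.le⟩), if_pos hs]
        have h4 : G s - m i ≤ max (G s - m i) 0 := le_max_left _ _
        have h5 : (m i)⁻¹ * G s ≤ (m i)⁻¹ * max (G s - m i) 0 + 1 := by
          have h6 := mul_le_mul_of_nonneg_left h4 (inv_nonneg.2 hm.le)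
          have h7 : (m i)⁻¹ * m i = 1 := inv_mul_cancel₀ hm.ne'
          nlinarith
        have h8 := mul_le_mul_of_nonneg_right h5 hd
        nlinarith
      · rw [Set.indicator_of_notMem (show s ∉ {s | t (i + 1) < c s ∧ c s < t i} from hs),
          if_neg hs, mul_zero, zero_mul, add_zero]
        refine mul_nonneg (Set.indicator_nonneg (fun s _ => ?_) s) hd
        exact mul_nonneg (inv_nonneg.2 hm.le) (le_max_right _ _)
  have hsum := Finset.sum_le_sum hlev
  rw [Finset.sum_range_sub, Finset.sum_add_distrib,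
    ← integral_finsetSum _ (fun i _ => hI1 i), ← integral_finsetSum _ (fun i _ => hI2 i)] at hsum
  have h9 : ∫ s in Set.Ioc (0 : ℝ) 1, ∑ i ∈ Finset.range N,
      (if t (i + 1) < c s ∧ c s < t i then (1 : ℝ) else 0) * d ≤ d := by
    have h10 : ∫ s in Set.Ioc (0 : ℝ) 1, d = d := by simp
    calc ∫ s in Set.Ioc (0 : ℝ) 1, ∑ i ∈ Finset.range N,
        (if t (i + 1) < c s ∧ c s < t i then (1 : ℝ) else 0) * d
        ≤ ∫ s in Set.Ioc (0 : ℝ) 1, d := by
          refine setIntegral_mono_on (integrable_finsetSum _ fun i _ => hI2 i)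
            (hint _ continuous_const) measurableSet_Ioc fun s _ => ?_
          rw [← Finset.sum_mul]
          have := mul_le_mul_of_nonneg_right (Ry_disj ht (c s)) hd
          linarith
      _ = d := h10
  have h11 : ∫ s in Set.Ioc (0 : ℝ) 1, ∑ i ∈ Finset.range N,
        Set.indicator {s | t (i + 1) ≤ c s ∧ c s ≤ t i}
          (fun s => (m i)⁻¹ * max (G s - m i) 0) s * d =
      ∫ s in Set.Ioc (0 : ℝ) 1, (∑ i ∈ Finset.range N,
        Set.indicator {s | t (i + 1) ≤ c s ∧ c s ≤ t i}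
          (fun s => (m i)⁻¹ * max (G s - m i) 0) s) * d := by
    refine setIntegral_congr_fun measurableSet_Ioc fun s _ => ?_
    exact (Finset.sum_mul _ _ _).symm
  rw [h11] at hsum
  linarith

theorem ray {τ a b : ℝ} {N : ℕ} {ρ m : ℕ → ℝ} (hP : Part τ a b N ρ m) {v : E3 → ℝ}
    (hv : ContDiff ℝ 1 v) {z x : E3} (hz : zc τ a ≤ v z) (hx : v x ≤ zc τ b) :
    (b - a) - ‖x - z‖ ≤ ∫ s in (0 : ℝ)..1, exc τ N ρ m v (z + s • (x - z)) * ‖x - z‖ := by
  have hline : Continuous (fun s : ℝ => z + s • (x - z)) := by fun_prop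
  have hfd : Continuous (fun y => fderiv ℝ v y) := hv.continuous_fderiv (by norm_num)
  have hder : ∀ s : ℝ, HasDerivAt (fun s : ℝ => v (z + s • (x - z)))
      (fderiv ℝ v (z + s • (x - z)) (x - z)) s := by
    intro s
    have h1 : HasDerivAt (fun s : ℝ => z + s • (x - z)) (x - z) s := by
      have := ((hasDerivAt_id s).smul_const (x - z)).const_add z
      simpa using this
    exact ((hv.differentiable (by norm_num)) _).hasFDerivAt.comp_hasDerivAt s h1
  have hdc : Continuous (fun s : ℝ => fderiv ℝ v (z + s • (x - z)) (x - z)) :=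
    (hfd.comp hline).clm_apply continuous_const
  have hGc : Continuous (fun s : ℝ => ‖fderiv ℝ v (z + s • (x - z))‖) := (hfd.comp hline).norm
  have key := Ry_main (c := fun s : ℝ => v (z + s • (x - z)))
    (G := fun s : ℝ => ‖fderiv ℝ v (z + s • (x - z))‖) (d := ‖x - z‖) (norm_nonneg _)
    (hv.continuous.comp hline) hGc (fun s => norm_nonneg _) ?_
    (N := N) (ρ := ρ) (m := m) (t := fun i => zc τ (ρ i)) hP.lt hP.mpos hP.slope
    (by simpa [hP.zero] using hz) (by simpa [hP.last] using hx)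
  · rw [intervalIntegral.integral_of_le zero_le_one]
    rw [hP.zero, hP.last] at key
    refine key.trans (le_of_eq ?_)
    refine setIntegral_congr_fun measurableSet_Ioc fun s _ => ?_
    simp only [exc, Set.indicator_apply, Set.mem_ofPred_eq]
  · intro s₀ s₁ h01
    have h2 : ∫ s in s₀..s₁, fderiv ℝ v (z + s • (x - z)) (x - z) =
        v (z + s₁ • (x - z)) - v (z + s₀ • (x - z)) :=
      intervalIntegral.integral_eq_sub_of_hasDerivAt (fun s _ => hder s)
        (hdc.intervalIntegrable _ _)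
    have h3 : v (z + s₀ • (x - z)) - v (z + s₁ • (x - z)) =
        ∫ s in s₀..s₁, -(fderiv ℝ v (z + s • (x - z)) (x - z)) := by
      rw [intervalIntegral.integral_neg, h2]
      ring
    show v (z + s₀ • (x - z)) - v (z + s₁ • (x - z)) ≤ _
    rw [h3]
    refine intervalIntegral.integral_mono_on h01 (hdc.neg.intervalIntegrable _ _)
      ((hGc.mul continuous_const).intervalIntegrable _ _) fun s _ => ?_
    have h4 := (fderiv ℝ v (z + s • (x - z))).le_opNorm (x - z)
    rw [Real.norm_eq_abs] at h4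
    exact (neg_le_abs _).trans h4

end Pool.H56.PO
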