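import Pool.Agent.H56.PG.Sq

/-!
# Module Sd (about 120 lines): convergence of the distribution functions

Write `w n = rea (v n)`, `g n = rad (ds (v n) 0) → τ` (`seq_rad`). `zc τ` is strictly antitone on `[0, τ]`, `zc τ τ = 0`,
so `0 < zc τ r` for `0 < r < τ`.
PROOF of `seq_ds`. Let `r < r'' < τ`. `w n r'' → zc τ r'' < zc τ r` (`seq_rea`), so for large `n` (also `r'' < g n`)
`¬ zc τ r < w n r''`, and by `rea_lt_iff` `ds (v n) (zc τ r) ≤ 4π/3 r''³`. Let `0 < r'' < r`. `w n r'' → zc τ r'' > zc τ r`, so for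
large `n` `4π/3 r''³ < ds (v n) (zc τ r)`. Both together, with `r'' → r`, give the limit.
PROOF of `seq_ge`. `ds (v n) (zc τ r) ≤ |{zc τ r ≤ v n}| ≤ ds (v n) (zc τ r'')` for `r < r'' < τ` (`zc τ r'' < zc τ r`; the sets
`{t < v n}`, `t > 0`, have finite measure: `v n` has compact support), and `seq_ds`.
-/

set_option autoImplicit false

namespace Pool.H56.PO

open MeasureTheory Filter Topology

private theorem sd_cont : Continuous fun r : ℝ => 4 * Real.pi / 3 * r ^ 3 := by fun_prop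

private theorem sd_left {r a : ℝ} (h0 : 0 < r) (ha : a < 4 * Real.pi / 3 * r ^ 3) :
    ∃ s, 0 < s ∧ s < r ∧ a < 4 * Real.pi / 3 * s ^ 3 := by
  have h1 : ∀ᶠ s in 𝓝[<] r, a < 4 * Real.pi / 3 * s ^ 3 :=
    (sd_cont.tendsto r).eventually (lt_mem_nhds ha) |>.filter_mono nhdsWithin_le_nhds
  have h2 : ∀ᶠ s in 𝓝[<] r, s ∈ Set.Ioo 0 r := Ioo_mem_nhdsLT h0
  obtain ⟨s, hs, hs'⟩ := (h1.and h2).exists
  exact ⟨s, hs'.1, hs'.2, hs⟩

private theorem sd_right {r τ b : ℝ} (h1 : r < τ) (hb : 4 * Real.pi / 3 * r ^ 3 < b) :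
    ∃ s, r < s ∧ s < τ ∧ 4 * Real.pi / 3 * s ^ 3 < b := by
  have h1' : ∀ᶠ s in 𝓝[>] r, 4 * Real.pi / 3 * s ^ 3 < b :=
    (sd_cont.tendsto r).eventually (gt_mem_nhds hb) |>.filter_mono nhdsWithin_le_nhds
  have h2 : ∀ᶠ s in 𝓝[>] r, s ∈ Set.Ioo r τ := Ioo_mem_nhdsGT h1
  obtain ⟨s, hs, hs'⟩ := (h1'.and h2).exists
  exact ⟨s, hs'.1, hs'.2, hs⟩

private theorem sd_zc_lt {τ : ℝ} (hτ : IsTau τ) {r s : ℝ} (h0 : 0 < r) (h1 : r < s) (h2 : s ≤ τ) :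
    zc τ s < zc τ r :=
  zc_anti hτ ⟨h0.le, (h1.trans_le h2).le⟩ ⟨(h0.trans h1).le, h2⟩ h1

private theorem sd_zc_pos {τ : ℝ} (hτ : IsTau τ) {r : ℝ} (h0 : 0 < r) (h1 : r < τ) :
    0 < zc τ r := by
  have h := sd_zc_lt hτ h0 h1 le_rfl
  rwa [zc_tau hτ] at h

private theorem sd_up {τ : ℝ} {D : ℕ → Set E3} {v : ℕ → E3 → ℝ} (h : Seq τ D v) {r t : ℝ}
    (h0 : 0 < r) (h1 : r < τ) (ht : 0 ≤ t) (h2 : zc τ r < t) :
    ∀ᶠ n in atTop, ds (v n) t ≤ 4 * Real.pi / 3 * r ^ 3 := by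
  have h3 := (seq_rea h r ⟨h0, h1⟩).eventually (gt_mem_nhds h2)
  have h4 := (seq_rad h).eventually (lt_mem_nhds h1)
  filter_upwards [h3, h4] with n hn hn'
  by_contra h5
  rw [not_le] at h5
  have h6 := (rea_lt_iff (h.sol n).cont (h.sol n).hcs h0 hn' ht).2 h5
  exact absurd hn (not_lt.2 h6.le)

private theorem sd_lo {τ : ℝ} {D : ℕ → Set E3} {v : ℕ → E3 → ℝ} (h : Seq τ D v) {r t : ℝ}
    (h0 : 0 < r) (h1 : r < τ) (ht : 0 ≤ t) (h2 : t < zc τ r) :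
    ∀ᶠ n in atTop, 4 * Real.pi / 3 * r ^ 3 < ds (v n) t := by
  have h3 := (seq_rea h r ⟨h0, h1⟩).eventually (lt_mem_nhds h2)
  have h4 := (seq_rad h).eventually (lt_mem_nhds h1)
  filter_upwards [h3, h4] with n hn hn'
  exact (rea_lt_iff (h.sol n).cont (h.sol n).hcs h0 hn' ht).1 hn

theorem seq_ds {τ : ℝ} {D : ℕ → Set E3} {v : ℕ → E3 → ℝ} (h : Seq τ D v) {r : ℝ} (h0 : 0 < r)
    (h1 : r < τ) : Tendsto (fun n => ds (v n) (zc τ r)) atTop (𝓝 (4 * Real.pi / 3 * r ^ 3)) := by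
  refine tendsto_order.2 ⟨fun a ha => ?_, fun b hb => ?_⟩
  · obtain ⟨s, hs0, hs1, hs2⟩ := sd_left h0 ha
    filter_upwards [sd_lo h hs0 (hs1.trans h1) (sd_zc_pos h.tau h0 h1).le
      (sd_zc_lt h.tau hs0 hs1 h1.le)] with n hn
    exact hs2.trans hn
  · obtain ⟨s, hs0, hs1, hs2⟩ := sd_right h1 hb
    filter_upwards [sd_up h (h0.trans hs0) hs1 (sd_zc_pos h.tau h0 h1).le
      (sd_zc_lt h.tau h0 hs0 hs1.le)] with n hn
    exact hn.trans_lt hs2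

private theorem sd_fin {D : Set E3} {v : E3 → ℝ} (h : Sol D v) {t : ℝ} (ht : 0 ≤ t) :
    volume {x : E3 | t < v x} ≠ ⊤ := by
  refine ((measure_mono ?_).trans_lt h.bd.measure_lt_top).ne
  intro x hx
  by_contra hxD
  have h1 : t < v x := hx
  rw [h.zero x hxD] at h1
  exact absurd h1 (not_lt.2 ht)

theorem seq_ge {τ : ℝ} {D : ℕ → Set E3} {v : ℕ → E3 → ℝ} (h : Seq τ D v) {r : ℝ} (h0 : 0 < r)
    (h1 : r < τ) :
    Tendsto (fun n => volume.real {x | zc τ r ≤ v n x}) atTop (𝓝 (4 * Real.pi / 3 * r ^ 3)) := by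
  have key : ∀ s, r < s → s < τ → ∀ n, volume.real {x | zc τ r ≤ v n x} ≤ ds (v n) (zc τ s) := by
    intro s hs0 hs1 n
    refine measureReal_mono ?_ (sd_fin (h.sol n) (sd_zc_pos h.tau (h0.trans hs0) hs1).le)
    intro x hx
    have h2 : zc τ r ≤ v n x := hx
    exact (sd_zc_lt h.tau h0 hs0 hs1.le).trans_le h2
  have hfin : ∀ n, volume {x | zc τ r ≤ v n x} ≠ ⊤ := by
    intro n
    obtain ⟨s, hs0, hs1⟩ := exists_between h1
    refine ((measure_mono ?_).trans_lt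
      (sd_fin (h.sol n) (sd_zc_pos h.tau (h0.trans hs0) hs1).le).lt_top).ne
    intro x hx
    have h2 : zc τ r ≤ v n x := hx
    exact (sd_zc_lt h.tau h0 hs0 hs1.le).trans_le h2
  refine tendsto_order.2 ⟨fun a ha => ?_, fun b hb => ?_⟩
  · filter_upwards [(seq_ds h h0 h1).eventually (lt_mem_nhds ha)] with n hn
    refine hn.trans_le (measureReal_mono ?_ (hfin n))
    intro x hx
    exact (show zc τ r < v n x from hx).le
  · obtain ⟨s, hs0, hs1, hs2⟩ := sd_right h1 hb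
    filter_upwards [(seq_ds h (h0.trans hs0) hs1).eventually (gt_mem_nhds hs2)] with n hn
    exact (key s hs0 hs1 n).trans_lt hn

end Pool.H56.PO
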