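import Pool.Agent.H56.PG.Ss
import Pool.Agent.H56.PG.Ex

/-!
# Module Se (about 200 lines): the integral of the excess tends to zero

PROOF. `dz τ` is continuous and positive on `[a, b]`: `0 < m₀ ≤ dz τ ≤ M₀` there. Let `λ > 0`, and let `N` be large, `H = (b - a) / N`,
`ρ i = a + i H`, `m i` and `M i` the minimum and the maximum of `dz τ` on `[ρ i, ρ (i+1)]` (for `i < N`); by uniform continuity
`M i - m i ≤ ω` with `ω` as small as we like. `Part`: the slope is the mean value theorem (`zc_deriv`).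
`max y 0 ≤ y² / (2 λ) + λ / 2` gives, with `S_i = {zc τ (ρ (i+1)) ≤ v n ≤ zc τ (ρ i)}` (closed subsets of the compact support,
`0 < zc τ b ≤ v n` there, so of finite measure; `‖fderiv (v n)‖` is continuous),
`∫ exc = ∑ (m i)⁻¹ ∫_{S_i} max (‖∇ v n‖ - m i) 0 ≤ m₀⁻¹ ∑ ((2 λ)⁻¹ ∫_{S_i} (‖∇ v n‖ - m i)² + λ/2 |S_i|)`.
For large `n` (finitely many `i`): `∫_{S_i} (…)² ≤ 4 π H (b² (M i² - m i²) + 2 (m i)² (ρ(i+1)² - ρ(i)²)) + κ'`
`≤ 4 π H (2 b² M₀ ω + 4 M₀² b H) + κ'` (`seq_slab`) and `|S_i| ≤ 4π/3 (ρ(i+1)³ - ρ(i)³) + κ'` (`seq_ge`, `seq_ds`: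
`|S_i| = |{t ≤ v n}| - |{t' < v n}|`), so the sum of the `|S_i|` is at most `4π/3 b³ + N κ'`. Choose first `λ` with
`m₀⁻¹ λ (4π/3 b³ + 1) / 2 ≤ κ / 2`, then `N` large, then `κ'` with `N κ' ≤ 1` and `N κ'` small.
-/

set_option autoImplicit false

namespace Pool.H56.PO

open MeasureTheory Filter Topology

private theorem se_cpt {D : Set E3} {v : E3 → ℝ} (hs : Sol D v) {t : ℝ} (ht : 0 < t) :
    IsCompact {x | t ≤ v x} := by
  refine Metric.isCompact_of_isClosed_isBounded (isClosed_le continuous_const hs.c1.continuous) ?_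
  refine hs.bd.subset ?_
  intro x hx
  by_contra hxD
  have h1 : t ≤ v x := hx
  rw [hs.zero x hxD] at h1
  linarith

private theorem se_cpt2 {D : Set E3} {v : E3 → ℝ} (hs : Sol D v) {t : ℝ} (ht : 0 < t) (t' : ℝ) :
    IsCompact {x | t ≤ v x ∧ v x ≤ t'} := by
  have e : {x | t ≤ v x ∧ v x ≤ t'} = {x | t ≤ v x} ∩ {x | v x ≤ t'} := rfl
  rw [e]
  exact (se_cpt hs ht).inter_right (isClosed_le hs.c1.continuous continuous_const)

private theorem se_vol {D : Set E3} {v : E3 → ℝ} (hs : Sol D v) {t t' : ℝ} (ht : 0 < t)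
    (htt : t ≤ t') : volume.real {x | t ≤ v x ∧ v x ≤ t'} =
      volume.real {x | t ≤ v x} - ds v t' := by
  have hm : MeasurableSet {x | t' < v x} :=
    (isOpen_lt continuous_const hs.c1.continuous).measurableSet
  have hsub : {x | t' < v x} ⊆ {x | t ≤ v x} := fun x hx => htt.trans (le_of_lt hx)
  have hfin : volume {x | t ≤ v x} ≠ ⊤ := (se_cpt hs ht).measure_lt_top.ne
  have hfin' : volume {x | t' < v x} ≠ ⊤ :=
    (lt_of_le_of_lt (measure_mono hsub) hfin.lt_top).ne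
  have hfin2 : volume {x | t ≤ v x ∧ v x ≤ t'} ≠ ⊤ := (se_cpt2 hs ht t').measure_lt_top.ne
  have e : {x | t ≤ v x} = {x | t ≤ v x ∧ v x ≤ t'} ∪ {x | t' < v x} := by
    ext x
    simp only [Set.mem_ofPred_eq, Set.mem_union]
    constructor
    · intro h
      rcases le_or_gt (v x) t' with h2 | h2
      · exact Or.inl ⟨h, h2⟩
      · exact Or.inr h2
    · rintro (h | h)
      · exact h.1
      · exact htt.trans h.le
  have hd : Disjoint {x | t ≤ v x ∧ v x ≤ t'} {x | t' < v x} := by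
    rw [Set.disjoint_left]
    intro x hx hx'
    have h1 : v x ≤ t' := hx.2
    have h2 : t' < v x := hx'
    linarith
  have h1 := measureReal_union (μ := volume) hd hm hfin2 hfin'
  rw [← e] at h1
  unfold ds
  linarith

private theorem se_max (y l : ℝ) (hl : 0 < l) : max y 0 ≤ 1 / (2 * l) * y ^ 2 + l / 2 := by
  apply max_le
  · have h1 : 0 ≤ (y - l) ^ 2 / (2 * l) := by positivity
    have e : 1 / (2 * l) * y ^ 2 + l / 2 - y = (y - l) ^ 2 / (2 * l) := by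
      field_simp
      ring
    linarith
  · positivity

private theorem se_piece {D : Set E3} {v : E3 → ℝ} (hs : Sol D v) {t t' m l : ℝ} (ht : 0 < t)
    (hm : 0 < m) (hl : 0 < l) :
    ∫ x in {x | t ≤ v x ∧ v x ≤ t'}, m⁻¹ * max (‖fderiv ℝ v x‖ - m) 0 ≤
      m⁻¹ * (1 / (2 * l) * (∫ x in {x | t ≤ v x ∧ v x ≤ t'}, (‖fderiv ℝ v x‖ - m) ^ 2) +
        l / 2 * volume.real {x | t ≤ v x ∧ v x ≤ t'}) := by
  have hc := se_cpt2 hs ht t'
  have hf : Continuous (fun x => ‖fderiv ℝ v x‖) := (hs.c1.continuous_fderiv one_ne_zero).norm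
  have i1 : IntegrableOn (fun x => m⁻¹ * max (‖fderiv ℝ v x‖ - m) 0)
      {x | t ≤ v x ∧ v x ≤ t'} :=
    (continuous_const.mul ((hf.sub continuous_const).max continuous_const)).continuousOn.integrableOn_compact hc
  have i2 : IntegrableOn (fun x => (‖fderiv ℝ v x‖ - m) ^ 2) {x | t ≤ v x ∧ v x ≤ t'} :=
    ((hf.sub continuous_const).pow 2).continuousOn.integrableOn_compact hc
  have i3 : IntegrableOn (fun _ : E3 => l / 2) {x | t ≤ v x ∧ v x ≤ t'} :=
    continuousOn_const.integrableOn_compact hc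
  have h1 : ∫ x in {x | t ≤ v x ∧ v x ≤ t'}, m⁻¹ * max (‖fderiv ℝ v x‖ - m) 0 ≤
      ∫ x in {x | t ≤ v x ∧ v x ≤ t'},
        m⁻¹ * (1 / (2 * l) * (‖fderiv ℝ v x‖ - m) ^ 2 + l / 2) := by
    refine integral_mono i1 (((i2.const_mul _).add i3).const_mul _) ?_
    intro x
    exact mul_le_mul_of_nonneg_left (se_max _ l hl) (inv_nonneg.2 hm.le)
  refine h1.trans (le_of_eq ?_)
  rw [integral_const_mul, integral_add (i2.const_mul _) i3, integral_const_mul,
    setIntegral_const, smul_eq_mul]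
  ring

private theorem se_slope {τ : ℝ} {x y m : ℝ} (hx : 0 < x) (hxy : x < y)
    (h : ∀ z ∈ Set.Icc x y, m ≤ dz τ z) : m * (y - x) ≤ zc τ x - zc τ y := by
  have hd : ∀ z ∈ Set.Ioo x y, HasDerivAt (zc τ) (-dz τ z) z := fun z hz =>
    zc_deriv τ (ne_of_gt (hx.trans hz.1))
  obtain ⟨z, hz, he⟩ := exists_hasDerivAt_eq_slope (zc τ) (fun z => -dz τ z) hxy
    (zc_cont τ).continuousOn hd
  have h1 := h z ⟨hz.1.le, hz.2.le⟩
  have hyx : 0 < y - x := sub_pos.2 hxy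
  rw [eq_div_iff hyx.ne'] at he
  have h2 := mul_le_mul_of_nonneg_right h1 hyx.le
  linarith

theorem seq_exc {τ : ℝ} {D : ℕ → Set E3} {v : ℕ → E3 → ℝ} (h : Seq τ D v) {a b κ : ℝ}
    (h0 : 0 < a) (h1 : a < b) (h2 : b < τ) (hκ : 0 < κ) :
    ∃ (N : ℕ) (ρ m : ℕ → ℝ), Part τ a b N ρ m ∧
      ∀ᶠ n in atTop, ∫ x, exc τ N ρ m (v n) x ≤ κ := by
  have hb0 : 0 < b := h0.trans h1
  have hba : 0 < b - a := sub_pos.2 h1
  have hpi := Real.pi_pos
  have hcont : ContinuousOn (dz τ) (Set.Icc a b) :=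
    (dz_cont τ).mono fun x hx => lt_of_lt_of_le h0 hx.1
  obtain ⟨x0, hx0, hmin⟩ := isCompact_Icc.exists_isMinOn (Set.nonempty_Icc.2 h1.le) hcont
  obtain ⟨x1, hx1, hmax⟩ := isCompact_Icc.exists_isMaxOn (Set.nonempty_Icc.2 h1.le) hcont
  obtain ⟨m₀, hm₀d⟩ : ∃ m₀, m₀ = dz τ x0 := ⟨_, rfl⟩
  obtain ⟨M₀, hM₀d⟩ : ∃ M₀, M₀ = dz τ x1 := ⟨_, rfl⟩
  have hm₀ : 0 < m₀ := by
    rw [hm₀d]
    exact dz_pos h.tau (lt_of_lt_of_le h0 hx0.1) (lt_of_le_of_lt hx0.2 h2)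
  have hlow : ∀ x ∈ Set.Icc a b, m₀ ≤ dz τ x := fun x hx => by
    rw [hm₀d]
    exact hmin hx
  have hup : ∀ x ∈ Set.Icc a b, dz τ x ≤ M₀ := fun x hx => by
    rw [hM₀d]
    exact hmax hx
  have hM₀ : 0 < M₀ := hm₀.trans_le ((hlow a ⟨le_rfl, h1.le⟩).trans (hup a ⟨le_rfl, h1.le⟩))
  -- the constants
  obtain ⟨V, hVd⟩ : ∃ V, V = 4 * Real.pi * b ^ 2 * (b - a) + 1 := ⟨_, rfl⟩
  have hV : 0 < V := by rw [hVd]; positivity
  obtain ⟨l, hld⟩ : ∃ l, l = κ * m₀ / (2 * V) := ⟨_, rfl⟩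
  have hl : 0 < l := by rw [hld]; positivity
  obtain ⟨A, hAd⟩ : ∃ A, A = 2 / m₀ * (1 / (2 * l)) := ⟨_, rfl⟩
  have hA : 0 < A := by rw [hAd]; positivity
  obtain ⟨c1, hc1d⟩ : ∃ c1, c1 = A * (4 * Real.pi * (b - a)) * (4 * b ^ 2 * M₀) := ⟨_, rfl⟩
  obtain ⟨c2, hc2d⟩ : ∃ c2, c2 = A * (4 * Real.pi * (b - a)) * (4 * M₀ ^ 2 * b) := ⟨_, rfl⟩
  have hc1 : 0 < c1 := by rw [hc1d]; positivity
  have hc2 : 0 < c2 := by rw [hc2d]; positivity
  obtain ⟨ω, hωd⟩ : ∃ ω, ω = min (m₀ / 2) (κ / (8 * c1)) := ⟨_, rfl⟩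
  have hω : 0 < ω := by rw [hωd]; exact lt_min (by positivity) (by positivity)
  have hω1 : ω ≤ m₀ / 2 := by rw [hωd]; exact min_le_left _ _
  have hω2 : c1 * ω ≤ κ / 8 := by
    have : ω ≤ κ / (8 * c1) := by rw [hωd]; exact min_le_right _ _
    rw [le_div_iff₀ (by positivity)] at this
    linarith
  obtain ⟨δ, hδ, huc⟩ := Metric.uniformContinuousOn_iff.1
    (isCompact_Icc.uniformContinuousOn_of_continuous hcont) ω hω
  obtain ⟨η, hηd⟩ : ∃ η, η = min δ (κ / (8 * c2)) := ⟨_, rfl⟩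
  have hη : 0 < η := by rw [hηd]; exact lt_min hδ (by positivity)
  obtain ⟨N, hN⟩ := exists_nat_gt ((b - a) / η)
  have hN0 : (0 : ℝ) < N := lt_trans (by positivity) hN
  obtain ⟨H, hHd⟩ : ∃ H, H = (b - a) / N := ⟨_, rfl⟩
  have hH : 0 < H := by rw [hHd]; positivity
  have hNH : N * H = b - a := by rw [hHd]; field_simp
  have hHη : H < η := by
    rw [div_lt_iff₀ hη] at hN
    rw [hHd, div_lt_iff₀ hN0]
    linarith
  have hHδ : H < δ := lt_of_lt_of_le hHη (by rw [hηd]; exact min_le_left _ _)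
  have hH2 : c2 * H ≤ κ / 8 := by
    have : H ≤ κ / (8 * c2) := hHη.le.trans (by rw [hηd]; exact min_le_right _ _)
    rw [le_div_iff₀ (by positivity)] at this
    linarith
  obtain ⟨k, hkd⟩ : ∃ k, k = min (1 / (N : ℝ)) (κ / (4 * A * N)) := ⟨_, rfl⟩
  have hk : 0 < k := by rw [hkd]; exact lt_min (by positivity) (by positivity)
  have hk1 : N * k ≤ 1 := by
    have : k ≤ 1 / (N : ℝ) := by rw [hkd]; exact min_le_left _ _
    rw [le_div_iff₀ hN0] at this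
    linarith
  have hk2 : A * (N * k) ≤ κ / 4 := by
    have : k ≤ κ / (4 * A * N) := by rw [hkd]; exact min_le_right _ _
    rw [le_div_iff₀ (by positivity)] at this
    linarith
  let ρ : ℕ → ℝ := fun i => a + i * H
  let m : ℕ → ℝ := fun i => dz τ (ρ i) - ω
  have hρs : ∀ i, ρ (i + 1) = ρ i + H := by
    intro i
    change a + ((i + 1 : ℕ) : ℝ) * H = a + i * H + H
    push_cast
    ring
  have hρa : ∀ i, a ≤ ρ i := by
    intro i
    change a ≤ a + i * H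
    have : 0 ≤ (i : ℝ) * H := by positivity
    linarith
  have hρb : ∀ i, i ≤ N → ρ i ≤ b := by
    intro i hi
    change a + i * H ≤ b
    have h3 : (i : ℝ) ≤ N := by exact_mod_cast hi
    have h4 : (i : ℝ) * H ≤ N * H := mul_le_mul_of_nonneg_right h3 hH.le
    linarith
  have hmem : ∀ i, i ≤ N → ρ i ∈ Set.Icc a b := fun i hi => ⟨hρa i, hρb i hi⟩
  have hdz : ∀ i, i < N → ∀ x ∈ Set.Icc (ρ i) (ρ (i + 1)),
      dz τ (ρ i) - ω ≤ dz τ x ∧ dz τ x ≤ dz τ (ρ i) + ω := by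
    intro i hi x hx
    have hxm : x ∈ Set.Icc a b := ⟨(hρa i).trans hx.1, hx.2.trans (hρb (i + 1) hi)⟩
    have hd : dist x (ρ i) < δ := by
      rw [Real.dist_eq, abs_of_nonneg (by linarith [hx.1])]
      have := hx.2
      rw [hρs] at this
      linarith
    have h3 := huc x hxm (ρ i) (hmem i hi.le) hd
    rw [Real.dist_eq, abs_lt] at h3
    constructor <;> linarith [h3.1, h3.2]
  have hmpos : ∀ i, i < N → m₀ / 2 ≤ m i := by
    intro i hi
    have h3 := hlow (ρ i) (hmem i hi.le)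
    change m₀ / 2 ≤ dz τ (ρ i) - ω
    linarith
  have hmup : ∀ i, i < N → m i ≤ M₀ := by
    intro i hi
    have h3 := hup (ρ i) (hmem i hi.le)
    change dz τ (ρ i) - ω ≤ M₀
    linarith
  have hlt : ∀ i, ρ i < ρ (i + 1) := fun i => by rw [hρs]; linarith
  have hzt : ∀ i, i ≤ N → 0 < zc τ (ρ i) := by
    intro i hi
    have h3 := zc_anti h.tau (a := ρ i) (b := τ) ⟨(h0.le.trans (hρa i)), (hρb i hi).trans h2.le⟩
      ⟨hb0.le.trans h2.le, le_rfl⟩ (lt_of_le_of_lt (hρb i hi) h2)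
    rwa [zc_tau h.tau] at h3
  have hzz : ∀ i, i < N → zc τ (ρ (i + 1)) ≤ zc τ (ρ i) := by
    intro i hi
    exact (zc_anti h.tau (a := ρ i) (b := ρ (i + 1))
      ⟨(h0.le.trans (hρa i)), (hρb i hi.le).trans h2.le⟩
      ⟨(h0.le.trans (hρa (i + 1))), (hρb (i + 1) hi).trans h2.le⟩ (hlt i)).le
  refine ⟨N, ρ, m, ⟨?_, ?_, fun i _ => hlt i, ?_, ?_⟩, ?_⟩
  · change a + ((0 : ℕ) : ℝ) * H = a
    simp
  · change a + (N : ℝ) * H = b
    rw [hNH]
    ring
  · intro i hi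
    exact lt_of_lt_of_le (by positivity) (hmpos i hi)
  · intro i hi
    exact se_slope (lt_of_lt_of_le h0 (hρa i)) (hlt i) (fun x hx => (hdz i hi x hx).1)
  · have hslab : ∀ᶠ n in atTop, ∀ i ∈ Finset.range N,
        ∫ x in {x | zc τ (ρ (i + 1)) ≤ v n x ∧ v n x ≤ zc τ (ρ i)},
          (‖fderiv ℝ (v n) x‖ - m i) ^ 2 ≤
            4 * Real.pi * H * (4 * b ^ 2 * M₀ * ω + 4 * M₀ ^ 2 * b * H) + k := by
      rw [Filter.eventually_all_finset]
      intro i hi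
      have hi' := Finset.mem_range.1 hi
      have h3 := seq_slab h (r' := ρ i) (r := ρ (i + 1)) (m := m i) (M := dz τ (ρ i) + ω)
        (lt_of_lt_of_le h0 (hρa i)) (hlt i) (lt_of_le_of_lt (hρb (i + 1) hi') h2)
        (le_trans (by positivity) (hmpos i hi')) (hdz i hi') hk
      filter_upwards [h3] with n hn
      refine hn.trans ?_
      have e1 : ρ (i + 1) - ρ i = H := by rw [hρs]; ring
      rw [e1]
      have q1 : 0 < ρ i := lt_of_lt_of_le h0 (hρa i)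
      have q2 : ρ (i + 1) ≤ b := hρb (i + 1) hi'
      have q3 : 0 < ρ (i + 1) := lt_of_lt_of_le h0 (hρa (i + 1))
      have q4 : 0 < dz τ (ρ i) := hm₀.trans_le (hlow _ (hmem i hi'.le))
      have q5 : dz τ (ρ i) ≤ M₀ := hup _ (hmem i hi'.le)
      have q6 : 0 < m i := lt_of_lt_of_le (by positivity) (hmpos i hi')
      have e2 : ρ (i + 1) ^ 2 * (dz τ (ρ i) + ω) ^ 2 - 2 * m i ^ 2 * ρ i ^ 2 +
          m i ^ 2 * ρ (i + 1) ^ 2 = ρ (i + 1) ^ 2 * (4 * (dz τ (ρ i) * ω)) +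
            2 * m i ^ 2 * ((ρ i + ρ (i + 1)) * H) := by
        have e3 : ρ i = ρ (i + 1) - H := by rw [hρs]; ring
        change ρ (i + 1) ^ 2 * (dz τ (ρ i) + ω) ^ 2 - 2 * (dz τ (ρ i) - ω) ^ 2 * ρ i ^ 2 +
          (dz τ (ρ i) - ω) ^ 2 * ρ (i + 1) ^ 2 = ρ (i + 1) ^ 2 * (4 * (dz τ (ρ i) * ω)) +
            2 * (dz τ (ρ i) - ω) ^ 2 * ((ρ i + ρ (i + 1)) * H)
        generalize dz τ (ρ i) = y
        rw [hρs]
        ring
      have b1 : ρ (i + 1) ^ 2 ≤ b ^ 2 := pow_le_pow_left₀ q3.le q2 2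
      have b2 : dz τ (ρ i) * ω ≤ M₀ * ω := mul_le_mul_of_nonneg_right q5 hω.le
      have b3 : m i ^ 2 ≤ M₀ ^ 2 := pow_le_pow_left₀ q6.le (hmup i hi') 2
      have b4 : (ρ i + ρ (i + 1)) * H ≤ 2 * b * H := by
        apply mul_le_mul_of_nonneg_right _ hH.le
        have := hρb i hi'.le
        linarith
      have b5 : ρ (i + 1) ^ 2 * (4 * (dz τ (ρ i) * ω)) ≤ b ^ 2 * (4 * (M₀ * ω)) := by
        apply mul_le_mul b1 (by linarith) (by positivity) (by positivity)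
      have b6 : 2 * m i ^ 2 * ((ρ i + ρ (i + 1)) * H) ≤ 2 * M₀ ^ 2 * (2 * b * H) := by
        apply mul_le_mul (by linarith) b4 (by positivity) (by positivity)
      have b7 : ρ (i + 1) ^ 2 * (4 * (dz τ (ρ i) * ω)) +
            2 * m i ^ 2 * ((ρ i + ρ (i + 1)) * H) ≤
          4 * b ^ 2 * M₀ * ω + 4 * M₀ ^ 2 * b * H := by linarith
      rw [e2]
      have b8 := mul_le_mul_of_nonneg_left b7 (by positivity : 0 ≤ 4 * Real.pi * H)
      linarith
    have hvol : ∀ᶠ n in atTop, ∀ i ∈ Finset.range N,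
        volume.real {x | zc τ (ρ (i + 1)) ≤ v n x ∧ v n x ≤ zc τ (ρ i)} ≤
          4 * Real.pi * b ^ 2 * H + k := by
      rw [Filter.eventually_all_finset]
      intro i hi
      have hi' := Finset.mem_range.1 hi
      have q1 : 0 < ρ i := lt_of_lt_of_le h0 (hρa i)
      have q2 : ρ (i + 1) ≤ b := hρb (i + 1) hi'
      have q3 : 0 < ρ (i + 1) := lt_of_lt_of_le h0 (hρa (i + 1))
      have h3 := seq_ge h q3 (lt_of_le_of_lt q2 h2)
      have h4 := seq_ds h q1 (lt_of_le_of_lt (hρb i hi'.le) h2)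
      have h5 := h3.sub h4
      have h6 : 4 * Real.pi / 3 * ρ (i + 1) ^ 3 - 4 * Real.pi / 3 * ρ i ^ 3 <
          4 * Real.pi * b ^ 2 * H + k := by
        have e1 : ρ (i + 1) ^ 3 - ρ i ^ 3 =
            (ρ (i + 1) ^ 2 + ρ (i + 1) * ρ i + ρ i ^ 2) * H := by
          rw [hρs]
          ring
        have q4 : ρ i ≤ b := hρb i hi'.le
        have b1 : ρ (i + 1) ^ 2 ≤ b ^ 2 := pow_le_pow_left₀ q3.le q2 2
        have b2 : ρ i ^ 2 ≤ b ^ 2 := pow_le_pow_left₀ q1.le q4 2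
        have b3 : ρ (i + 1) * ρ i ≤ b * b := mul_le_mul q2 q4 q1.le hb0.le
        have b4 : (ρ (i + 1) ^ 2 + ρ (i + 1) * ρ i + ρ i ^ 2) * H ≤ 3 * b ^ 2 * H := by
          apply mul_le_mul_of_nonneg_right _ hH.le
          nlinarith
        have b5 : 4 * Real.pi / 3 * ((ρ (i + 1) ^ 2 + ρ (i + 1) * ρ i + ρ i ^ 2) * H) ≤
            4 * Real.pi / 3 * (3 * b ^ 2 * H) :=
          mul_le_mul_of_nonneg_left b4 (by positivity)
        have e2 : 4 * Real.pi / 3 * ρ (i + 1) ^ 3 - 4 * Real.pi / 3 * ρ i ^ 3 =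
            4 * Real.pi / 3 * (ρ (i + 1) ^ 3 - ρ i ^ 3) := by ring
        rw [e2, e1]
        have e3 : 4 * Real.pi / 3 * (3 * b ^ 2 * H) = 4 * Real.pi * b ^ 2 * H := by ring
        linarith
      filter_upwards [h5.eventually_lt_const h6] with n hn
      rw [se_vol (h.sol n) (hzt (i + 1) hi') (hzz i hi')]
      exact hn.le
    filter_upwards [hslab, hvol] with n hn1 hn2
    obtain ⟨B, hBd⟩ : ∃ B, B = 2 / m₀ * (1 / (2 * l) *
      (4 * Real.pi * H * (4 * b ^ 2 * M₀ * ω + 4 * M₀ ^ 2 * b * H) + k) +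
        l / 2 * (4 * Real.pi * b ^ 2 * H + k)) := ⟨_, rfl⟩
    have hf : Continuous (fun x => ‖fderiv ℝ (v n) x‖) :=
      ((h.sol n).c1.continuous_fderiv one_ne_zero).norm
    have hint : ∀ i ∈ Finset.range N, Integrable (Set.indicator
        {y : E3 | zc τ (ρ (i + 1)) ≤ v n y ∧ v n y ≤ zc τ (ρ i)}
          (fun y => (m i)⁻¹ * max (‖fderiv ℝ (v n) y‖ - m i) 0)) := by
      intro i hi
      have hi' := Finset.mem_range.1 hi
      have hc := se_cpt2 (h.sol n) (hzt (i + 1) hi') (zc τ (ρ i))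
      rw [integrable_indicator_iff hc.measurableSet]
      exact (continuous_const.mul ((hf.sub continuous_const).max
        continuous_const)).continuousOn.integrableOn_compact hc
    have hsum : ∫ x, exc τ N ρ m (v n) x ≤ ∑ _i ∈ Finset.range N, B := by
      unfold exc
      rw [integral_finset_sum _ hint]
      apply Finset.sum_le_sum
      intro i hi
      have hi' := Finset.mem_range.1 hi
      have hc := se_cpt2 (h.sol n) (hzt (i + 1) hi') (zc τ (ρ i))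
      have q6 : 0 < m i := lt_of_lt_of_le (by positivity) (hmpos i hi')
      rw [integral_indicator hc.measurableSet]
      refine (se_piece (h.sol n) (hzt (i + 1) hi') q6 hl).trans ?_
      rw [hBd]
      have p1 : (m i)⁻¹ ≤ 2 / m₀ := by
        have := inv_anti₀ (by positivity) (hmpos i hi')
        rwa [inv_div] at this
      have p2 : 1 / (2 * l) * (∫ x in {x | zc τ (ρ (i + 1)) ≤ v n x ∧ v n x ≤ zc τ (ρ i)},
          (‖fderiv ℝ (v n) x‖ - m i) ^ 2) ≤ 1 / (2 * l) *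
            (4 * Real.pi * H * (4 * b ^ 2 * M₀ * ω + 4 * M₀ ^ 2 * b * H) + k) :=
        mul_le_mul_of_nonneg_left (hn1 i hi) (by positivity)
      have p3 : l / 2 * volume.real {x | zc τ (ρ (i + 1)) ≤ v n x ∧ v n x ≤ zc τ (ρ i)} ≤
          l / 2 * (4 * Real.pi * b ^ 2 * H + k) :=
        mul_le_mul_of_nonneg_left (hn2 i hi) (by positivity)
      have p4 : 0 ≤ ∫ x in {x | zc τ (ρ (i + 1)) ≤ v n x ∧ v n x ≤ zc τ (ρ i)},
          (‖fderiv ℝ (v n) x‖ - m i) ^ 2 := integral_nonneg fun x => sq_nonneg _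
      apply mul_le_mul p1 (by linarith)
      · positivity
      · positivity
    refine hsum.trans ?_
    rw [Finset.sum_const, Finset.card_range, nsmul_eq_mul]
    have e1 : N * B = A * (4 * Real.pi * (N * H) * (4 * b ^ 2 * M₀ * ω + 4 * M₀ ^ 2 * b * H)) +
        A * (N * k) + 2 / m₀ * (l / 2) * (4 * Real.pi * b ^ 2 * (N * H) + N * k) := by
      rw [hBd, hAd]
      ring
    rw [hNH] at e1
    have e2 : A * (4 * Real.pi * (b - a) * (4 * b ^ 2 * M₀ * ω + 4 * M₀ ^ 2 * b * H)) =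
        c1 * ω + c2 * H := by
      rw [hc1d, hc2d]
      ring
    have e3 : 2 / m₀ * (l / 2) * (4 * Real.pi * b ^ 2 * (b - a) + N * k) ≤ κ / 2 := by
      have h3 : 4 * Real.pi * b ^ 2 * (b - a) + N * k ≤ V := by
        rw [hVd]
        linarith
      have h4 : 2 / m₀ * (l / 2) * V = κ / 2 := by
        rw [hld]
        field_simp
      rw [← h4]
      exact mul_le_mul_of_nonneg_left h3 (by positivity)
    rw [e1, e2]
    linarith

end Pool.H56.PO
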