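import Pool.Agent.H56.PG.Sd

set_option autoImplicit false

/-!
# Module Sf (about 180 lines): convergence of the fluxes

Write `w n = rea (v n)`, `g n = rad (ds (v n) 0) → τ`, `w n ≤ B` on `(0, g n)` for all `n` (`seq_bdd`).
PROOF. (1) Let `0 < b < τ`. `∫_0^b |w n y - zc τ y| y² dy → 0`: for large `n` `b < g n`; dominated convergence: `w n y → zc τ y`
(`seq_rea`), `|w n y| ≤ B`, `zc τ` is bounded on `[0, b]`; measurability: `w n` is antitone on `(0, g n)` (`rea_anti`). So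
`fl (w n) → fl (zc τ)` uniformly on `[0, b]`, and `fl (zc τ) x = x² dz τ x` (`fl_zc`).
(2) The function `x ↦ x² dz τ x` is continuous on `(0, ∞)` (`dz_cont`), so there are `δ, η > 0` with `0 < r' - δ`, `r + δ < τ` and
`x² dz τ x < L - η` on `[r' - δ, r + δ]`. (3) For `t ≥ 0` `rea_int` with `F y = y - 1` gives
`∫_{t < v n} (v n - 1) = 4 π fl (w n) (rad (ds (v n) t))`. For `t ∈ [zc τ r, zc τ r']` (and `ds (v n)` is antitone)
`rad (ds (v n) (zc τ r')) ≤ rad (ds (v n) t) ≤ rad (ds (v n) (zc τ r))`; the ends tend to `r'` and `r` (`seq_ds`, `rad` is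
continuous on `(0, ∞)`, `rad_vol`), so for large `n` all these radii are in `[r' - δ, r + δ]`. With (1) for `b = r + δ`
the flux is at most `4 π (L - η + η)`.
-/

namespace Pool.H56.PO

open MeasureTheory Filter Topology

private theorem Sf_fin {v : E3 → ℝ} (hc : HasCompactSupport v) {t : ℝ} (ht : 0 ≤ t) :
    volume {x : E3 | t < v x} < ⊤ := by
  refine lt_of_le_of_lt (measure_mono ?_) (IsCompact.measure_lt_top hc)
  intro x hx
  apply subset_tsupport
  rw [Function.mem_support]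
  have : t < v x := hx
  linarith

private theorem Sf_ds_nonneg (v : E3 → ℝ) (t : ℝ) : 0 ≤ ds v t := measureReal_nonneg

private theorem Sf_ds_anti {v : E3 → ℝ} (hc : HasCompactSupport v) {t t' : ℝ} (ht : 0 ≤ t)
    (h : t ≤ t') : ds v t' ≤ ds v t := by
  unfold ds
  apply measureReal_mono _ (Sf_fin hc ht).ne
  intro x hx
  exact lt_of_le_of_lt h hx

private theorem Sf_rad_le {s s' : ℝ} (hs : 0 ≤ s) (h : s ≤ s') : rad s ≤ rad s' := by
  rcases h.eq_or_lt with h | h
  · rw [h]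
  · exact (rad_lt hs h).le

private theorem Sf_rad_cont : Continuous rad := by
  unfold rad
  exact (Real.continuous_rpow_const (by norm_num)).comp (by fun_prop)

/-- measurability of an antitone profile -/
private theorem Sf_int {g b : ℝ} {w : ℝ → ℝ} (hw : AntitoneOn w (Set.Ioo 0 g)) (hb : b < g) :
    AEStronglyMeasurable w (volume.restrict (Set.Ioc 0 b)) := by
  have hsub : Set.Ioc 0 b ⊆ Set.Ioo 0 g := fun x hx => ⟨hx.1, lt_of_le_of_lt hx.2 hb⟩
  exact (aemeasurable_restrict_of_antitoneOn measurableSet_Ioc (hw.mono hsub)).aestronglyMeasurable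

private theorem Sf_unif {τ : ℝ} {D : ℕ → Set E3} {v : ℕ → E3 → ℝ} (h : Seq τ D v) {b ε : ℝ}
    (h0 : 0 < b) (h1 : b < τ) (hε : 0 < ε) :
    ∀ᶠ n in atTop, ∀ x ∈ Set.Icc 0 b, |fl (rea (v n)) x - fl (zc τ) x| ≤ ε := by
  obtain ⟨B, hB1, hB⟩ := seq_bdd h
  obtain ⟨M, hM⟩ := isCompact_Icc.exists_bound_of_continuousOn (s := Set.Icc 0 b)
    (zc_cont τ).continuousOn
  have hM0 : 0 ≤ M := (norm_nonneg _).trans (hM 0 ⟨le_rfl, h0.le⟩)
  have hg : ∀ᶠ n in atTop, b < rad (ds (v n) 0) := (seq_rad h).eventually (lt_mem_nhds h1)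
  have hms : ∀ n, b < rad (ds (v n) 0) →
      AEStronglyMeasurable (rea (v n)) (volume.restrict (Set.Ioc 0 b)) := fun n hn =>
    Sf_int (rea_anti (h.sol n).cont (h.sol n).hcs) hn
  have hzm : AEStronglyMeasurable (zc τ) (volume.restrict (Set.Ioc 0 b)) :=
    (zc_cont τ).aestronglyMeasurable
  have hpm : AEStronglyMeasurable (fun y : ℝ => y ^ 2) (volume.restrict (Set.Ioc 0 b)) :=
    (continuous_pow 2).aestronglyMeasurable
  have hbd : ∀ n, b < rad (ds (v n) 0) → ∀ y ∈ Set.Ioc 0 b,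
      ‖(|rea (v n) y - zc τ y| * y ^ 2 : ℝ)‖ ≤ (B + M) * b ^ 2 := by
    intro n hn y hy
    have e1 := hB n y ⟨hy.1, lt_of_le_of_lt hy.2 hn⟩
    have e2 := rea_nonneg (v n) y
    have e3 := hM y ⟨hy.1.le, hy.2⟩
    rw [Real.norm_eq_abs] at e3
    have e4 : |rea (v n) y - zc τ y| ≤ B + M := by
      refine (abs_sub _ _).trans ?_
      rw [abs_of_nonneg e2]
      exact add_le_add e1 e3
    have e5 : y ^ 2 ≤ b ^ 2 := pow_le_pow_left₀ hy.1.le hy.2 2
    rw [Real.norm_eq_abs, abs_mul, abs_abs, abs_of_nonneg (sq_nonneg y)]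
    exact mul_le_mul e4 e5 (sq_nonneg y) (by linarith)
  have hlim : Tendsto (fun n => ∫ y in Set.Ioc 0 b, |rea (v n) y - zc τ y| * y ^ 2) atTop
      (𝓝 (∫ _y in Set.Ioc 0 b, (0 : ℝ))) := by
    refine tendsto_integral_filter_of_dominated_convergence (fun _ => (B + M) * b ^ 2) ?_ ?_ ?_ ?_
    · filter_upwards [hg] with n hn
      exact ((((hms n hn).sub hzm).norm).mul hpm)
    · filter_upwards [hg] with n hn
      rw [ae_restrict_iff' measurableSet_Ioc]
      exact Eventually.of_forall fun y hy => hbd n hn y hy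
    · exact integrableOn_const (by simp)
    · rw [ae_restrict_iff' measurableSet_Ioc]
      refine Eventually.of_forall fun y hy => ?_
      have e1 := seq_rea h y ⟨hy.1, lt_of_le_of_lt hy.2 h1⟩
      have e2 := ((e1.sub_const (zc τ y)).abs).mul_const (y ^ 2)
      simpa using e2
  rw [integral_zero] at hlim
  have hev := hlim.eventually (gt_mem_nhds hε)
  filter_upwards [hev, hg] with n hn1 hn2
  intro x hx
  have hsx : Set.Ioc 0 x ⊆ Set.Ioc 0 b := Set.Ioc_subset_Ioc_right hx.2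
  have hfin : IsFiniteMeasure (volume.restrict (Set.Ioc 0 b)) :=
    ⟨by rw [Measure.restrict_apply_univ]; exact measure_Ioc_lt_top⟩
  have i1 : IntegrableOn (fun y => |rea (v n) y - zc τ y| * y ^ 2) (Set.Ioc 0 b) := by
    refine Integrable.of_bound (((hms n hn2).sub hzm).norm.mul hpm) ((B + M) * b ^ 2) ?_
    rw [ae_restrict_iff' measurableSet_Ioc]
    exact Eventually.of_forall fun y hy => hbd n hn2 y hy
  have i2 : IntegrableOn (fun y => (rea (v n) y - 1) * y ^ 2) (Set.Ioc 0 b) := by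
    refine Integrable.of_bound (((hms n hn2).sub aestronglyMeasurable_const).mul hpm)
      ((B + 1) * b ^ 2) ?_
    rw [ae_restrict_iff' measurableSet_Ioc]
    refine Eventually.of_forall fun y hy => ?_
    have e1 := hB n y ⟨hy.1, lt_of_le_of_lt hy.2 hn2⟩
    have e2 := rea_nonneg (v n) y
    have e5 : y ^ 2 ≤ b ^ 2 := pow_le_pow_left₀ hy.1.le hy.2 2
    have e4 : |rea (v n) y - 1| ≤ B + 1 := by
      rw [abs_le]
      constructor <;> linarith
    change ‖(rea (v n) y - 1) * y ^ 2‖ ≤ _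
    rw [Real.norm_eq_abs, abs_mul, abs_of_nonneg (sq_nonneg y)]
    exact mul_le_mul e4 e5 (sq_nonneg y) (by linarith)
  have i3 : IntegrableOn (fun y => (zc τ y - 1) * y ^ 2) (Set.Ioc 0 b) := by
    have : Continuous fun y => (zc τ y - 1) * y ^ 2 :=
      ((zc_cont τ).sub continuous_const).mul (continuous_pow 2)
    exact this.continuousOn.integrableOn_Icc.mono_set Set.Ioc_subset_Icc_self
  have e : fl (rea (v n)) x - fl (zc τ) x =
      ∫ y in Set.Ioc 0 x, (rea (v n) y - zc τ y) * y ^ 2 := by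
    unfold fl
    rw [intervalIntegral.integral_of_le hx.1, intervalIntegral.integral_of_le hx.1,
      ← integral_sub (i2.mono_set hsx) (i3.mono_set hsx)]
    refine integral_congr_ae (Eventually.of_forall fun y => ?_)
    simp only
    ring
  rw [e]
  refine (abs_integral_le_integral_abs).trans ?_
  have e2 : ∫ y in Set.Ioc 0 x, |(rea (v n) y - zc τ y) * y ^ 2| =
      ∫ y in Set.Ioc 0 x, |rea (v n) y - zc τ y| * y ^ 2 := by
    refine integral_congr_ae (Eventually.of_forall fun y => ?_)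
    simp only
    rw [abs_mul, abs_of_nonneg (sq_nonneg y)]
  rw [e2]
  refine le_trans ?_ hn1.le
  refine setIntegral_mono_set i1 ?_ hsx.eventuallyLE
  exact Eventually.of_forall fun y => mul_nonneg (abs_nonneg _) (sq_nonneg y)

theorem seq_flux {τ : ℝ} {D : ℕ → Set E3} {v : ℕ → E3 → ℝ} (h : Seq τ D v) {r' r L : ℝ}
    (h0 : 0 < r') (h1 : r' < r) (h2 : r < τ) (hL : ∀ x ∈ Set.Icc r' r, x ^ 2 * dz τ x < L) :
    ∀ᶠ n in atTop, ∀ t ∈ Set.Icc (zc τ r) (zc τ r'),
      ∫ x in {x | t < v n x}, (v n x - 1) ≤ 4 * Real.pi * L := by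
  have hpi := Real.pi_pos
  have hr0 : 0 < r := h0.trans h1
  have hGc : ContinuousOn (fun x => x ^ 2 * dz τ x) (Set.Ioi 0) :=
    (continuous_pow 2).continuousOn.mul (dz_cont τ)
  have hsubI : Set.Icc r' r ⊆ Set.Ioi 0 := fun x hx => lt_of_lt_of_le h0 hx.1
  obtain ⟨x0, hx0, hmax⟩ := isCompact_Icc.exists_isMaxOn (s := Set.Icc r' r) ⟨r', le_rfl, h1.le⟩
    (hGc.mono hsubI)
  set L0 := x0 ^ 2 * dz τ x0 with hL0
  have hL0L : L0 < L := hL x0 hx0
  set m := (L0 + L) / 2 with hm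
  have hm1 : L0 < m := by rw [hm]; linarith
  have hm2 : m < L := by rw [hm]; linarith
  set U : Set ℝ := (Set.Ioi 0 ∩ (fun x => x ^ 2 * dz τ x) ⁻¹' Set.Iio m) ∩ Set.Iio τ with hU
  have hUo : IsOpen U := (hGc.isOpen_inter_preimage isOpen_Ioi isOpen_Iio).inter isOpen_Iio
  have hUI : Set.Icc r' r ⊆ U := by
    intro x hx
    refine ⟨⟨hsubI hx, ?_⟩, lt_of_le_of_lt hx.2 h2⟩
    have : x ^ 2 * dz τ x ≤ L0 := hmax hx
    exact lt_of_le_of_lt this hm1
  obtain ⟨d1, hd1, hd1'⟩ := Metric.isOpen_iff.1 hUo r' (hUI ⟨le_rfl, h1.le⟩)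
  obtain ⟨d2, hd2, hd2'⟩ := Metric.isOpen_iff.1 hUo r (hUI ⟨h1.le, le_rfl⟩)
  set δ := min d1 d2 / 2 with hδ
  have hδ0 : 0 < δ := by rw [hδ]; have := lt_min hd1 hd2; linarith
  have hδ1 : δ < d1 := by
    rw [hδ]; have := min_le_left d1 d2; have := lt_min hd1 hd2; linarith
  have hδ2 : δ < d2 := by
    rw [hδ]; have := min_le_right d1 d2; have := lt_min hd1 hd2; linarith
  have hUδ : Set.Icc (r' - δ) (r + δ) ⊆ U := by
    intro x hx
    rcases lt_or_ge x r' with hc | hc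
    · apply hd1'
      rw [Metric.mem_ball, Real.dist_eq, abs_lt]
      constructor <;> linarith [hx.1]
    · rcases le_or_gt x r with hc2 | hc2
      · exact hUI ⟨hc, hc2⟩
      · apply hd2'
        rw [Metric.mem_ball, Real.dist_eq, abs_lt]
        constructor <;> linarith [hx.2]
  have hbτ : r + δ < τ := (hUδ ⟨by linarith, le_rfl⟩).2
  have hz : 0 < zc τ r := by
    have hτ0 : 0 < τ := hr0.trans h2
    have := zc_anti h.tau ⟨hr0.le, h2.le⟩ ⟨hτ0.le, le_rfl⟩ h2
    rwa [zc_tau h.tau] at this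
  have t1 : Tendsto (fun n => rad (ds (v n) (zc τ r))) atTop (𝓝 r) := by
    have := (Sf_rad_cont.tendsto _).comp (seq_ds h hr0 h2)
    rwa [rad_vol hr0.le] at this
  have t2 : Tendsto (fun n => rad (ds (v n) (zc τ r'))) atTop (𝓝 r') := by
    have := (Sf_rad_cont.tendsto _).comp (seq_ds h h0 (h1.trans h2))
    rwa [rad_vol h0.le] at this
  filter_upwards [Sf_unif h (b := r + δ) (by linarith) hbτ (sub_pos.2 hm2),
    t1.eventually (gt_mem_nhds (show r < r + δ by linarith)),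
    t2.eventually (lt_mem_nhds (show r' - δ < r' by linarith))] with n hn1 hn2 hn3
  intro t ht
  have hv := (h.sol n).cont
  have hc := (h.sol n).hcs
  have ht0 : 0 ≤ t := hz.le.trans ht.1
  have e1 : ∫ x in {x | t < v n x}, (v n x - 1) =
      4 * Real.pi * fl (rea (v n)) (rad (ds (v n) t)) :=
    rea_int hv hc ht0 (F := fun y => y - 1) (by fun_prop)
  rw [e1]
  set ρ := rad (ds (v n) t) with hρ
  have r1 : ρ ≤ r + δ := by
    refine le_trans (Sf_rad_le (Sf_ds_nonneg _ _) ?_) hn2.le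
    exact Sf_ds_anti hc hz.le ht.1
  have r2 : r' - δ ≤ ρ := by
    refine le_trans hn3.le (Sf_rad_le (Sf_ds_nonneg _ _) ?_)
    exact Sf_ds_anti hc ht0 ht.2
  have hρU := hUδ ⟨r2, r1⟩
  have hρ0 : 0 < ρ := hρU.1.1
  have hρm : ρ ^ 2 * dz τ ρ < m := hρU.1.2
  have e2 := hn1 ρ ⟨hρ0.le, r1⟩
  rw [fl_zc τ hρ0.le] at e2
  have e3 := (abs_le.1 e2).2
  refine mul_le_mul_of_nonneg_left ?_ (by positivity)
  linarith

end Pool.H56.PO
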