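import Mathlib

/-!
# Module Sob (about 100 lines, Mathlib only): the Sobolev inequality on a set of small measure

PROOF. Mathlib: `MeasureTheory.eLpNorm_le_eLpNorm_fderiv_of_eq` with `p = 2`, `p' = 6`, dimension `3`: `1/6 = 1/2 - 1/3`, so
`‖f‖_6 ≤ C₀ ‖fderiv f‖_2` (`eLpNorm`), `C₀` a constant. Hölder: `∫_S f² ≤ (∫_S 1)^(2/3) (∫ f⁶)^(1/3) = |S|^(2/3) ‖f‖_6²`
(`ENNReal.lintegral_mul_le_Lp_mul_Lq` or `eLpNorm_le_eLpNorm_mul_rpow_measure_univ` for the restricted measure, `2 ≤ 6`).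
So `∫_S f² ≤ C₀² |S|^(2/3) ∫ ‖fderiv f‖²` (all integrals are finite: `f` is continuous with compact support; `eLpNorm` with
`p = 2` is the square root of the integral of the square).
-/

set_option autoImplicit false

namespace Pool.H56.PO

open MeasureTheory Filter Topology

private theorem Sob_l2 {F : Type*} [NormedAddCommGroup F]
    {μ : Measure (EuclideanSpace ℝ (Fin 3))} {g : EuclideanSpace ℝ (Fin 3) → F}
    (hg : MemLp g 2 μ) : eLpNorm g 2 μ = ENNReal.ofReal (√(∫ x, ‖g x‖ ^ 2 ∂μ)) := by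
  rw [hg.eLpNorm_eq_integral_rpow_norm (by norm_num) (by norm_num), Real.sqrt_eq_rpow]
  simp only [ENNReal.toReal_ofNat, Real.rpow_ofNat, one_div]

theorem sob : ∃ C : ℝ, 0 < C ∧ ∀ (f : EuclideanSpace ℝ (Fin 3) → ℝ) (S : Set (EuclideanSpace ℝ (Fin 3))),
    ContDiff ℝ 1 f → HasCompactSupport f → MeasurableSet S → volume S ≠ ⊤ →
    ∫ x in S, f x ^ 2 ≤ C * volume.real S ^ (2 / 3 : ℝ) * ∫ x, ‖fderiv ℝ f x‖ ^ 2 := by
  refine ⟨(SNormLESNormFDerivOfEqConst ℝ
    (volume : Measure (EuclideanSpace ℝ (Fin 3))) 2 : ℝ) ^ 2 + 1, by positivity,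
    fun f S hf hc hS hfin => ?_⟩
  set C0 := SNormLESNormFDerivOfEqConst ℝ
    (volume : Measure (EuclideanSpace ℝ (Fin 3))) 2 with hC0
  have hfr : Module.finrank ℝ (EuclideanSpace ℝ (Fin 3)) = 3 := by simp
  have h1 : eLpNorm f 6 volume ≤ C0 * eLpNorm (fderiv ℝ f) 2 volume := by
    have := eLpNorm_le_eLpNorm_fderiv_of_eq (volume : Measure (EuclideanSpace ℝ (Fin 3)))
      hf hc (p := 2) (p' := 6) (by norm_num) (by rw [hfr]; norm_num)
      (by rw [hfr]; norm_num)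
    exact_mod_cast this
  have hfc : Continuous f := hf.continuous
  have hdc : Continuous (fderiv ℝ f) := hf.continuous_fderiv one_ne_zero
  have hm : MemLp f 2 (volume.restrict S) := (hfc.memLp_of_hasCompactSupport hc).restrict S
  have hmd : MemLp (fderiv ℝ f) 2 volume := hdc.memLp_of_hasCompactSupport (hc.fderiv ℝ)
  have h2 : eLpNorm f 2 (volume.restrict S) ≤
      eLpNorm f 6 (volume.restrict S) * (volume.restrict S) Set.univ ^
        (1 / (2 : ENNReal).toReal - 1 / (6 : ENNReal).toReal) :=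
    eLpNorm_le_eLpNorm_mul_rpow_measure_univ (by norm_num) hm.aestronglyMeasurable
  have h3 : eLpNorm f 6 (volume.restrict S) ≤ eLpNorm f 6 volume :=
    eLpNorm_mono_measure f Measure.restrict_le_self
  have hex : (1 / (2 : ENNReal).toReal - 1 / (6 : ENNReal).toReal) = (1 / 3 : ℝ) := by
    simp only [ENNReal.toReal_ofNat]; norm_num
  rw [hex, Measure.restrict_apply_univ] at h2
  have h4 : eLpNorm f 2 (volume.restrict S) ≤
      C0 * eLpNorm (fderiv ℝ f) 2 volume * volume S ^ (1 / 3 : ℝ) :=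
    h2.trans (by gcongr; exact h3.trans h1)
  rw [Sob_l2 hm, Sob_l2 hmd, ← ENNReal.ofReal_toReal hfin,
    ENNReal.ofReal_rpow_of_nonneg ENNReal.toReal_nonneg (by norm_num),
    ← ENNReal.ofReal_coe_nnreal, ← ENNReal.ofReal_mul (by positivity),
    ← ENNReal.ofReal_mul (by positivity), ENNReal.ofReal_le_ofReal_iff (by positivity)] at h4
  have hA : 0 ≤ ∫ x in S, ‖f x‖ ^ 2 := integral_nonneg fun x => by positivity
  have hB : 0 ≤ ∫ x, ‖fderiv ℝ f x‖ ^ 2 := integral_nonneg fun x => by positivity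
  have h5 := pow_le_pow_left₀ (Real.sqrt_nonneg _) h4 2
  rw [Real.sq_sqrt hA, mul_pow, mul_pow, Real.sq_sqrt hB] at h5
  have h6 : ((volume S).toReal ^ (1 / 3 : ℝ)) ^ 2 = volume.real S ^ (2 / 3 : ℝ) := by
    rw [← Real.rpow_natCast, ← Real.rpow_mul ENNReal.toReal_nonneg]
    norm_num
    rfl
  rw [h6] at h5
  have h7 : ∫ x in S, f x ^ 2 = ∫ x in S, ‖f x‖ ^ 2 := by
    refine integral_congr_ae (Eventually.of_forall fun x => ?_)
    simp
  rw [h7]
  have h8 : 0 ≤ volume.real S ^ (2 / 3 : ℝ) * ∫ x, ‖fderiv ℝ f x‖ ^ 2 := by positivity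
  nlinarith

end Pool.H56.PO
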