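import Pool.Agent.H56.PG.Pl
import Pool.Agent.H56.PO.Main

/-!
# Sequences of solutions whose volumes tend to the critical volume (proved from the modules)
-/

set_option autoImplicit false

namespace Pool.H56.PO

open MeasureTheory Filter Topology

/-- a sequence of normalised solutions whose volumes tend to the critical volume -/
structure Seq (τ : ℝ) (D : ℕ → Set E3) (v : ℕ → E3 → ℝ) : Prop where
  tau : IsTau τ
  sol : ∀ n, Sol (D n) (v n)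
  pos : ∀ n, 0 < ds (v n) 0
  sq : ∀ n, ∫ x, v n x ^ 2 = 5 / 2 * volume.real (D n)
  lim : Tendsto (fun n => volume.real (D n)) atTop (𝓝 (4 * Real.pi / 3 * τ ^ 3))

theorem Seq.ds_le {τ : ℝ} {D : ℕ → Set E3} {v : ℕ → E3 → ℝ} (h : Seq τ D v) (n : ℕ) :
    ds (v n) 0 ≤ volume.real (D n) := by
  refine measureReal_mono ?_ (h.sol n).bd.measure_lt_top.ne
  intro x hx
  by_contra hxD
  exact absurd ((h.sol n).zero x hxD) (ne_of_gt hx)

theorem Seq.c_lim {τ : ℝ} {D : ℕ → Set E3} {v : ℕ → E3 → ℝ} (h : Seq τ D v) :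
    Tendsto (fun n => 5 / (8 * Real.pi) * volume.real (D n)) atTop (𝓝 (5 / 6 * τ ^ 3)) := by
  have h1 := h.lim.const_mul (5 / (8 * Real.pi))
  have e : 5 / (8 * Real.pi) * (4 * Real.pi / 3 * τ ^ 3) = 5 / 6 * τ ^ 3 := by
    have := Real.pi_pos.ne'
    field_simp
    ring
  rwa [e] at h1

theorem Seq.c_two {τ : ℝ} {D : ℕ → Set E3} {v : ℕ → E3 → ℝ} (h : Seq τ D v) (n : ℕ) :
    ∫ r in (0 : ℝ)..rad (ds (v n) 0), rea (v n) r ^ 2 * r ^ 2 ≤
      5 / (8 * Real.pi) * volume.real (D n) := by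
  have h1 := sq_rea (h.sol n).cont (h.sol n).hcs
  rw [h.sq n] at h1
  have hpi := Real.pi_pos
  have h2 : 5 / (8 * Real.pi) * volume.real (D n) =
      (5 / 2 * volume.real (D n)) / (4 * Real.pi) := by
    field_simp
    ring
  rw [h2, le_div_iff₀ (by positivity)]
  linarith

theorem Seq.c_three {τ : ℝ} {D : ℕ → Set E3} {v : ℕ → E3 → ℝ} (h : Seq τ D v) (n : ℕ) :
    5 / 6 * rad (ds (v n) 0) ^ 3 ≤ 5 / (8 * Real.pi) * volume.real (D n) := by
  have h1 := rad_pow (h.pos n).le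
  have h2 := h.ds_le n
  have hpi := Real.pi_pos
  have h3 : 5 / 6 * rad (ds (v n) 0) ^ 3 =
      5 / (8 * Real.pi) * (4 * Real.pi / 3 * rad (ds (v n) 0) ^ 3) := by
    field_simp
    ring
  rw [h3, h1]
  exact mul_le_mul_of_nonneg_left h2 (by positivity)

theorem Seq.prof {τ : ℝ} {D : ℕ → Set E3} {v : ℕ → E3 → ℝ} (h : Seq τ D v) (n : ℕ) :
    Prof (rad (ds (v n) 0)) (rea (v n)) := Pool.H56.PO.prof (h.sol n) (h.pos n)

theorem seq_rad {τ : ℝ} {D : ℕ → Set E3} {v : ℕ → E3 → ℝ} (h : Seq τ D v) :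
    Tendsto (fun n => rad (ds (v n) 0)) atTop (𝓝 τ) :=
  lim_g h.tau h.prof h.c_lim h.c_two h.c_three

theorem seq_rea {τ : ℝ} {D : ℕ → Set E3} {v : ℕ → E3 → ℝ} (h : Seq τ D v) :
    ∀ r ∈ Set.Ioo 0 τ, Tendsto (fun n => rea (v n) r) atTop (𝓝 (zc τ r)) :=
  prof_lim h.tau h.prof h.c_lim h.c_two h.c_three

theorem seq_bdd {τ : ℝ} {D : ℕ → Set E3} {v : ℕ → E3 → ℝ} (h : Seq τ D v) :
    ∃ B : ℝ, 1 ≤ B ∧ ∀ n, ∀ r ∈ Set.Ioo 0 (rad (ds (v n) 0)), rea (v n) r ≤ B := by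
  obtain ⟨C, hC⟩ := h.c_lim.bddAbove_range
  exact prof_unif h.prof (fun n => hC ⟨n, rfl⟩) h.c_two

end Pool.H56.PO
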