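import Pool.Agent.H56.PG.Sf

/-!
# Module Ss (about 150 lines): the slabs in the limit

(The same computation as `slab` in `PO/Slab.lean`, with errors that tend to `0`.)
PROOF. Let `S = {zc τ r ≤ v n ≤ zc τ r'}`, `t = zc τ r < t' = zc τ r'`, `H = r - r'`, `κ' > 0` small. For large `n`:
(a) `|S| = |{t ≤ v n}| - |{t' < v n}| ≤ 4π/3 (r³ - r'³) + κ' ≤ 4 π r² H + κ'` (`seq_ge`, `seq_ds`);
(b) `x² dz τ x ≤ r² M < L := r² M + κ'` on `[r', r]`, so `flux_le` and `seq_flux` give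
`∫_S ‖∇ v n‖² ≤ ∫_t^t' ∫_{σ < v n} (v n - 1) dσ ≤ 4 π L (t' - t)`, and `m H ≤ t' - t ≤ M H` (mean value theorem, `zc_deriv`);
(if the inner function were not interval integrable its integral would be `0`, which is fine as `0 ≤ 4 π L (t' - t)`);
(c) `per_le`: `∫_S ‖∇ v n‖ ≥ (36 π)^(1/3) |{t' ≤ v n}|^(2/3) (t' - t)`, and `|{t' ≤ v n}| → 4π/3 r'³` (`seq_ge`), so the right side
is at least `(4 π r'² - κ') (t' - t)` (`(36 π)^(1/3) (4π/3 r'³)^(2/3) = 4 π r'²`, continuity of `y ^ (2/3)`).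
Expand the square: `∫_S (‖∇ v n‖ - m)² = ∫_S ‖∇ v n‖² - 2 m ∫_S ‖∇ v n‖ + m² |S|`
`≤ 4 π (r² M + κ') M H - 2 m (4 π r'² - κ') m H + m² (4 π r² H + κ')` (for `κ' ≤ 4 π r'²`), which is
`≤ 4 π H (r² M² - 2 m² r'² + m² r²) + κ` for small `κ'`.
-/

set_option autoImplicit false

namespace Pool.H56.PO

open MeasureTheory Filter Topology

private theorem Ss_zpos {τ : ℝ} (hτ : IsTau τ) {r : ℝ} (h0 : 0 < r) (h1 : r < τ) :
    0 < zc τ r := by
  have hτ0 : 0 < τ := lt_trans Real.pi_pos hτ.1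
  have := zc_anti hτ (⟨h0.le, h1.le⟩ : r ∈ Set.Icc 0 τ)
    (⟨hτ0.le, le_rfl⟩ : τ ∈ Set.Icc 0 τ) h1
  rwa [zc_tau hτ] at this

private theorem Ss_compact {D : Set E3} {v : E3 → ℝ} (h : Sol D v) {t : ℝ} (ht : 0 < t) :
    IsCompact {x | t ≤ v x} := by
  refine h.hcs.isCompact.of_isClosed_subset (isClosed_le continuous_const h.cont) ?_
  intro x hx
  refine subset_tsupport v ?_
  intro h0
  have : t ≤ v x := hx
  rw [h0] at this
  linarith

private theorem Ss_mv {τ : ℝ} {r' r : ℝ} (h0 : 0 < r') (h1 : r' < r) :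
    ∃ c ∈ Set.Ioo r' r, zc τ r' - zc τ r = dz τ c * (r - r') := by
  obtain ⟨c, hc, he⟩ := exists_hasDerivAt_eq_slope (zc τ) (fun x => -dz τ x) h1
    (zc_cont τ).continuousOn (fun x hx => zc_deriv τ (ne_of_gt (lt_trans h0 hx.1)))
  refine ⟨c, hc, ?_⟩
  have hne : r - r' ≠ 0 := by linarith
  have he' : -dz τ c = (zc τ r - zc τ r') / (r - r') := he
  rw [eq_div_iff hne] at he'
  linarith

private theorem Ss_const {r' : ℝ} (h0 : 0 < r') :
    (36 * Real.pi) ^ (1 / 3 : ℝ) * (4 * Real.pi / 3 * r' ^ 3) ^ (2 / 3 : ℝ) =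
      4 * Real.pi * r' ^ 2 := by
  have hp := Real.pi_pos
  have e1 : (4 * Real.pi / 3 * r' ^ 3) ^ (2 / 3 : ℝ) =
      ((4 * Real.pi / 3 * r' ^ 3) ^ 2) ^ (1 / 3 : ℝ) := by
    rw [← Real.rpow_natCast (4 * Real.pi / 3 * r' ^ 3) 2, ← Real.rpow_mul (by positivity)]
    norm_num
  rw [e1, ← Real.mul_rpow (by positivity) (by positivity)]
  have e2 : 36 * Real.pi * (4 * Real.pi / 3 * r' ^ 3) ^ 2 = (4 * Real.pi * r' ^ 2) ^ 3 := by ring
  rw [e2, ← Real.rpow_natCast (4 * Real.pi * r' ^ 2) 3, ← Real.rpow_mul (by positivity)]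
  norm_num

/-- one function -/
private theorem Ss_one {D : Set E3} {v : E3 → ℝ} (h : Sol D v) {t t' m M H V A B K : ℝ}
    (hz : 0 < t) (hzz : t < t') (hm : 0 ≤ m)
    (hK0 : 0 ≤ K) (hB0 : 0 ≤ B)
    (htt1 : t' - t ≤ M * H) (htt2 : m * H ≤ t' - t)
    (hV : volume.real {x | t ≤ v x} - ds v t' ≤ V)
    (hW : ∀ σ ∈ Set.Icc t t', (∫ x in {x | σ < v x}, (v x - 1)) ≤ K)
    (hper : B ≤ (36 * Real.pi) ^ (1 / 3 : ℝ) * (volume.real {x | t' ≤ v x}) ^ (2 / 3 : ℝ))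
    (hfin : K * (M * H) - 2 * m * (B * (m * H)) + m ^ 2 * V ≤ A) :
    ∫ x in {x | t ≤ v x ∧ v x ≤ t'}, (‖fderiv ℝ v x‖ - m) ^ 2 ≤ A := by
  set S : Set E3 := {x | t ≤ v x ∧ v x ≤ t'} with hS
  have hSclosed : IsClosed S := by
    have : S = {x | t ≤ v x} ∩ {x | v x ≤ t'} := rfl
    rw [this]
    exact (isClosed_le continuous_const h.cont).inter (isClosed_le h.cont continuous_const)
  have hScomp : IsCompact S :=
    (Ss_compact h hz).of_isClosed_subset hSclosed (fun x hx => hx.1)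
  -- volume of the slab
  have hvol : volume.real S ≤ V := by
    have hun : {x | t ≤ v x} = S ∪ {x | t' < v x} := by
      ext x
      simp only [hS, Set.mem_ofPred_eq, Set.mem_union]
      constructor
      · intro hx
        rcases le_or_gt (v x) t' with h3 | h3
        · exact Or.inl ⟨hx, h3⟩
        · exact Or.inr h3
      · rintro (hx | hx)
        · exact hx.1
        · linarith
    have hdis : Disjoint S {x | t' < v x} := by
      rw [Set.disjoint_left]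
      intro x hx hx'
      have h3 : v x ≤ t' := hx.2
      have h4 : t' < v x := hx'
      linarith
    have hm2 : MeasurableSet {x | t' < v x} :=
      (isOpen_lt continuous_const h.cont).measurableSet
    have hf2 : volume {x | t' < v x} ≠ ⊤ := by
      refine ne_top_of_le_ne_top (Ss_compact h (lt_trans hz hzz)).measure_lt_top.ne
        (measure_mono ?_)
      intro x hx
      have hx' : t' < v x := hx
      exact hx'.le
    have e := measureReal_union (μ := volume) hdis hm2 hScomp.measure_lt_top.ne hf2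
    rw [← hun] at e
    unfold ds at hV
    linarith
  have htt0 : 0 < t' - t := by linarith
  have hflux := flux_le h hz hzz.le
  have hint : (∫ σ in t..t', ∫ x in {x | σ < v x}, (v x - 1)) ≤ K * (t' - t) := by
    by_cases hi : IntervalIntegrable (fun σ => ∫ x in {x | σ < v x}, (v x - 1)) volume t t'
    · have := intervalIntegral.integral_mono_on hzz.le hi
        (intervalIntegrable_const (c := K)) hW
      rw [intervalIntegral.integral_const, smul_eq_mul] at this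
      linarith
    · rw [intervalIntegral.integral_undef hi]
      positivity
  have hper1 := per_le h.c1 h.hcs hz hzz
  have hcont : Continuous fun x => ‖fderiv ℝ v x‖ :=
    (h.c1.continuous_fderiv (by norm_num)).norm
  have hi1 : IntegrableOn (fun x => ‖fderiv ℝ v x‖) S :=
    hcont.continuousOn.integrableOn_compact hScomp
  have hi2 : IntegrableOn (fun x => ‖fderiv ℝ v x‖ ^ 2) S :=
    (hcont.pow 2).continuousOn.integrableOn_compact hScomp
  have hi3 : IntegrableOn (fun _ : E3 => m ^ 2) S :=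
    continuous_const.continuousOn.integrableOn_compact hScomp
  have hexp : ∫ x in S, (‖fderiv ℝ v x‖ - m) ^ 2 =
      (∫ x in S, ‖fderiv ℝ v x‖ ^ 2) - 2 * m * (∫ x in S, ‖fderiv ℝ v x‖) +
        m ^ 2 * volume.real S := by
    have e0 : (fun x => (‖fderiv ℝ v x‖ - m) ^ 2) =
        fun x => (‖fderiv ℝ v x‖ ^ 2 - 2 * m * ‖fderiv ℝ v x‖) + m ^ 2 := by
      funext x
      ring
    have hi4 : IntegrableOn (fun x => ‖fderiv ℝ v x‖ ^ 2 - 2 * m * ‖fderiv ℝ v x‖) S :=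
      hi2.sub (hi1.const_mul (2 * m))
    rw [e0, integral_add hi4 hi3,
      integral_sub hi2 (hi1.const_mul (2 * m)), integral_const_mul, setIntegral_const, smul_eq_mul]
    ring
  rw [hexp]
  have hA1 : (∫ x in S, ‖fderiv ℝ v x‖ ^ 2) ≤ K * (M * H) := by
    refine (hflux.trans hint).trans ?_
    exact mul_le_mul_of_nonneg_left htt1 hK0
  have hB1 : B * (m * H) ≤ ∫ x in S, ‖fderiv ℝ v x‖ := by
    refine le_trans ?_ hper1
    refine le_trans (mul_le_mul_of_nonneg_left htt2 hB0) ?_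
    exact mul_le_mul_of_nonneg_right hper htt0.le
  have hB2 : 2 * m * (B * (m * H)) ≤ 2 * m * ∫ x in S, ‖fderiv ℝ v x‖ :=
    mul_le_mul_of_nonneg_left hB1 (by positivity)
  have hC2 : m ^ 2 * volume.real S ≤ m ^ 2 * V := mul_le_mul_of_nonneg_left hvol (by positivity)
  linarith

theorem seq_slab {τ : ℝ} {D : ℕ → Set E3} {v : ℕ → E3 → ℝ} (h : Seq τ D v) {r' r m M : ℝ}
    (h0 : 0 < r') (h1 : r' < r) (h2 : r < τ) (hm : 0 ≤ m)
    (hmM : ∀ x ∈ Set.Icc r' r, m ≤ dz τ x ∧ dz τ x ≤ M) {κ : ℝ} (hκ : 0 < κ) :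
    ∀ᶠ n in atTop,
      ∫ x in {x | zc τ r ≤ v n x ∧ v n x ≤ zc τ r'}, (‖fderiv ℝ (v n) x‖ - m) ^ 2 ≤
        4 * Real.pi * (r - r') * (r ^ 2 * M ^ 2 - 2 * m ^ 2 * r' ^ 2 + m ^ 2 * r ^ 2) + κ := by
  have hr : 0 < r := lt_trans h0 h1
  have hr'τ : r' < τ := lt_trans h1 h2
  have hp := Real.pi_pos
  have hA := zc_anti h.tau
  have hz : 0 < zc τ r := Ss_zpos h.tau hr h2
  have hzz : zc τ r < zc τ r' := hA (⟨h0.le, hr'τ.le⟩ : r' ∈ Set.Icc 0 τ)
    (⟨hr.le, h2.le⟩ : r ∈ Set.Icc 0 τ) h1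
  have hM : 0 < M := lt_of_lt_of_le (dz_pos h.tau hr h2) (hmM r ⟨h1.le, le_rfl⟩).2
  obtain ⟨c, hc, hce⟩ := Ss_mv (τ := τ) h0 h1
  have hcm := hmM c ⟨hc.1.le, hc.2.le⟩
  have hh : 0 < r - r' := by linarith
  set H := r - r' with hH
  -- the small number
  set Q : ℝ := 4 * Real.pi * M * H + 2 * m ^ 2 * H + m ^ 2 + 1 with hQ
  have hQ0 : 0 < Q := by positivity
  set κ' : ℝ := min (4 * Real.pi * r' ^ 2) (κ / Q) with hκ'
  have hκ0 : 0 < κ' := lt_min (by positivity) (by positivity)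
  have hκ1 : κ' ≤ 4 * Real.pi * r' ^ 2 := min_le_left _ _
  have hκ2 : κ' * Q ≤ κ := by
    have := min_le_right (4 * Real.pi * r' ^ 2) (κ / Q)
    rw [← hκ', le_div_iff₀ hQ0] at this
    exact this
  have hL : ∀ x ∈ Set.Icc r' r, x ^ 2 * dz τ x < r ^ 2 * M + κ' := by
    intro x hx
    have hd := (hmM x hx).2
    have hx0 : 0 < x := lt_of_lt_of_le h0 hx.1
    have h3 : x ^ 2 * dz τ x ≤ x ^ 2 * M := mul_le_mul_of_nonneg_left hd (by positivity)
    have h4 : x ^ 2 * M ≤ r ^ 2 * M :=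
      mul_le_mul_of_nonneg_right (pow_le_pow_left₀ hx0.le hx.2 2) hM.le
    linarith
  have ev1 := seq_flux h h0 h1 h2 hL
  have ev2 := (seq_ge h hr h2).eventually_lt_const
    (show 4 * Real.pi / 3 * r ^ 3 < 4 * Real.pi / 3 * r ^ 3 + κ' / 2 by linarith)
  have ev3 := (seq_ds h h0 hr'τ).eventually_const_lt
    (show 4 * Real.pi / 3 * r' ^ 3 - κ' / 2 < 4 * Real.pi / 3 * r' ^ 3 by linarith)
  have ev4 : ∀ᶠ n in atTop, 4 * Real.pi * r' ^ 2 - κ' <
      (36 * Real.pi) ^ (1 / 3 : ℝ) * (volume.real {x | zc τ r' ≤ v n x}) ^ (2 / 3 : ℝ) := by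
    have h5 := ((seq_ge h h0 hr'τ).rpow_const (p := (2 / 3 : ℝ))
      (Or.inr (by norm_num))).const_mul ((36 * Real.pi) ^ (1 / 3 : ℝ))
    rw [Ss_const h0] at h5
    exact h5.eventually_const_lt (by linarith)
  filter_upwards [ev1, ev2, ev3, ev4] with n e1 e2 e3 e4
  have htt1 : zc τ r' - zc τ r ≤ M * H := by
    rw [hce]
    exact mul_le_mul_of_nonneg_right hcm.2 hh.le
  have htt2 : m * H ≤ zc τ r' - zc τ r := by
    rw [hce]
    exact mul_le_mul_of_nonneg_right hcm.1 hh.le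
  have hC1 : (r ^ 3 - r' ^ 3) / 3 ≤ r ^ 2 * H := by
    have : r ^ 3 - r' ^ 3 = (r - r') * (r ^ 2 + r * r' + r' ^ 2) := by ring
    rw [this, ← hH]
    have h3 : r ^ 2 + r * r' + r' ^ 2 ≤ 3 * r ^ 2 := by nlinarith
    nlinarith [mul_le_mul_of_nonneg_left h3 hh.le]
  have hC3 := mul_le_mul_of_nonneg_left hC1 (by positivity : 0 ≤ 4 * Real.pi)
  refine Ss_one (h.sol n) (V := 4 * Real.pi * (r ^ 2 * H) + κ') (B := 4 * Real.pi * r' ^ 2 - κ')
    (K := 4 * Real.pi * (r ^ 2 * M + κ')) hz hzz hm (by positivity) (by linarith)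
    htt1 htt2 ?_ e1 e4.le ?_
  · linarith
  · have hexp : 4 * Real.pi * (r ^ 2 * M + κ') * (M * H) -
        2 * m * ((4 * Real.pi * r' ^ 2 - κ') * (m * H)) +
        m ^ 2 * (4 * Real.pi * (r ^ 2 * H) + κ') =
        4 * Real.pi * H * (r ^ 2 * M ^ 2 - 2 * m ^ 2 * r' ^ 2 + m ^ 2 * r ^ 2) +
          κ' * (Q - 1) := by
      rw [hQ]
      ring
    rw [hexp]
    have : κ' * (Q - 1) = κ' * Q - κ' := by ring
    linarith

end Pool.H56.PO
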